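import Pool.Agent.Run7.h653.Defs

/-!
# The principles `□(κ)`, `♢(κ)` and `P⁻(κ, μ, ⊑, 1, {κ}, μ)`

The definitions follow the problem file `MP_960bf8_lc`. Ordinals and cardinals are those of
Mathlib, of the lowest universe; `κ.ord` is the initial ordinal of the cardinal `κ`, and limit
ordinals are given by Mathlib's `Order.IsSuccLimit`. `IsAccumulation` and `IsClubIn` are
defined in `Pool.Agent.Run7.h653.Defs`.
-/

set_option autoImplicit false

namespace Pool.Agent.Run7.h653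

open Cardinal Ordinal Order

/-- The principle `□(κ)`: there is a sequence `C α`, for limit ordinals `α < κ`, such that `C α` is
closed and unbounded in `α`, `C β = C α ∩ β` for all accumulation points `β < α` of `C α`, and
there is no closed unbounded `D ⊆ κ` with `D ∩ α = C α` for all accumulation points `α < κ`
of `D`. -/
def SquareSeq (κ : Cardinal.{0}) : Prop :=
  ∃ C : Ordinal.{0} → Set Ordinal.{0},
    (∀ α < κ.ord, IsSuccLimit α → IsClubIn (C α) α) ∧
    (∀ α < κ.ord, IsSuccLimit α → ∀ β < α, IsAccumulation (C α) β → C β = C α ∩ Set.Iio β) ∧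
    ¬ ∃ D : Set Ordinal.{0}, IsClubIn D κ.ord ∧
      ∀ α < κ.ord, IsAccumulation D α → D ∩ Set.Iio α = C α

/-- Jensen's principle `♢(κ)`: there are sets `Z α ⊆ α`, for `α < κ`, such that for every `A ⊆ κ`
the set of all `α < κ` with `A ∩ α = Z α` is stationary, that is, meets every closed unbounded
subset of `κ`. -/
def DiamondSeq (κ : Cardinal.{0}) : Prop :=
  ∃ Z : Ordinal.{0} → Set Ordinal.{0},
    (∀ α < κ.ord, Z α ⊆ Set.Iio α) ∧
    ∀ A ⊆ Set.Iio κ.ord, ∀ D : Set Ordinal.{0}, IsClubIn D κ.ord → ∃ α ∈ D, A ∩ Set.Iio α = Z α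

/-- The next `n` elements of `C` above `γ` (the elements `x > γ` of `C` such that fewer than `n`
elements of `C` are strictly between `γ` and `x`) all lie in `B`. -/
def NextIn (C : Set Ordinal.{0}) (γ : Ordinal.{0}) (n : ℕ) (B : Set Ordinal.{0}) : Prop :=
  ∀ x ∈ C, γ < x → (C ∩ Set.Ioo γ x).encard < n → x ∈ B

/-- The principle `P⁻(κ, μ, ⊑, 1, {κ}, μ)`: there is a sequence of sets `𝒞 α` such that for every
limit ordinal `α < κ`
1. `𝒞 α` is a nonempty set of fewer than `μ` closed unbounded subsets of `α`;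
2. for every `C ∈ 𝒞 α` and every accumulation point `β < α` of `C` there is `D ∈ 𝒞 β` which is an
   initial segment of `C`, that is, `D = C ∩ β`;
and such that for every cofinal `B ⊆ κ` and every `n < ω`, stationarily many `α < κ` satisfy: for
every `C ∈ 𝒞 α`, there are cofinally many `γ ∈ C` such that the next `n` elements of `C` above `γ`
all lie in `B`. -/
def ProxyPrinciple (κ μ : Cardinal.{0}) : Prop :=
  ∃ 𝒞 : Ordinal.{0} → Set (Set Ordinal.{0}),
    (∀ α < κ.ord, IsSuccLimit α →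
      (𝒞 α).Nonempty ∧ #(𝒞 α) < Cardinal.lift.{1} μ ∧ ∀ C ∈ 𝒞 α, IsClubIn C α) ∧
    (∀ α < κ.ord, IsSuccLimit α → ∀ C ∈ 𝒞 α, ∀ β < α, IsAccumulation C β →
      ∃ D ∈ 𝒞 β, D = C ∩ Set.Iio β) ∧
    ∀ B ⊆ Set.Iio κ.ord, (∀ γ < κ.ord, ∃ β ∈ B, γ ≤ β) → ∀ n : ℕ,
      ∀ D : Set Ordinal.{0}, IsClubIn D κ.ord →
        ∃ α ∈ D, IsSuccLimit α ∧ ∀ C ∈ 𝒞 α, ∀ η < α, ∃ γ ∈ C, η ≤ γ ∧ NextIn C γ n B

end Pool.Agent.Run7.h653
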