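import Pool.Agent.Run7.h653.Tree3

/-!
# Putting the pieces together
-/

set_option autoImplicit false
set_option linter.unusedSectionVars false

namespace Pool.Agent.Run7.h653

open Set Cardinal

universe u v

variable {K Λ : Type u} [LinearOrder K] [WellFoundedLT K] [LinearOrder Λ] [WellFoundedLT Λ]

theorem small_Iio (hs : Setup K Λ) (a : K) : #(Iio a) ≤ #Λ := by
  obtain ⟨g, hg⟩ := hs.small a
  have h1 : Iio a ⊆ range g := fun b hb => by
    obtain ⟨i, hi⟩ := hg b (le_of_lt hb)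
    exact ⟨i, hi⟩
  exact (mk_le_mk_of_subset h1).trans mk_range_le

/-- an unbounded set is large -/
theorem card_unbdd (hs : Setup K Λ) {D : Set K} (hD : ∀ b, ∃ c ∈ D, b < c) [Nonempty K] :
    #Λ < #D := by
  by_contra hcon
  obtain ⟨b0⟩ := (inferInstance : Nonempty K)
  obtain ⟨c0, hc0, -⟩ := hD b0
  have : Nonempty D := ⟨⟨c0, hc0⟩⟩
  obtain ⟨e⟩ := (Cardinal.le_def _ _).1 (not_lt.1 hcon)
  obtain ⟨b, hb⟩ := hs.reg (fun i => (Function.invFun e i : D).1)
  obtain ⟨c, hc, hbc⟩ := hD b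
  have h1 := hb (e ⟨c, hc⟩)
  rw [Function.leftInverse_invFun e.injective] at h1
  exact absurd hbc (not_lt.2 h1.le)

/-- There are stationarily many points of good cofinality. -/
theorem stat_good (hs : Setup K Λ) [Nonempty K] :
    Stat {δ : K | LimPt univ δ ∧ GoodCof Λ δ} := by
  classical
  intro D hD
  by_cases hΛ : ∀ f : ℕ → Λ, ∃ b, ∀ n, f n ≤ b
  · -- points of countable cofinality
    have hnext : ∀ a : K, ∃ c ∈ D, a < c := hD.1
    choose next hn1 hn2 using hnext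
    obtain ⟨a0⟩ := (inferInstance : Nonempty K)
    obtain ⟨f, a, hf0, hfs, hfm, hfa, hfc⟩ := hs.exists_iter next hn2 a0
    have hlD : LimPt D a := by
      refine ⟨⟨_, hfa 0⟩, fun c hc => ?_⟩
      obtain ⟨n, hn⟩ := hfc c hc
      refine ⟨next (f n), hn1 _, hn.trans (hn2 _), ?_⟩
      rw [← hfs]
      exact hfa _
    refine ⟨a, ⟨hlD.mono (subset_univ _), ?_⟩, hD.2 a hlD⟩
    intro N z hN
    have h1 : ∀ n : ℕ, ∃ x ∈ N, f n < x ∧ x < a := fun n => hN (f n) (hfa n)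
    choose x hx1 hx2 hx3 using h1
    obtain ⟨ζ, hζ⟩ := hΛ (fun n => z (x n))
    refine ⟨ζ, fun b hb => ?_⟩
    obtain ⟨n, hn⟩ := hfc b hb
    exact ⟨x n, hx1 n, hn.trans (hx2 n), hx3 n, hζ n⟩
  · -- points of uncountable cofinality
    push Not at hΛ
    obtain ⟨l, hl⟩ := hΛ
    have h1 := card_unbdd hs hD.1
    have h2 : ℵ₁ ≤ #Λ := by
      rw [← succ_aleph0]
      exact Order.succ_le_of_lt hs.unc
    obtain ⟨D', hD', hcard⟩ := le_mk_iff_exists_subset.1 (h2.trans h1.le)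
    have hne : {a : K | ¬ (D ∩ Iio a).Countable}.Nonempty := by
      have h3 : Nonempty D' := by
        rw [← mk_ne_zero_iff, hcard]
        exact (aleph0_pos.trans aleph0_lt_aleph_one).ne'
      obtain ⟨e⟩ := (Cardinal.le_def _ _).1 (hcard.le.trans h2)
      obtain ⟨b, hb⟩ := hs.reg (fun i => (Function.invFun e i : D').1)
      refine ⟨b, fun hcount => ?_⟩
      have h4 : D' ⊆ D ∩ Iio b := by
        intro c hc
        refine ⟨hD' hc, ?_⟩
        have h5 := hb (e ⟨c, hc⟩)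
        rw [Function.leftInverse_invFun e.injective] at h5
        exact h5
      have h5 := (hcount.mono h4).le_aleph0
      rw [hcard] at h5
      exact absurd aleph0_lt_aleph_one (not_lt.2 h5)
    set δ := wellFounded_lt.min _ hne with hδ
    have hδ1 : ¬ (D ∩ Iio δ).Countable := wellFounded_lt.min_mem _ hne
    have hδ2 : ∀ b < δ, (D ∩ Iio b).Countable := by
      intro b hb
      by_contra h
      exact wellFounded_lt.not_lt_min _ (show b ∈ {a : K | ¬ (D ∩ Iio a).Countable} from h) hb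
    have hlD : LimPt D δ := by
      constructor
      · by_contra h
        push Not at h
        apply hδ1
        have : D ∩ Iio δ = ∅ := by
          ext y
          simp only [mem_inter_iff, mem_Iio, mem_empty_iff_false, iff_false, not_and, not_lt]
          exact fun _ => h y
        rw [this]
        exact countable_empty
      · intro b hb
        by_contra hno
        push Not at hno
        apply hδ1
        refine ((hδ2 b hb).union (countable_singleton b)).mono ?_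
        rintro y ⟨hy1, hy2⟩
        rcases lt_trichotomy y b with h | h | h
        · exact Or.inl ⟨hy1, h⟩
        · exact Or.inr h
        · exact absurd hy2 (not_lt.2 (hno y hy1 h))
    refine ⟨δ, ⟨hlD.mono (subset_univ _), ?_⟩, hD.2 δ hlD⟩
    intro N z hN
    by_contra hcon
    push Not at hcon
    choose b hb1 hb2 using fun n => hcon (l n)
    have h6 : ∃ b' < δ, ∀ n, b n ≤ b' := by
      by_contra hno
      push Not at hno
      apply hδ1
      refine (countable_iUnion (fun n => hδ2 (b n) (hb1 n))).mono ?_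
      rintro y ⟨hy1, hy2⟩
      obtain ⟨n, hn⟩ := hno y hy2
      exact mem_iUnion.2 ⟨n, hy1, hn⟩
    obtain ⟨b', hb', hb''⟩ := h6
    obtain ⟨x, hx, h7, h8⟩ := hN b' hb'
    obtain ⟨n, hn⟩ := hl (z x)
    exact absurd (hb2 n x hx ((hb'' n).trans_lt h7) h8) (not_lt.2 hn.le)

/-- the main theorem, in abstract form -/
theorem main_abstract (hs : Setup K Λ) [Nonempty K] (X : K → Set (K × Λ × Λ × Λ))
    (hX : ∀ a, ∀ Y : Set (K × Λ × Λ × Λ), (∀ p ∈ Y, p.1 < a) → ∃ b, X b = Y)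
    {C : K → Set K} (hC : Coh C) (hnt : NoThread C) :
    ∃ (C' : K → Set K) (S : Set K) (Z : K → Set (K × Λ)), Coh C' ∧ Avoids C' S ∧
      Guess C' S Z := by
  have hE := stat_good hs
  have hZE := shelah hs X hX _ hE (fun δ hδ => hδ.2) (fun δ hδ => hδ.1)
  rcases dichotomy hs hC hnt _ (fun δ hδ => hδ.2) (fun δ hδ => hδ.1) hE hZE with
    ⟨C', hC', hh⟩ | ⟨C', S, hC', hS, hSE, hav⟩
  · obtain ⟨Z, hZ⟩ := hZE
    refine ⟨C', ∅, Z, hC', fun _ _ _ _ => notMem_empty _, fun A D hD => Or.inr ?_⟩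
    obtain ⟨α, hα, h1⟩ := hh {β | β ∈ D ∧ ∀ γ < β, ∀ i, ((γ, i) ∈ Z β ↔ (γ, i) ∈ A)} (by
      intro b
      obtain ⟨δ, -, ⟨h2, h3⟩, h4⟩ := hZ A _ (hs.club_inter2 hD (hs.club_Ioi b))
      exact ⟨δ, ⟨h2, h4⟩, h3⟩)
    refine ⟨α, hα, fun b hb => ?_⟩
    obtain ⟨β, h2, h3, h4, h5⟩ := h1 b hb
    exact ⟨β, h2, h4, h5, h3.1, h3.2⟩
  · obtain ⟨Z, hZ⟩ := shelah hs X hX S hS (fun δ hδ => (hSE hδ).2) (fun δ hδ => (hSE hδ).1)
    refine ⟨C', S, Z, hC', hav, fun A D hD => Or.inl ?_⟩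
    obtain ⟨δ, h1, h2, h3⟩ := hZ A D hD
    exact ⟨δ, h1, h2, (hSE h1).1, h3⟩

/-- a tree without large chains and antichains -/
theorem exists_tree (hs : Setup K Λ) [Nonempty K] (X : K → Set (K × Λ × Λ × Λ))
    (hX : ∀ a, ∀ Y : Set (K × Λ × Λ × Λ), (∀ p ∈ Y, p.1 < a) → ∃ b, X b = Y)
    {C : K → Set K} (hC : Coh C) (hnt : NoThread C) :
    ∃ f : K → Lev K Λ, 
      (∀ a b c : K × Λ, TLt f a b → TLt f b c → TLt f a c) ∧
      (∀ a b x : K × Λ, TLt f a x → TLt f b x → a = b ∨ TLt f a b ∨ TLt f b a) ∧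
      (∀ A : Set (K × Λ), (∀ a ∈ A, ∀ b ∈ A, ¬ TLt f a b) → ∃ α, ∀ a ∈ A, a.1 < α) ∧
      (∀ B : Set (K × Λ), (∀ a ∈ B, ∀ b ∈ B, a = b ∨ TLt f a b ∨ TLt f b a) →
        ∃ α, ∀ a ∈ B, a.1 < α) := by
  obtain ⟨C', S, Z, hC', hS, hG⟩ := main_abstract hs X hX hC hnt
  obtain ⟨f, hf⟩ := exists_levels hs hC' hS Z
  exact ⟨f, fun a b c => tlt_trans hf, fun a b x => tlt_conn hf,
    antichain_bdd hs hC' hS hf hG, chain_bdd hs hC' hS hf hG⟩

end Pool.Agent.Run7.h653
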