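import Pool.Agent.Run7.h653.Dicho2
import Pool.Agent.Run7.h653.Main

/-!
# Coherent sequences which hit all unbounded sets, with blocks of length `n`
-/

set_option autoImplicit false
set_option linter.unusedSectionVars false

namespace Pool.Agent.Run7.h653

open Set Cardinal

universe u

variable {K Λ : Type u} [LinearOrder K] [WellFoundedLT K] [LinearOrder Λ] [WellFoundedLT Λ]

/-- insert the points of `F ε β` into the gap between consecutive elements `ε`, `β` of `C α` -/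
def Ins (C : K → Set K) (F : K → K → Set K) (α : K) : Set K :=
  {δ | δ ∈ C α ∨ ∃ ε ∈ C α, ∃ β ∈ C α, ε < δ ∧ δ < β ∧ (∀ c ∈ C α, c < β → c ≤ ε) ∧ δ ∈ F ε β}

theorem limPt_Ins {C : K → Set K} {F : K → K → Set K} (hF : ∀ ε β, (F ε β).Finite) {α x : K}
    (h : LimPt (Ins C F α) x) : LimPt (C α) x := by
  refine ⟨h.1, fun b hb => ?_⟩
  by_contra hno
  push Not at hno
  obtain ⟨δ1, h1, h2, h3⟩ := h.2 b hb
  rcases h1 with h1 | ⟨ε, hε, β, hβ, h4, h5, h6, h7⟩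
  · exact absurd h3 (not_lt.2 (hno δ1 h1 h2))
  have hfin : (F ε β ∩ Iio x).Finite := (hF ε β).subset inter_subset_left
  obtain ⟨m, ⟨hm1, hm2⟩, hm3⟩ := hfin.exists_maximal ⟨δ1, h7, h3⟩
  have hεb : ε ≤ b := by
    by_contra hc
    exact absurd (h4.trans h3) (not_lt.2 (hno ε hε (not_le.1 hc)))
  have hβx : x ≤ β := hno β hβ (h2.trans h5)
  have hmb : b < max b m ∨ m ≤ b := by
    rcases le_or_gt m b with h | h
    · exact Or.inr h
    · exact Or.inl (lt_max_of_lt_right h)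
  obtain ⟨δ2, h8, h9, h10⟩ := h.2 (max b m) (max_lt hb hm2)
  rcases h8 with h8 | ⟨ε2, hε2, β2, hβ2, h11, h12, h13, h14⟩
  · exact absurd h10 (not_lt.2 (hno δ2 h8 ((le_max_left _ _).trans_lt h9)))
  have hε2b : ε2 ≤ b := by
    by_contra hc
    exact absurd (h11.trans h10) (not_lt.2 (hno ε2 hε2 (not_le.1 hc)))
  have hβ2x : x ≤ β2 := hno β2 hβ2 (((le_max_left _ _).trans_lt h9).trans h12)
  have e1 : ε2 = ε := le_antisymm (h6 ε2 hε2 (hε2b.trans_lt (hb.trans_le hβx)))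
    (h13 ε hε (hεb.trans_lt (hb.trans_le hβ2x)))
  have e2 : β2 = β := by
    rcases lt_trichotomy β2 β with h | h | h
    · exact absurd (h6 β2 hβ2 h) (not_le.2 (hεb.trans_lt (hb.trans_le hβ2x)))
    · exact h
    · exact absurd (h13 β hβ h) (not_le.2 (hε2b.trans_lt (hb.trans_le hβx)))
  rw [e1, e2] at h14
  have h15 : δ2 ≤ m := by
    have h16 := (le_max_right b m).trans h9.le
    exact hm3 ⟨h14, h10⟩ h16
  exact absurd ((le_max_right b m).trans_lt h9) (not_lt.2 h15)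

theorem coh_Ins {C : K → Set K} (hC : Coh C) {F : K → K → Set K}
    (hF : ∀ ε β, (F ε β).Finite) : Coh (Ins C F) where
  sub := by
    rintro α δ (h | ⟨ε, hε, β, hβ, h1, h2, -⟩)
    · exact hC.sub α δ h
    · exact h2.trans (hC.sub α β hβ)
  closed := fun α β hβ h => Or.inl (hC.closed α β hβ (limPt_Ins hF h))
  unb := by
    intro α hα b hb
    obtain ⟨c, hc, hbc⟩ := hC.unb α hα b hb
    exact ⟨c, Or.inl hc, hbc⟩
  coh := by
    intro α β0 hβ0 h δ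
    have hl := limPt_Ins hF h
    have hco := hC.coh α β0 hβ0 hl
    constructor
    · rintro (h1 | ⟨ε, hε, β, hβ, h1, h2, h3, h4⟩)
      · rw [hco] at h1
        exact ⟨Or.inl h1.1, h1.2⟩
      · have h5 := (hco β).1 hβ
        refine ⟨Or.inr ⟨ε, ((hco ε).1 hε).1, β, h5.1, h1, h2, fun c hc hcβ => ?_, h4⟩,
          h2.trans h5.2⟩
        exact h3 c ((hco c).2 ⟨hc, hcβ.trans h5.2⟩) hcβ
    · rintro ⟨h1 | ⟨ε, hε, β, hβ, h1, h2, h3, h4⟩, h5⟩
      · exact Or.inl ((hco δ).2 ⟨h1, h5⟩)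
      · have h6 : β < β0 := by
          by_contra hc
          obtain ⟨c, hc1, hc2, hc3⟩ := hl.2 δ h5
          exact absurd (h3 c hc1 (hc3.trans_le (not_lt.1 hc))) (not_le.2 (h1.trans hc2))
        refine Or.inr ⟨ε, (hco ε).2 ⟨hε, (h1.trans h2).trans h6⟩, β, (hco β).2 ⟨hβ, h6⟩, h1, h2,
          fun c hc hcβ => h3 c ((hco c).1 hc).1 hcβ, h4⟩

/-- the first `n` elements of `A` above `ε`, if they are below `β` -/
def firstN (A : Set K) (n : ℕ) (ε β : K) : Set K :=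
  {δ | δ ∈ A ∧ ε < δ ∧ δ < β ∧ (A ∩ Ioo ε δ).encard < n}

theorem firstN_finite (A : Set K) (n : ℕ) (ε β : K) : (firstN A n ε β).Finite := by
  by_contra hinf
  obtain ⟨t, ht, hcard⟩ := Set.Infinite.exists_subset_card_eq (s := firstN A n ε β) hinf (n + 1)
  have hne : t.Nonempty := by
    rw [← Finset.card_pos, hcard]
    exact Nat.succ_pos n
  have h1 := ht (t.max'_mem hne)
  have h2 : ((t.erase (t.max' hne) : Finset K) : Set K) ⊆ A ∩ Ioo ε (t.max' hne) := by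
    intro x hx
    rw [Finset.mem_coe, Finset.mem_erase] at hx
    have h3 := ht hx.2
    exact ⟨h3.1, h3.2.1, lt_of_le_of_ne (t.le_max' x hx.2) hx.1⟩
  have h3 := Set.encard_le_encard h2
  rw [Set.encard_coe_eq_coe_finsetCard, Finset.card_erase_of_mem (t.max'_mem hne), hcard] at h3
  exact absurd h1.2.2.2 (not_lt.2 h3)

/-- if `A` is unbounded in `β` then there are `n` elements -/
theorem firstN_card {A : Set K} {n : ℕ} {ε β : K} (hβ : LimPt A β) (hε : ε < β) :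
    (n : ℕ∞) ≤ (firstN A n ε β).encard := by
  by_contra hcon
  have hlt := not_le.1 hcon
  have hex : ∃ x, x ∈ A ∧ ε < x ∧ x < β ∧ x ∉ firstN A n ε β := by
    by_contra hno
    push Not at hno
    have hfin := firstN_finite A n ε β
    obtain ⟨x, hx, h1, h2⟩ := hβ.2 ε hε
    obtain ⟨m, hm1, hm2⟩ := hfin.exists_maximal ⟨x, hno x hx h1 h2⟩
    obtain ⟨y, hy, h3, h4⟩ := hβ.2 m hm1.2.2.1
    exact absurd h3 (not_lt.2 (hm2 (hno y hy (hm1.2.1.trans h3) h4) h3.le))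
  have hne : {x | x ∈ A ∧ ε < x ∧ x < β ∧ x ∉ firstN A n ε β}.Nonempty := hex
  set m := wellFounded_lt.min _ hne with hm
  have hmem : m ∈ A ∧ ε < m ∧ m < β ∧ m ∉ firstN A n ε β := wellFounded_lt.min_mem _ hne
  apply hmem.2.2.2
  refine ⟨hmem.1, hmem.2.1, hmem.2.2.1, lt_of_le_of_lt (Set.encard_le_encard ?_) hlt⟩
  rintro y ⟨hy1, hy2, hy3⟩
  by_contra h
  exact wellFounded_lt.not_lt_min _
    (show y ∈ {x | x ∈ A ∧ ε < x ∧ x < β ∧ x ∉ firstN A n ε β} from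
      ⟨hy1, hy2, hy3.trans hmem.2.2.1, h⟩) hy3

/-- hitting, with blocks of length `n`, stationarily often -/
def HitsN (C : K → Set K) : Prop :=
  ∀ A : Set K, (∀ b, ∃ a ∈ A, b < a) → ∀ n : ℕ, ∀ D : Set K, Club D →
    ∃ α ∈ D, LimPt univ α ∧ ∀ b < α, ∃ γ ∈ C α, b < γ ∧
      ∀ x ∈ C α, γ < x → (C α ∩ Ioo γ x).encard < n → x ∈ A

/-- from hitting and diamond to hitting with blocks -/
theorem hitsN_of_hits (hs : Setup K Λ) {C : K → Set K} (hC : Coh C) (hh : Hits C) {E : Set K}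
    (hE : Diam Λ E) : ∃ C' : K → Set K, Coh C' ∧ HitsN C' := by
  classical
  obtain ⟨Z, hZ⟩ := hE
  have hinf : Infinite Λ := Cardinal.infinite_iff.2 hs.unc.le
  let s : ℕ ↪ Λ := Infinite.natEmbedding Λ
  let AA : K → Set K := fun β => {γ | (γ, s 0) ∈ Z β}
  let nn : K → ℕ := fun β => sInf {n | ∃ γ < β, (γ, s (n + 1)) ∈ Z β}
  let F : K → K → Set K := fun ε β => firstN (AA β ∩ Iio β) (nn β) ε β
  have hF : ∀ ε β, (F ε β).Finite := fun ε β => firstN_finite _ _ _ _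
  refine ⟨Ins C F, coh_Ins hC hF, fun A hA n D hD => ?_⟩
  -- the code of the pair `(A, n)`
  let W : Set (K × Λ) := {p | (p.2 = s 0 ∧ p.1 ∈ A) ∨ p.2 = s (n + 1)}
  have hD2 := hs.club_inter2 hD (hs.club_limPt hA)
  obtain ⟨α, hα, h1⟩ := hh {β | (β ∈ D ∧ LimPt A β) ∧
      ∀ γ < β, ∀ i, ((γ, i) ∈ Z β ↔ (γ, i) ∈ W)} (by
    intro b
    obtain ⟨δ, -, ⟨h2, h3⟩, h4⟩ := hZ W _ (hs.club_inter2 hD2 (hs.club_Ioi b))
    exact ⟨δ, ⟨h2, h4⟩, h3⟩)
  have hlD : LimPt D α := by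
    refine ⟨hα.1, fun b hb => ?_⟩
    obtain ⟨β, h2, h3, h4, -⟩ := h1 b hb
    exact ⟨β, h3.1.1, h4, hC.sub _ _ h2⟩
  refine ⟨α, hD.2 α hlD, hα, fun b hb => ?_⟩
  -- first an element of `C α` above `b`, then a good element `β` of `C α` above it
  obtain ⟨c, hc, hbc⟩ := hC.unb α hα b hb
  obtain ⟨β, hβ1, ⟨⟨hβD, hβA⟩, hβZ⟩, hcβ, hβl⟩ := h1 c (hC.sub _ _ hc)
  have hA1 : AA β ∩ Iio β = A ∩ Iio β := by
    ext γ
    constructor
    · rintro ⟨h2, h3⟩
      rcases (hβZ γ h3 _).1 h2 with ⟨-, h4⟩ | h4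
      · exact ⟨h4, h3⟩
      · exact absurd (s.injective h4) (Nat.succ_ne_zero n).symm
    · rintro ⟨h2, h3⟩
      exact ⟨(hβZ γ h3 _).2 (Or.inl ⟨rfl, h2⟩), h3⟩
  have hn1 : nn β = n := by
    have : {m | ∃ γ < β, (γ, s (m + 1)) ∈ Z β} = {n} := by
      ext m
      constructor
      · rintro ⟨γ, h2, h3⟩
        rcases (hβZ γ h2 _).1 h3 with ⟨h4, -⟩ | h4
        · exact absurd (s.injective h4) (Nat.succ_ne_zero m)
        · exact Nat.succ_injective (s.injective h4)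
      · rintro rfl
        obtain ⟨γ, h2⟩ := hβA.1
        exact ⟨γ, h2, (hβZ γ h2 _).2 (Or.inr rfl)⟩
    show sInf {m | ∃ γ < β, (γ, s (m + 1)) ∈ Z β} = n
    rw [this, csInf_singleton]
  -- the predecessor of `β` in `C α`
  have hpred : ∃ ε ∈ C α, ε < β ∧ c ≤ ε ∧ ∀ x ∈ C α, x < β → x ≤ ε := by
    unfold LimPt at hβl
    push Not at hβl
    obtain ⟨b1, hb1, hb2⟩ := hβl ⟨c, hcβ⟩
    -- the least upper bound of `C α ∩ β`
    have hne : {x | ∀ y ∈ C α, y < β → y ≤ x}.Nonempty :=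
      ⟨b1, fun y hy hyβ => by
        by_contra h
        exact absurd (hb2 y hy (not_le.1 h)) (not_le.2 hyβ)⟩
    set ε := wellFounded_lt.min _ hne with hε
    have hεm : ∀ y ∈ C α, y < β → y ≤ ε := wellFounded_lt.min_mem _ hne
    have hcε : c ≤ ε := hεm c hc hcβ
    have hεb1 : ε ≤ b1 := by
      by_contra h
      refine wellFounded_lt.not_lt_min _ (show b1 ∈ {x | ∀ y ∈ C α, y < β → y ≤ x} from ?_)
        (not_le.1 h)
      intro y hy hyβ
      by_contra h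
      exact absurd (hb2 y hy (not_le.1 h)) (not_le.2 hyβ)
    have hεβ : ε < β := hεb1.trans_lt hb1
    refine ⟨ε, ?_, hεβ, hcε, hεm⟩
    by_contra hnot
    have hlim : LimPt (C α) ε := by
      refine ⟨⟨c, lt_of_le_of_ne hcε (fun h => hnot (h ▸ hc))⟩, fun b' hb' => ?_⟩
      by_contra hno
      push Not at hno
      refine wellFounded_lt.not_lt_min _ (show b' ∈ {x | ∀ y ∈ C α, y < β → y ≤ x} from ?_) hb'
      intro y hy hyβ
      by_contra h
      have h2 := hno y hy (not_le.1 h)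
      have h3 := hεm y hy hyβ
      exact hnot ((le_antisymm h3 h2) ▸ hy)
    exact hnot (hC.closed α ε (hεβ.trans (hC.sub _ _ hβ1)) hlim)
  obtain ⟨ε, hε1, hε2, hε3, hε4⟩ := hpred
  refine ⟨ε, Or.inl hε1, hbc.trans_le hε3, fun x hx hεx hcard => ?_⟩
  have hFsub : F ε β ⊆ A := by
    intro y hy
    have h2 := hy.1
    rw [hA1] at h2
    exact h2.1
  have hFC : ∀ y ∈ F ε β, y ∈ Ins C F α := by
    intro y hy
    exact Or.inr ⟨ε, hε1, β, hβ1, hy.2.1, hy.2.2.1, hε4, hy⟩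
  have hFcard : (n : ℕ∞) ≤ (F ε β).encard := by
    have hlim : LimPt (AA β ∩ Iio β) β := by
      rw [hA1]
      refine ⟨hβA.1, fun b' hb' => ?_⟩
      obtain ⟨c', h2, h3, h4⟩ := hβA.2 b' hb'
      exact ⟨c', ⟨h2, h4⟩, h3, h4⟩
    have := firstN_card (n := n) hlim hε2
    show (n : ℕ∞) ≤ (firstN (AA β ∩ Iio β) (nn β) ε β).encard
    rw [hn1]
    exact this
  by_cases hxβ : x < β
  · rcases hx with hx | ⟨ε', hε', β', hβ', h2, h3, h4, h5⟩
    · exact absurd (hε4 x hx hxβ) (not_le.2 hεx)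
    · have e1 : ε' = ε := le_antisymm (hε4 ε' hε' (h2.trans hxβ))
        (h4 ε hε1 (hεx.trans h3))
      have e2 : β' = β := by
        rcases lt_trichotomy β' β with h | h | h
        · exact absurd (hε4 β' hβ' h) (not_le.2 (hεx.trans h3))
        · exact h
        · exact absurd (h4 β hβ1 h) (not_le.2 (h2.trans hxβ))
      rw [e1, e2] at h5
      exact hFsub h5
  · exfalso
    have h2 : F ε β ⊆ Ins C F α ∩ Ioo ε x := by
      intro y hy
      exact ⟨hFC y hy, hy.2.1, hy.2.2.1.trans_le (not_lt.1 hxβ)⟩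
    exact absurd (hFcard.trans (Set.encard_le_encard h2)) (not_le.2 hcard)

/-- from an avoided set of points of cofinality `ω` with diamond to hitting -/
theorem hitsN_of_avoids (hs : Setup K Λ) {C : K → Set K} (hC : Coh C) {S : Set K}
    (hav : Avoids C S) (hS : Diam Λ S) (hcof : ∀ δ ∈ S, CofOmega δ) :
    ∃ C' : K → Set K, Coh C' ∧ HitsN C' := by
  classical
  obtain ⟨Z, hZ⟩ := hS
  obtain ⟨i0⟩ := hs.nonemptyΛ
  -- cofinal subsets of type `ω`
  have hw : ∀ δ, ∃ w : Set K, (δ ∈ S → LimPt {γ | (γ, i0) ∈ Z δ} δ →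
      (∀ x ∈ w, (x, i0) ∈ Z δ ∧ x < δ) ∧ (∀ b < δ, ∃ x ∈ w, b < x) ∧
        ∀ β < δ, ¬ LimPt w β) := by
    intro δ
    by_cases h : δ ∈ S ∧ LimPt {γ | (γ, i0) ∈ Z δ} δ
    · obtain ⟨s, hs1, hs2, hs3⟩ := hcof δ h.1
      have h1 : ∀ n, ∃ x, (x, i0) ∈ Z δ ∧ s n < x ∧ x < δ := fun n => h.2.2 (s n) (hs2 n)
      choose x hx1 hx2 hx3 using h1
      refine ⟨range x, fun _ _ => ⟨?_, ?_, ?_⟩⟩
      · rintro y ⟨n, rfl⟩
        exact ⟨hx1 n, hx3 n⟩
      · intro b hb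
        obtain ⟨n, hn⟩ := hs3 b hb
        exact ⟨x n, ⟨n, rfl⟩, hn.trans (hx2 n)⟩
      · intro β hβ hl
        obtain ⟨n, hn⟩ := hs3 β hβ
        -- only `x 0, ..., x (n - 1)` can be below `β`
        have hfin : (range x ∩ Iio β).Finite := by
          refine ((Finset.range n).finite_toSet.image x).subset ?_
          rintro y ⟨⟨m, rfl⟩, hm⟩
          refine ⟨m, ?_, rfl⟩
          rw [Finset.mem_coe, Finset.mem_range]
          by_contra hmn
          have h2 := hs1.monotone (not_lt.1 hmn)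
          exact absurd ((hn.trans_le h2).trans (hx2 m)) (not_lt.2 (le_of_lt hm))
        obtain ⟨b1, hb1⟩ := hl.1
        obtain ⟨y0, hy0, -, hy0β⟩ := hl.2 b1 hb1
        obtain ⟨m, hm1, hm2⟩ := hfin.exists_maximal ⟨y0, hy0, hy0β⟩
        obtain ⟨y, hy, h3, h4⟩ := hl.2 m hm1.2
        exact absurd h3 (not_lt.2 (hm2 ⟨hy, h4⟩ h3.le))
    · exact ⟨∅, fun h1 h2 => absurd ⟨h1, h2⟩ h⟩
  choose w hw using hw
  let Q : K → Prop := fun δ => δ ∈ S ∧ LimPt {γ | (γ, i0) ∈ Z δ} δ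
  have hQ : ∀ δ, Q δ → (∀ x ∈ w δ, (x, i0) ∈ Z δ ∧ x < δ) ∧ (∀ b < δ, ∃ x ∈ w δ, b < x) ∧
        ∀ β < δ, ¬ LimPt (w δ) β := fun δ h => hw δ h.1 h.2
  refine ⟨fun α => if Q α then w α else C α, ⟨?_, ?_, ?_, ?_⟩, ?_⟩
  · intro α c hc
    by_cases h : Q α
    · rw [if_pos h] at hc
      exact ((hQ α h).1 c hc).2
    · rw [if_neg h] at hc
      exact hC.sub α c hc
  · intro α β hβ hl
    by_cases h : Q α
    · rw [if_pos h] at hl
      exact absurd hl ((hQ α h).2.2 β hβ)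
    · rw [if_neg h] at hl ⊢
      exact hC.closed α β hβ hl
  · intro α hα b hb
    by_cases h : Q α
    · rw [if_pos h]
      exact (hQ α h).2.1 b hb
    · rw [if_neg h]
      exact hC.unb α hα b hb
  · intro α β hβ hl c
    by_cases h : Q α
    · rw [if_pos h] at hl
      exact absurd hl ((hQ α h).2.2 β hβ)
    · rw [if_neg h] at hl
      have h2 : ¬ Q β := fun hq => hav α β hβ hl hq.1
      rw [if_neg h, if_neg h2]
      exact hC.coh α β hβ hl c
  · intro A hA n D hD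
    obtain ⟨δ, h1, ⟨h2, h3⟩, h4⟩ := hZ {p | p.1 ∈ A} _ (hs.club_inter2 hD (hs.club_limPt hA))
    have hl : LimPt {γ | (γ, i0) ∈ Z δ} δ := by
      refine ⟨h3.1, fun b hb => ?_⟩
      obtain ⟨c, h5, h6, h7⟩ := h3.2 b hb
      exact ⟨c, (h4 c h7 i0).2 h5, h6, h7⟩
    have hq : Q δ := ⟨h1, hl⟩
    refine ⟨δ, h2, h3.mono (subset_univ _), fun b hb => ?_⟩
    beta_reduce
    rw [if_pos hq]
    obtain ⟨γ, hγ, hbγ⟩ := (hQ δ hq).2.1 b hb
    refine ⟨γ, hγ, hbγ, fun x hx _ _ => ?_⟩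
    obtain ⟨h5, h6⟩ := (hQ δ hq).1 x hx
    exact (h4 x h6 i0).1 h5

/-- the main theorem on the proxy principle, in abstract form -/
theorem proxy_abstract (hs : Setup K Λ) [Nonempty K] (X : K → Set (K × Λ × Λ × Λ))
    (hX : ∀ a, ∀ Y : Set (K × Λ × Λ × Λ), (∀ p ∈ Y, p.1 < a) → ∃ b, X b = Y)
    {C : K → Set K} (hC : Coh C) (hnt : NoThread C) :
    ∃ C' : K → Set K, Coh C' ∧ HitsN C' := by
  have hE := stat_good hs
  have hZE := shelah hs X hX _ hE (fun δ hδ => hδ.2) (fun δ hδ => hδ.1)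
  rcases dichotomy2 hs X hX hC hnt _ (fun δ hδ => hδ.2) (fun δ hδ => hδ.1) hE hZE with
    ⟨C', hC', hh⟩ | ⟨C', S, hC', hav, hS, hcof⟩
  · exact hitsN_of_hits hs hC' hh hZE
  · exact hitsN_of_avoids hs hC' hav hS hcof

end Pool.Agent.Run7.h653
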