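import Pool.Agent.Run7.h653.Bridge
import Pool.Agent.Run7.h653.Proxy
import Pool.Agent.Run7.h653.Defs2

/-!
# From the abstract theorem on the proxy principle to ordinals
-/

set_option autoImplicit false
set_option linter.unusedSectionVars false

namespace Pool.Agent.Run7.h653

open Cardinal Ordinal Set Order

theorem isAccumulation_isSuccLimit {X : Set Ordinal.{0}} {α : Ordinal.{0}}
    (h : IsAccumulation X α) : IsSuccLimit α := by
  refine ⟨fun hmin => absurd h.1 (not_lt.2 (hmin (zero_le (a := α)))), fun b hb => ?_⟩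
  obtain ⟨δ, -, h1, h2⟩ := h.2 b hb.lt
  exact hb.2 h1 h2

theorem isSuccLimit_accumulation {α : Ordinal.{0}} (h : IsSuccLimit α) :
    IsAccumulation univ α := by
  refine ⟨h.bot_lt, fun γ hγ => ⟨succ γ, mem_univ _, lt_succ γ, h.succ_lt hγ⟩⟩

theorem limPt_univ_iff (lam : Cardinal.{0}) (a : KK lam) :
    LimPt univ a ↔ IsSuccLimit (toO lam a) := by
  have h := limPt_iff lam univ a
  have h1 : {c : KK lam | toO lam c ∈ (Set.univ : Set Ordinal.{0})} = Set.univ := by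
    ext c
    exact ⟨fun _ => mem_univ _, fun _ => mem_univ (toO lam c)⟩
  rw [h1] at h
  rw [h]
  exact ⟨isAccumulation_isSuccLimit, isSuccLimit_accumulation⟩

theorem exists_coh2 (lam : Cardinal.{0}) (hsq : SquareSeq (Order.succ lam)) :
    ∃ C : KK lam → Set (KK lam), Coh C ∧ NoThread C := by
  classical
  obtain ⟨C, hclub, hcoh, hnt⟩ := hsq
  refine ⟨fun a => {c | IsSuccLimit (toO lam a) ∧ toO lam c ∈ C (toO lam a)}, ?_, ?_⟩
  · have hl : ∀ {α β}, LimPt {c | IsSuccLimit (toO lam α) ∧ toO lam c ∈ C (toO lam α)} β →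
        IsSuccLimit (toO lam α) ∧ IsAccumulation (C (toO lam α)) (toO lam β) := by
      intro α β h
      obtain ⟨b, hb⟩ := h.1
      obtain ⟨c, hc, -, -⟩ := h.2 b hb
      exact ⟨hc.1, (limPt_iff lam _ β).1 (h.mono (fun c hc => hc.2))⟩
    refine ⟨?_, ?_, ?_, ?_⟩
    · intro α c hc
      exact (toO_lt_iff lam).1 ((hclub _ (toO_lt lam α) hc.1).1 _ hc.2)
    · intro α β hβ h
      obtain ⟨h1, h2⟩ := hl h
      exact ⟨h1, (hclub _ (toO_lt lam α) h1).2.1 _ ((toO_lt_iff lam).2 hβ) h2⟩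
    · intro α hα b hb
      obtain ⟨c, -, hbc, hc⟩ := hα.2 b hb
      have h1 := (limPt_univ_iff lam α).1 hα
      obtain ⟨δ, hδ, h2⟩ := (hclub _ (toO_lt lam α) h1).2.2 _ ((toO_lt_iff lam).2 hc)
      obtain ⟨d, rfl⟩ := toO_surj lam
        (((hclub _ (toO_lt lam α) h1).1 _ hδ).trans (toO_lt lam α))
      exact ⟨d, ⟨h1, hδ⟩, hbc.trans_le ((toO_le_iff lam).1 h2)⟩
    · intro α β hβ h c
      obtain ⟨h1, h2⟩ := hl h
      have h3 := hcoh _ (toO_lt lam α) h1 _ ((toO_lt_iff lam).2 hβ) h2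
      show IsSuccLimit (toO lam β) ∧ toO lam c ∈ C (toO lam β) ↔ _
      rw [h3]
      constructor
      · exact fun h => ⟨⟨h1, h.2.1⟩, (toO_lt_iff lam).1 h.2.2⟩
      · exact fun h => ⟨isAccumulation_isSuccLimit h2, h.1.2, (toO_lt_iff lam).2 h.2⟩
  · rintro ⟨D, hD, hth⟩
    apply hnt
    have hiff : ∀ b, LimPt D b ↔ IsAccumulation (toO lam '' D) (toO lam b) := by
      intro b
      rw [← limPt_iff]
      have h1 : {c : KK lam | toO lam c ∈ toO lam '' D} = D := by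
        ext c
        constructor
        · rintro ⟨d, hd, h⟩
          rwa [← toO_inj lam h]
        · exact fun h => ⟨c, h, rfl⟩
      rw [h1]
    refine ⟨toO lam '' D, ⟨?_, ?_, ?_⟩, ?_⟩
    · rintro _ ⟨d, -, rfl⟩
      exact toO_lt lam d
    · intro β hβ h
      obtain ⟨b, rfl⟩ := toO_surj lam hβ
      exact ⟨b, hD.2 b ((hiff b).2 h), rfl⟩
    · intro γ hγ
      obtain ⟨g, rfl⟩ := toO_surj lam hγ
      obtain ⟨c, hc, hgc⟩ := hD.1 g
      exact ⟨_, ⟨c, hc, rfl⟩, ((toO_lt_iff lam).2 hgc).le⟩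
    · intro α hα h
      obtain ⟨a, rfl⟩ := toO_surj lam hα
      have h1 := hth a ((hiff a).2 h)
      have hlim : IsSuccLimit (toO lam a) := isAccumulation_isSuccLimit h
      ext x
      constructor
      · rintro ⟨⟨d, hd, rfl⟩, h2⟩
        exact ((h1 d).2 ⟨hd, (toO_lt_iff lam).1 h2⟩).2
      · intro hx
        have hxa := (hclub _ (toO_lt lam a) hlim).1 _ hx
        obtain ⟨c, rfl⟩ := toO_surj lam (hxa.trans (toO_lt lam a))
        obtain ⟨h3, h4⟩ := (h1 c).1 ⟨hlim, hx⟩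
        exact ⟨⟨c, h3, rfl⟩, (toO_lt_iff lam).2 h4⟩

/-- `♢(λ⁺)` implies `2 ^ λ = λ⁺` -/
theorem ch_of_diamond (lam : Cardinal.{0}) (hlam : ℵ₀ ≤ lam) (hd : DiamondSeq (Order.succ lam)) :
    (2 : Cardinal.{0}) ^ lam = Order.succ lam := by
  classical
  apply le_antisymm _ (Order.succ_le_of_lt (cantor lam))
  obtain ⟨Z, hZ, hZ2⟩ := hd
  have hcK : #(KK lam) = Order.succ lam := mk_ord_toType _
  have hcL : #(LL lam) = lam := mk_ord_toType _
  let t : LL lam → Ordinal.{0} := fun i => (ToType.mk.symm i).1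
  have ht : ∀ i, t i < lam.ord := fun i => (ToType.mk.symm i).2
  have hti : Function.Injective t := by
    intro i j h
    have h1 : ToType.mk.symm i = ToType.mk.symm j := Subtype.ext h
    exact ToType.mk.symm.injective h1
  have hlt : lam.ord < (Order.succ lam).ord := by
    rw [Cardinal.ord_lt_ord]
    exact Order.lt_succ lam
  have hlim : IsSuccLimit (Order.succ lam).ord :=
    isSuccLimit_ord (hlam.trans (Order.le_succ _))
  have hclub : IsClubIn {α | lam.ord ≤ α ∧ α < (Order.succ lam).ord} (Order.succ lam).ord := by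
    refine ⟨fun γ h => h.2, fun β hβ h => ⟨?_, hβ⟩, fun γ hγ => ?_⟩
    · obtain ⟨δ, hδ, -, h1⟩ := h.2 0 h.1
      exact hδ.1.trans h1.le
    · exact ⟨max γ lam.ord, ⟨le_max_right _ _, max_lt hγ hlt⟩, le_max_left _ _⟩
  have h1 : ∀ X : Set (LL lam), ∃ a : KK lam, ∀ i, i ∈ X ↔ t i ∈ Z (toO lam a) := by
    intro X
    obtain ⟨α, hα, h2⟩ := hZ2 (t '' X) (by
      rintro _ ⟨i, -, rfl⟩
      exact (ht i).trans hlt) _ hclub
    obtain ⟨a, rfl⟩ := toO_surj lam hα.2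
    refine ⟨a, fun i => ?_⟩
    rw [← h2]
    constructor
    · exact fun hi => ⟨⟨i, hi, rfl⟩, (ht i).trans_le hα.1⟩
    · rintro ⟨⟨j, hj, h3⟩, -⟩
      rwa [← hti h3]
  choose a ha using h1
  have hinj : Function.Injective a := by
    intro X Y h
    ext i
    rw [ha X, ha Y, h]
  have h2 := mk_le_of_injective hinj
  rwa [mk_set, hcL, hcK] at h2

theorem club_of (lam : Cardinal.{0}) {D : Set Ordinal.{0}}
    (hD : IsClubIn D (Order.succ lam).ord) (hlam : ℵ₀ ≤ lam) :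
    Club {d : KK lam | toO lam d ∈ D} := by
  have hlim : IsSuccLimit (Order.succ lam).ord :=
    isSuccLimit_ord (hlam.trans (Order.le_succ _))
  constructor
  · intro b
    obtain ⟨δ, hδ, h1⟩ := hD.2.2 _ (hlim.succ_lt (toO_lt lam b))
    obtain ⟨d, rfl⟩ := toO_surj lam (hD.1 _ hδ)
    exact ⟨d, hδ, (toO_lt_iff lam).1 ((lt_succ _).trans_le h1)⟩
  · intro a ha
    exact hD.2.1 _ (toO_lt lam a) ((limPt_iff lam D a).1 ha)

theorem proxy_of_hitsN (lam : Cardinal.{0}) (hlam : ℵ₀ ≤ lam) {C : KK lam → Set (KK lam)}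
    (hC : Coh C) (hh : HitsN C) (μ : Cardinal.{0}) (hμ : 2 ≤ μ) :
    ProxyPrinciple (Order.succ lam) μ := by
  classical
  have hlim : IsSuccLimit (Order.succ lam).ord :=
    isSuccLimit_ord (hlam.trans (Order.le_succ _))
  have hinj : Function.Injective (toO lam) := fun a b h => toO_inj lam h
  have hacc : ∀ (X : Set (KK lam)) (b : KK lam), IsAccumulation (toO lam '' X) (toO lam b) ↔
      LimPt X b := by
    intro X b
    rw [← limPt_iff]
    have h1 : {c : KK lam | toO lam c ∈ toO lam '' X} = X := by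
      ext c
      constructor
      · rintro ⟨d, hd, h⟩
        rwa [← toO_inj lam h]
      · exact fun h => ⟨c, h, rfl⟩
    rw [h1]
  refine ⟨fun α => {Y | ∃ a, toO lam a = α ∧ Y = toO lam '' C a}, ?_, ?_, ?_⟩
  · intro α hα hαl
    obtain ⟨a, rfl⟩ := toO_surj lam hα
    refine ⟨⟨_, a, rfl, rfl⟩, ?_, ?_⟩
    · have h1 : {Y | ∃ a', toO lam a' = toO lam a ∧ Y = toO lam '' C a'} =
          {toO lam '' C a} := by
        ext Y
        constructor
        · rintro ⟨a', h, rfl⟩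
          rw [toO_inj lam h]
          rfl
        · rintro rfl
          exact ⟨a, rfl, rfl⟩
      beta_reduce
      rw [h1, mk_singleton]
      have h2 : (1 : Cardinal.{0}) < μ := lt_of_lt_of_le (by norm_num) hμ
      have h3 := Cardinal.lift_lt.{0, 1}.2 h2
      rwa [Cardinal.lift_one] at h3
    · rintro Y ⟨a', h, rfl⟩
      rw [toO_inj lam h]
      refine ⟨?_, ?_, ?_⟩
      · rintro _ ⟨c, hc, rfl⟩
        exact (toO_lt_iff lam).2 (hC.sub a c hc)
      · intro β hβ h1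
        obtain ⟨b, rfl⟩ := toO_surj lam (hβ.trans (toO_lt lam a))
        exact ⟨b, hC.closed a b ((toO_lt_iff lam).1 hβ) ((hacc _ b).1 h1), rfl⟩
      · intro γ hγ
        obtain ⟨g, rfl⟩ := toO_surj lam (hγ.trans (toO_lt lam a))
        obtain ⟨c, hc, h1⟩ := hC.unb a ((limPt_univ_iff lam a).2 hαl) g
          ((toO_lt_iff lam).1 hγ)
        exact ⟨_, ⟨c, hc, rfl⟩, ((toO_lt_iff lam).2 h1).le⟩
  · rintro α hα hαl Y ⟨a, rfl, rfl⟩ β hβ h1
    obtain ⟨b, rfl⟩ := toO_surj lam (hβ.trans (toO_lt lam a))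
    have hl := (hacc _ b).1 h1
    have hco := hC.coh a b ((toO_lt_iff lam).1 hβ) hl
    refine ⟨_, ⟨b, rfl, rfl⟩, ?_⟩
    ext x
    constructor
    · rintro ⟨c, hc, rfl⟩
      obtain ⟨h2, h3⟩ := (hco c).1 hc
      exact ⟨⟨c, h2, rfl⟩, (toO_lt_iff lam).2 h3⟩
    · rintro ⟨⟨c, hc, rfl⟩, h2⟩
      exact ⟨c, (hco c).2 ⟨hc, (toO_lt_iff lam).1 h2⟩, rfl⟩
  · intro B hB hBu n D hD
    obtain ⟨α, hα, hαl, h1⟩ := hh {b | toO lam b ∈ B} (by
      intro b
      obtain ⟨β, hβ, h2⟩ := hBu _ (hlim.succ_lt (toO_lt lam b))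
      obtain ⟨c, rfl⟩ := toO_surj lam (hB hβ)
      exact ⟨c, hβ, (toO_lt_iff lam).1 ((lt_succ _).trans_le h2)⟩) n _ (club_of lam hD hlam)
    refine ⟨toO lam α, hα, (limPt_univ_iff lam α).1 hαl, ?_⟩
    rintro Y ⟨a, ha, rfl⟩ η hη
    rw [toO_inj lam ha]
    obtain ⟨e, rfl⟩ := toO_surj lam (hη.trans (toO_lt lam α))
    obtain ⟨g, hg, h2, h3⟩ := h1 e ((toO_lt_iff lam).1 hη)
    refine ⟨_, ⟨g, hg, rfl⟩, ((toO_lt_iff lam).2 h2).le, ?_⟩
    rintro _ ⟨x, hx, rfl⟩ h4 h5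
    refine h3 x hx ((toO_lt_iff lam).1 h4) ?_
    refine lt_of_le_of_lt ?_ h5
    rw [← hinj.encard_image]
    apply Set.encard_le_encard
    rintro _ ⟨y, ⟨hy1, hy2, hy3⟩, rfl⟩
    exact ⟨⟨y, hy1, rfl⟩, (toO_lt_iff lam).2 hy2, (toO_lt_iff lam).2 hy3⟩

theorem proxy_main (lam : Cardinal.{0}) (hlam : ℵ₀ < lam) (hsq : SquareSeq (Order.succ lam))
    (hd : DiamondSeq (Order.succ lam)) (μ : Cardinal.{0}) (hμ : 2 ≤ μ) :
    ProxyPrinciple (Order.succ lam) μ := by
  have hcK : #(KK lam) = Order.succ lam := mk_ord_toType _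
  have hs := setup_of lam hlam
  have hne : Nonempty (KK lam) := by
    rw [← mk_ne_zero_iff, hcK]
    exact (Order.bot_lt_succ _).ne'
  obtain ⟨X, hX⟩ := exists_enum lam hlam (ch_of_diamond lam hlam.le hd)
  obtain ⟨C, hC, hnt⟩ := exists_coh2 lam hsq
  obtain ⟨C', hC', hh⟩ := proxy_abstract hs X hX hC hnt
  exact proxy_of_hitsN lam hlam.le hC' hh μ hμ

end Pool.Agent.Run7.h653
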