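import Mathlib

/-!
# The principle `□(κ)` and `κ`-Souslin trees

The definitions follow the problem file `MP_bdcdea_lc`. Ordinals and cardinals are those of
Mathlib, of the lowest universe; `κ.ord` is the initial ordinal of the cardinal `κ`.
-/

set_option autoImplicit false

namespace Pool.Agent.Run7.h653

open Cardinal Ordinal

/-- `β` is an accumulation point of the set `C` of ordinals: `β` is not `0` and
`sup (C ∩ β) = β`. -/
def IsAccumulation (C : Set Ordinal.{0}) (β : Ordinal.{0}) : Prop :=
  0 < β ∧ ∀ γ < β, ∃ δ ∈ C, γ < δ ∧ δ < β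

/-- `C` is a closed unbounded subset of the ordinal `α`. -/
def IsClubIn (C : Set Ordinal.{0}) (α : Ordinal.{0}) : Prop :=
  (∀ γ ∈ C, γ < α) ∧ (∀ β < α, IsAccumulation C β → β ∈ C) ∧ ∀ γ < α, ∃ δ ∈ C, γ ≤ δ

/-- The principle `□(κ)`: there is a sequence `C α`, `α < κ`, such that
1. every `C α` is a closed unbounded subset of `α`, and `C (β + 1) = {β}`;
2. if `β < α` is an accumulation point of `C α`, then `C β = C α ∩ β`;
3. there is no closed unbounded `D ⊆ κ` with `D ∩ α = C α` for all accumulation points `α < κ`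
   of `D`. -/
def Square (κ : Cardinal.{0}) : Prop :=
  ∃ C : Ordinal.{0} → Set Ordinal.{0},
    (∀ α < κ.ord, IsClubIn (C α) α) ∧
    (∀ β, β + 1 < κ.ord → C (β + 1) = {β}) ∧
    (∀ α < κ.ord, ∀ β < α, IsAccumulation (C α) β → C β = C α ∩ Set.Iio β) ∧
    ¬ ∃ D : Set Ordinal.{0}, IsClubIn D κ.ord ∧
      ∀ α < κ.ord, IsAccumulation D α → D ∩ Set.Iio α = C α

/-- `T` is a `κ`-Souslin tree: the predecessors of every node are well-ordered (isomorphic to the
ordinals below some ordinal `α`, the height of the node), the heights of the nodes are exactly the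
ordinals below `κ`, and all chains and all antichains have cardinality less than `κ`. -/
structure IsSouslinTree (κ : Cardinal.{0}) (T : Type) [PartialOrder T] : Prop where
  tree : ∀ x : T, ∃ α : Ordinal.{0}, Nonempty (Set.Iio x ≃o Set.Iio α)
  height : ∀ α : Ordinal.{0}, (∃ x : T, Nonempty (Set.Iio x ≃o Set.Iio α)) ↔ α < κ.ord
  chain : ∀ B : Set T, IsChain (· ≤ ·) B → #B < κ
  antichain : ∀ A : Set T, IsAntichain (· ≤ ·) A → #A < κ

end Pool.Agent.Run7.h653
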