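import Pool.Agent.Run7.h653.Main
import Pool.Agent.Run7.h653.Defs

/-!
# From ordinals to well-ordered types
-/

set_option autoImplicit false
set_option linter.unusedSectionVars false

namespace Pool.Agent.Run7.h653

open Cardinal Ordinal Set

section Types

variable (lam : Cardinal.{0})

/-- the well-ordered set of type `λ` -/
abbrev LL : Type := lam.ord.ToType

/-- the well-ordered set of type `λ⁺` -/
abbrev KK : Type := (Order.succ lam).ord.ToType

/-- the ordinal of an element of `KK` -/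
noncomputable def toO (a : KK lam) : Ordinal.{0} := (ToType.mk.symm a).1

theorem toO_lt (a : KK lam) : toO lam a < (Order.succ lam).ord := (ToType.mk.symm a).2

theorem toO_lt_iff {a b : KK lam} : toO lam a < toO lam b ↔ a < b := by
  unfold toO
  rw [Subtype.coe_lt_coe]
  exact (ToType.mk (o := (Order.succ lam).ord)).symm.lt_iff_lt

theorem toO_le_iff {a b : KK lam} : toO lam a ≤ toO lam b ↔ a ≤ b := by
  rw [← not_lt, toO_lt_iff, not_lt]

theorem toO_inj {a b : KK lam} (h : toO lam a = toO lam b) : a = b :=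
  le_antisymm ((toO_le_iff lam).1 h.le) ((toO_le_iff lam).1 h.ge)

theorem toO_surj {o : Ordinal.{0}} (h : o < (Order.succ lam).ord) : ∃ a, toO lam a = o :=
  ⟨ToType.mk ⟨o, h⟩, by unfold toO; simp⟩

end Types

theorem setup_of (lam : Cardinal.{0}) (hlam : ℵ₀ < lam) : Setup (KK lam) (LL lam) := by
  have hcK : #(KK lam) = Order.succ lam := mk_ord_toType _
  have hcL : #(LL lam) = lam := mk_ord_toType _
  have hIic : ∀ a : KK lam, #(Iic a) ≤ lam := by
    intro a
    have h1 : #(Iio a) < #(KK lam) := mk_Iio_lt a (by simp)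
    rw [hcK] at h1
    have h2 := Order.le_of_lt_succ h1
    rw [← Iio_insert]
    refine mk_insert_le.trans ?_
    exact add_le_of_le hlam.le h2 (one_lt_aleph0.le.trans hlam.le)
  refine ⟨?_, ?_, ?_, ?_⟩
  · intro a
    have h1 : #(Iic a) ≤ #(LL lam) := by
      rw [hcL]; exact hIic a
    obtain ⟨e⟩ := (Cardinal.le_def _ _).1 h1
    have : Nonempty (Iic a) := ⟨⟨a, mem_Iic.2 le_rfl⟩⟩
    refine ⟨fun i => (Function.invFun e i : Iic a).1, fun b hb => ⟨e ⟨b, hb⟩, ?_⟩⟩
    dsimp only
    rw [Function.leftInverse_invFun e.injective]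
  · intro f
    by_contra hcon
    push Not at hcon
    have h1 : (univ : Set (KK lam)) ⊆ ⋃ i, Iic (f i) := by
      intro x _
      obtain ⟨i, hi⟩ := hcon x
      exact mem_iUnion.2 ⟨i, hi⟩
    have h2 := (mk_le_mk_of_subset h1).trans (mk_iUnion_le _)
    rw [mk_univ, hcK, hcL] at h2
    have h3 : Order.succ lam ≤ lam := by
      refine h2.trans ?_
      refine (mul_le_mul' le_rfl (ciSup_le' fun i => hIic (f i))).trans ?_
      exact (mul_eq_self hlam.le).le
    exact absurd (Order.lt_succ lam) (not_lt.2 h3)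
  · intro i
    exact mk_Iio_lt i (by simp)
  · rw [hcL]; exact hlam

theorem exists_enum (lam : Cardinal.{0}) (hlam : ℵ₀ < lam)
    (hch : (2 : Cardinal.{0}) ^ lam = Order.succ lam) :
    ∃ X : KK lam → Set (KK lam × LL lam × LL lam × LL lam), ∀ a,
      ∀ Y : Set (KK lam × LL lam × LL lam × LL lam), (∀ p ∈ Y, p.1 < a) → ∃ b, X b = Y := by
  have hcK : #(KK lam) = Order.succ lam := mk_ord_toType _
  have hcL : #(LL lam) = lam := mk_ord_toType _
  have hs := setup_of lam hlam
  let M : Type := KK lam × LL lam × LL lam × LL lam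
  let W : Set (Set M) := ⋃ a : KK lam, 𝒫 {p : M | p.1 < a}
  have h1 : ∀ a : KK lam, #{p : M | p.1 < a} ≤ lam := by
    intro a
    have h2 : {p : M | p.1 < a} = (Iio a) ×ˢ (univ : Set (LL lam × LL lam × LL lam)) := by
      ext p
      exact ⟨fun h => ⟨h, mem_univ _⟩, fun h => h.1⟩
    rw [h2, mk_setProd]
    simp only [Cardinal.lift_id, mk_univ, mk_prod, hcL]
    have h3 := small_Iio hs a
    rw [hcL] at h3
    rw [mul_eq_self hlam.le, mul_eq_self hlam.le]
    exact (mul_le_mul' h3 le_rfl).trans (mul_eq_self hlam.le).le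
  have hW : #W ≤ #(KK lam) := by
    refine (mk_iUnion_le _).trans ?_
    rw [hcK]
    have h4 : (⨆ a : KK lam, #(𝒫 {p : M | p.1 < a})) ≤ Order.succ lam := by
      refine ciSup_le' fun a => ?_
      rw [mk_powerset]
      exact (power_le_power_left two_ne_zero (h1 a)).trans hch.le
    refine (mul_le_mul' le_rfl h4).trans ?_
    exact (mul_eq_self (hlam.le.trans (Order.le_succ _))).le
  obtain ⟨e⟩ := (Cardinal.le_def _ _).1 hW
  have hne : Nonempty (KK lam) := by
    rw [← mk_ne_zero_iff, hcK]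
    exact (Order.bot_lt_succ _).ne'
  obtain ⟨a0⟩ := hne
  have : Nonempty W := ⟨⟨∅, mem_iUnion.2 ⟨a0, empty_subset _⟩⟩⟩
  refine ⟨fun b => (Function.invFun e b : W).1, fun a Y hY => ?_⟩
  have hYW : Y ∈ W := mem_iUnion.2 ⟨a, fun p hp => hY p hp⟩
  refine ⟨e ⟨Y, hYW⟩, ?_⟩
  dsimp only
  rw [Function.leftInverse_invFun e.injective]

/-- the sequence on the well-ordered set -/
theorem limPt_iff (lam : Cardinal.{0}) (C : Set Ordinal.{0}) (b : KK lam) :
    LimPt {c : KK lam | toO lam c ∈ C} b ↔ IsAccumulation C (toO lam b) := by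
  constructor
  · rintro ⟨⟨c, hc⟩, h⟩
    refine ⟨lt_of_le_of_lt (zero_le) ((toO_lt_iff lam).2 hc), fun γ hγ => ?_⟩
    obtain ⟨g, rfl⟩ := toO_surj lam (hγ.trans (toO_lt lam b))
    obtain ⟨d, hd, h1, h2⟩ := h g ((toO_lt_iff lam).1 hγ)
    exact ⟨toO lam d, hd, (toO_lt_iff lam).2 h1, (toO_lt_iff lam).2 h2⟩
  · rintro ⟨h0, h⟩
    obtain ⟨z, hz⟩ := toO_surj lam (h0.trans (toO_lt lam b))
    refine ⟨⟨z, ?_⟩, fun c hc => ?_⟩
    · rw [← toO_lt_iff, hz]; exact h0
    · obtain ⟨δ, hδ, h1, h2⟩ := h (toO lam c) ((toO_lt_iff lam).2 hc)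
      obtain ⟨d, rfl⟩ := toO_surj lam (h2.trans (toO_lt lam b))
      exact ⟨d, hδ, (toO_lt_iff lam).1 h1, (toO_lt_iff lam).1 h2⟩

theorem exists_coh (lam : Cardinal.{0}) (hsq : Square (Order.succ lam)) :
    ∃ C : KK lam → Set (KK lam), Coh C ∧ NoThread C := by
  obtain ⟨C, hclub, -, hcoh, hnt⟩ := hsq
  refine ⟨fun a => {c | toO lam c ∈ C (toO lam a)}, ?_, ?_⟩
  · refine ⟨?_, ?_, ?_, ?_⟩
    · intro α c hc
      exact (toO_lt_iff lam).1 ((hclub _ (toO_lt lam α)).1 _ hc)
    · intro α β hβ h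
      exact (hclub _ (toO_lt lam α)).2.1 _ ((toO_lt_iff lam).2 hβ) ((limPt_iff lam _ β).1 h)
    · intro α hα b hb
      obtain ⟨c, -, hbc, hc⟩ := hα.2 b hb
      obtain ⟨δ, hδ, h1⟩ := (hclub _ (toO_lt lam α)).2.2 _ ((toO_lt_iff lam).2 hc)
      obtain ⟨d, rfl⟩ := toO_surj lam
        (((hclub _ (toO_lt lam α)).1 _ hδ).trans (toO_lt lam α))
      exact ⟨d, hδ, hbc.trans_le ((toO_le_iff lam).1 h1)⟩
    · intro α β hβ h c
      have h1 := hcoh _ (toO_lt lam α) _ ((toO_lt_iff lam).2 hβ) ((limPt_iff lam _ β).1 h)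
      show toO lam c ∈ C (toO lam β) ↔ _
      rw [h1]
      exact ⟨fun h => ⟨h.1, (toO_lt_iff lam).1 h.2⟩, fun h => ⟨h.1, (toO_lt_iff lam).2 h.2⟩⟩
  · rintro ⟨D, hD, hth⟩
    apply hnt
    have hiff : ∀ b, LimPt D b ↔ IsAccumulation (toO lam '' D) (toO lam b) := by
      intro b
      rw [← limPt_iff]
      have h1 : {c : KK lam | toO lam c ∈ toO lam '' D} = D := by
        ext c
        constructor
        · rintro ⟨d, hd, h⟩
          rwa [← toO_inj lam h]
        · exact fun h => ⟨c, h, rfl⟩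
      rw [h1]
    refine ⟨toO lam '' D, ⟨?_, ?_, ?_⟩, ?_⟩
    · rintro _ ⟨d, -, rfl⟩
      exact toO_lt lam d
    · intro β hβ h
      obtain ⟨b, rfl⟩ := toO_surj lam hβ
      exact ⟨b, hD.2 b ((hiff b).2 h), rfl⟩
    · intro γ hγ
      obtain ⟨g, rfl⟩ := toO_surj lam hγ
      obtain ⟨c, hc, hgc⟩ := hD.1 g
      exact ⟨_, ⟨c, hc, rfl⟩, ((toO_lt_iff lam).2 hgc).le⟩
    · intro α hα h
      obtain ⟨a, rfl⟩ := toO_surj lam hα
      have h1 := hth a ((hiff a).2 h)
      ext x
      constructor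
      · rintro ⟨⟨d, hd, rfl⟩, h2⟩
        exact (h1 d).2 ⟨hd, (toO_lt_iff lam).1 h2⟩
      · intro hx
        have hxa := (hclub _ (toO_lt lam a)).1 _ hx
        obtain ⟨c, rfl⟩ := toO_surj lam (hxa.trans (toO_lt lam a))
        obtain ⟨h3, h4⟩ := (h1 c).1 hx
        exact ⟨⟨c, h3, rfl⟩, (toO_lt_iff lam).2 h4⟩

/-- the nodes of the tree -/
structure Nd (lam : Cardinal.{0}) : Type where
  p : KK lam × LL lam

theorem eq_of_iso {α β : Ordinal.{0}} (e : Iio α ≃o Iio β) : α = β := by
  have h := e.toRelIsoLT.ordinalType_congr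
  rw [type_lt_Iio, type_lt_Iio] at h
  exact Ordinal.lift_inj.1 h

theorem main (lam : Cardinal.{0}) (hlam : ℵ₀ < lam)
    (hch : (2 : Cardinal.{0}) ^ lam = Order.succ lam) (hsq : Square (Order.succ lam)) :
    ∃ (T : Type) (_ : PartialOrder T), IsSouslinTree (Order.succ lam) T := by
  classical
  have hcK : #(KK lam) = Order.succ lam := mk_ord_toType _
  have hcL : #(LL lam) = lam := mk_ord_toType _
  have hs := setup_of lam hlam
  have hne : Nonempty (KK lam) := by
    rw [← mk_ne_zero_iff, hcK]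
    exact (Order.bot_lt_succ _).ne'
  obtain ⟨X, hX⟩ := exists_enum lam hlam hch
  obtain ⟨C, hC, hnt⟩ := exists_coh lam hsq
  obtain ⟨f, htr, hconn, hanti, hchain⟩ := exists_tree hs X hX hC hnt
  have hsmall : ∀ (A : Set (Nd lam)) (α : KK lam), (∀ a ∈ A, a.p.1 < α) →
      #A < Order.succ lam := by
    intro A α hA
    rw [Order.lt_succ_iff]
    let e : A → (Iio α) × LL lam := fun a => (⟨a.1.p.1, hA a.1 a.2⟩, a.1.p.2)
    have he : Function.Injective e := by
      rintro ⟨⟨a1, a2⟩, ha⟩ ⟨⟨b1, b2⟩, hb⟩ h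
      have h1 : a1 = b1 := congrArg (fun z => (z.1 : KK lam)) h
      have h2 : a2 = b2 := congrArg (fun z => z.2) h
      subst h1 h2
      rfl
    refine (mk_le_of_injective he).trans ?_
    rw [mk_prod]
    simp only [Cardinal.lift_id]
    have h3 := small_Iio hs α
    rw [hcL] at h3
    rw [hcL]
    exact (mul_le_mul' h3 le_rfl).trans (mul_eq_self hlam.le).le
  let P : PartialOrder (Nd lam) := {
    le := fun a b => TLe f a.p b.p
    lt := fun a b => TLt f a.p b.p
    le_refl := fun a => Or.inl rfl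
    le_trans := by
      intro a b c h1 h2
      rcases h1 with h1 | h1
      · show TLe f a.p c.p
        rw [h1]; exact h2
      rcases h2 with h2 | h2
      · show TLe f a.p c.p
        rw [← h2]; exact Or.inr h1
      exact Or.inr (htr _ _ _ h1 h2)
    lt_iff_le_not_ge := by
      intro a b
      constructor
      · intro h
        refine ⟨Or.inr h, ?_⟩
        rintro (h1 | h1)
        · have := h.1
          rw [h1] at this
          exact lt_irrefl _ this
        · exact lt_asymm h.1 h1.1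
      · rintro ⟨h1, h2⟩
        rcases h1 with h1 | h1
        · exact absurd (Or.inl h1.symm) h2
        · exact h1
    le_antisymm := by
      intro a b h1 h2
      have h3 : a.p = b.p := by
        rcases h1 with h1 | h1
        · exact h1
        rcases h2 with h2 | h2
        · exact h2.symm
        · exact absurd h2.1 (lt_asymm h1.1)
      cases a
      cases b
      simp only at h3
      rw [h3] }
  have hiso : ∀ x : Nd lam, Nonempty (Iio x ≃o Iio (toO lam x.p.1)) := by
    intro x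
    have hmem : ∀ y : Iio x, TLt f y.1.p x.p := fun y => y.2
    have hinv : ∀ γ : Iio (toO lam x.p.1), ∃ a : KK lam, toO lam a = γ.1 ∧ a < x.p.1 := by
      rintro ⟨γ, hγ⟩
      obtain ⟨a, ha⟩ := toO_surj lam (lt_trans hγ (toO_lt lam _))
      exact ⟨a, ha, (toO_lt_iff lam).1 (ha ▸ hγ)⟩
    choose inv hinv1 hinv2 using hinv
    exact ⟨{
      toFun := fun y => ⟨toO lam y.1.p.1, (toO_lt_iff lam).2 (hmem y).1⟩
      invFun := fun γ => ⟨⟨(inv γ, (f x.p.1).row x.p.2 (inv γ))⟩, ⟨hinv2 γ, rfl⟩⟩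
      left_inv := by
        intro y
        have h1 : inv ⟨toO lam y.1.p.1, (toO_lt_iff lam).2 (hmem y).1⟩ = y.1.p.1 :=
          toO_inj lam (hinv1 _)
        apply Subtype.ext
        show Nd.mk (inv _, (f x.p.1).row x.p.2 (inv _)) = y.1
        rw [h1, (hmem y).2]
      right_inv := by
        intro γ
        apply Subtype.ext
        exact hinv1 γ
      map_rel_iff' := by
        intro y y'
        show toO lam y.1.p.1 ≤ toO lam y'.1.p.1 ↔ TLe f y.1.p y'.1.p
        rw [toO_le_iff]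
        constructor
        · intro h
          rcases hconn _ _ _ (hmem y) (hmem y') with h1 | h1 | h1
          · exact Or.inl h1
          · exact Or.inr h1
          · exact absurd h1.1 (not_lt.2 h)
        · exact fun h => tle_fst h }⟩
  refine ⟨Nd lam, P, ?_, ?_, ?_, ?_⟩
  · exact fun x => ⟨_, hiso x⟩
  · intro α
    constructor
    · rintro ⟨x, ⟨e⟩⟩
      obtain ⟨e'⟩ := hiso x
      rw [eq_of_iso (e.symm.trans e')]
      exact toO_lt lam _
    · intro hα
      obtain ⟨a, rfl⟩ := toO_surj lam hα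
      obtain ⟨i⟩ := hs.nonemptyΛ
      exact ⟨⟨(a, i)⟩, hiso ⟨(a, i)⟩⟩
  · intro B hB
    obtain ⟨α, hα⟩ := hchain (Nd.p '' B) (by
      rintro _ ⟨a, ha, rfl⟩ _ ⟨b, hb, rfl⟩
      by_cases hab : a = b
      · exact Or.inl (by rw [hab])
      rcases hB ha hb hab with h | h
      · rcases h with h | h
        · exact Or.inl h
        · exact Or.inr (Or.inl h)
      · rcases h with h | h
        · exact Or.inl h.symm
        · exact Or.inr (Or.inr h))
    exact hsmall B α (fun a ha => hα _ ⟨a, ha, rfl⟩)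
  · intro A hA
    obtain ⟨α, hα⟩ := hanti (Nd.p '' A) (by
      rintro _ ⟨a, ha, rfl⟩ _ ⟨b, hb, rfl⟩ h
      have hab : a ≠ b := by
        rintro rfl
        exact lt_irrefl _ h.1
      exact hA ha hb hab (Or.inr h))
    exact hsmall A α (fun a ha => hα _ ⟨a, ha, rfl⟩)

end Pool.Agent.Run7.h653
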