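import Mathlib

/-!
# Clubs and stationary sets in a well-ordered set of type `λ⁺`
-/

set_option autoImplicit false
set_option linter.unusedSectionVars false

namespace Pool.Agent.Run7.h653

open Set Cardinal

universe u

section Defs

variable {K : Type u} [LinearOrder K]

/-- `a` is an accumulation point of `C`: it is not the least element, and the elements of `C`
below `a` are unbounded in `a`. -/
def LimPt (C : Set K) (a : K) : Prop := (∃ b, b < a) ∧ ∀ b < a, ∃ c ∈ C, b < c ∧ c < a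

/-- `C` is closed and unbounded. -/
def Club (C : Set K) : Prop := (∀ b, ∃ c ∈ C, b < c) ∧ ∀ a, LimPt C a → a ∈ C

/-- `S` meets all clubs. -/
def Stat (S : Set K) : Prop := ∀ C : Set K, Club C → ∃ a ∈ S, a ∈ C

theorem LimPt.mono {C D : Set K} (h : C ⊆ D) {a : K} (ha : LimPt C a) : LimPt D a :=
  ⟨ha.1, fun b hb => let ⟨c, hc, h1⟩ := ha.2 b hb; ⟨c, h hc, h1⟩⟩

end Defs

/-- The well-ordered set `K` has order type `λ⁺`, and `Λ` has order type `λ`, where `λ` is an
uncountable cardinal. -/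
structure Setup (K Λ : Type u) [LinearOrder K] [LinearOrder Λ] : Prop where
  small : ∀ a : K, ∃ g : Λ → K, ∀ b ≤ a, ∃ i, g i = b
  reg : ∀ f : Λ → K, ∃ b, ∀ i, f i < b
  seg : ∀ i : Λ, #(Iio i) < #Λ
  unc : ℵ₀ < #Λ

namespace Setup

variable {K Λ : Type u} [LinearOrder K] [WellFoundedLT K] [LinearOrder Λ]

theorem exists_gtΛ (hs : Setup K Λ) (i j : Λ) : ∃ k, i < k ∧ j < k := by
  by_contra hcon
  push Not at hcon
  have h1 : (univ : Set Λ) ⊆ Iic (max i j) := by
    intro k _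
    rcases le_total i j with h | h
    · simp only [mem_Iic, max_eq_right h]
      by_contra h2
      exact absurd (hcon k (lt_of_le_of_lt h (not_le.1 h2))) (not_le.2 (not_le.1 h2))
    · simp only [mem_Iic, max_eq_left h]
      by_contra h2
      exact absurd (hcon k (not_le.1 h2)) (not_le.2 (lt_of_le_of_lt h (not_le.1 h2)))
  have h2 : #(Iic (max i j)) < #Λ := by
    rw [← Iio_insert]
    refine lt_of_le_of_lt (mk_insert_le) ?_
    exact add_lt_of_lt hs.unc.le (hs.seg _) (one_lt_aleph0.trans hs.unc)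
  have h3 := mk_le_mk_of_subset h1
  rw [mk_univ] at h3
  exact absurd h3 (not_le.2 h2)

theorem nonemptyΛ (hs : Setup K Λ) : Nonempty Λ :=
  mk_ne_zero_iff.1 (aleph0_pos.trans hs.unc).ne'

theorem exists_surj_nat (hs : Setup K Λ) : ∃ s : Λ → ℕ, Function.Surjective s := by
  have : Infinite Λ := Cardinal.infinite_iff.2 hs.unc.le
  have f := Infinite.natEmbedding Λ
  exact ⟨Function.invFun f, Function.invFun_surjective f.injective⟩

theorem reg_nat (hs : Setup K Λ) (f : ℕ → K) : ∃ b, ∀ n, f n < b := by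
  obtain ⟨s, hs1⟩ := hs.exists_surj_nat
  obtain ⟨b, hb⟩ := hs.reg (fun i => f (s i))
  refine ⟨b, fun n => ?_⟩
  obtain ⟨i, hi⟩ := hs1 n
  rw [← hi]
  exact hb i

theorem exists_gt (hs : Setup K Λ) (a : K) : ∃ b, a < b := by
  obtain ⟨b, hb⟩ := hs.reg_nat (fun _ => a)
  exact ⟨b, hb 0⟩

/-- suprema of increasing sequences -/
theorem exists_sup (hs : Setup K Λ) (f : ℕ → K) (hf : ∀ n, f n < f (n + 1)) :
    ∃ a, (∀ n, f n < a) ∧ ∀ b < a, ∃ n, b < f n := by
  obtain ⟨b, hb⟩ := hs.reg_nat f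
  have hne : {a : K | ∀ n, f n < a}.Nonempty := ⟨b, hb⟩
  refine ⟨wellFounded_lt.min _ hne, wellFounded_lt.min_mem _ hne, ?_⟩
  intro c hc
  by_contra hcon
  push Not at hcon
  have h1 : c ∈ {a : K | ∀ n, f n < a} := fun n => lt_of_lt_of_le (hf n) (hcon (n + 1))
  exact wellFounded_lt.not_lt_min _ h1 hc

/-- iterate a progressive function and take the supremum -/
theorem exists_iter (hs : Setup K Λ) (next : K → K) (hn : ∀ a, a < next a) (b : K) :
    ∃ (f : ℕ → K) (a : K), f 0 = b ∧ (∀ n, f (n + 1) = next (f n)) ∧ StrictMono f ∧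
      (∀ n, f n < a) ∧ ∀ c < a, ∃ n, c < f n := by
  let f : ℕ → K := fun n => next^[n] b
  have h1 : ∀ n, f (n + 1) = next (f n) := fun n => Function.iterate_succ_apply' _ _ _
  have h2 : ∀ n, f n < f (n + 1) := fun n => by rw [h1]; exact hn _
  obtain ⟨a, ha1, ha2⟩ := hs.exists_sup f h2
  exact ⟨f, a, rfl, h1, strictMono_nat_of_lt_succ h2, ha1, ha2⟩

theorem club_inter (hs : Setup K Λ) (D : Λ → Set K) (hD : ∀ i, Club (D i)) :
    Club (⋂ i, D i) := by
  constructor
  · intro b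
    choose d hd1 hd2 using fun (i : Λ) (c : K) => (hD i).1 c
    choose next hnext using fun c : K => hs.reg (fun i => d i c)
    obtain ⟨i0⟩ := hs.nonemptyΛ
    obtain ⟨f, a, hf0, hfs, -, hfa, hfc⟩ := hs.exists_iter next
      (fun c => (hd2 i0 c).trans (hnext c i0)) b
    refine ⟨a, ?_, by rw [← hf0]; exact hfa 0⟩
    rw [mem_iInter]
    intro i
    refine (hD i).2 a ⟨⟨_, hfa 0⟩, fun c hc => ?_⟩
    obtain ⟨n, hn⟩ := hfc c hc
    refine ⟨d i (f n), hd1 i (f n), hn.trans (hd2 i (f n)), ?_⟩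
    refine lt_trans (hnext (f n) i) ?_
    rw [← hfs]
    exact hfa _
  · intro a ha
    rw [mem_iInter]
    exact fun i => (hD i).2 a (ha.mono (iInter_subset _ i))

theorem club_diag (hs : Setup K Λ) (D : K → Set K) (hD : ∀ c, Club (D c)) :
    Club {a | ∀ c < a, a ∈ D c} := by
  constructor
  · intro b
    choose g hg using hs.small
    have hE : ∀ c, Club (⋂ i, D (g c i)) := fun c => hs.club_inter _ (fun i => hD _)
    choose next hn1 hn2 using fun c => (hE c).1 c
    obtain ⟨f, a, hf0, hfs, hfm, hfa, hfc⟩ := hs.exists_iter next hn2 b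
    refine ⟨a, ?_, by rw [← hf0]; exact hfa 0⟩
    intro c hc
    obtain ⟨n, hn⟩ := hfc c hc
    refine (hD c).2 a ⟨⟨_, hc⟩, fun e he => ?_⟩
    obtain ⟨m, hm⟩ := hfc e he
    refine ⟨f (max m n + 1), ?_, ?_, hfa _⟩
    · have h1 := hn1 (f (max m n))
      rw [← hfs, mem_iInter] at h1
      obtain ⟨i, hi⟩ := hg (f (max m n)) c
        (hn.le.trans (hfm.monotone (le_max_right _ _)))
      have h2 := h1 i
      rwa [hi] at h2
    · exact hm.trans (hfm (Nat.lt_succ_of_le (le_max_left _ _)))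
  · intro a ha c hc
    refine (hD c).2 a ⟨ha.1, fun b hb => ?_⟩
    obtain ⟨d, hd1, hd2, hd3⟩ := ha.2 (max b c) (max_lt hb hc)
    exact ⟨d, hd1 c ((le_max_right _ _).trans_lt hd2), (le_max_left _ _).trans_lt hd2, hd3⟩

theorem club_Ioi (hs : Setup K Λ) (x : K) : Club (Ioi x) := by
  constructor
  · intro b
    obtain ⟨c, hc⟩ := hs.exists_gt (max b x)
    exact ⟨c, (le_max_right _ _).trans_lt hc, (le_max_left _ _).trans_lt hc⟩
  · intro a ha
    obtain ⟨b, hb⟩ := ha.1
    obtain ⟨c, hc, -, h2⟩ := ha.2 b hb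
    exact lt_trans hc h2

theorem club_closure (hs : Setup K Λ) (f : K → K) : Club {a | ∀ c < a, f c < a} :=
  hs.club_diag (fun c => Ioi (f c)) (fun _ => hs.club_Ioi _)

theorem club_inter2 (hs : Setup K Λ) {C D : Set K} (hC : Club C) (hD : Club D) :
    Club (C ∩ D) := by
  classical
  obtain ⟨i0⟩ := hs.nonemptyΛ
  have h := hs.club_inter (fun i => if i = i0 then C else D) (fun i => by
    by_cases h : i = i0
    · simp only [h, if_true]; exact hC
    · simp only [h, if_false]; exact hD)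
  obtain ⟨i1, hi1, -⟩ := hs.exists_gtΛ i0 i0
  have h2 : (⋂ i, (if i = i0 then C else D)) = C ∩ D := by
    ext x
    simp only [mem_iInter, mem_inter_iff]
    constructor
    · intro hx
      have h3 := hx i0
      have h4 := hx i1
      rw [if_pos rfl] at h3
      rw [if_neg hi1.ne'] at h4
      exact ⟨h3, h4⟩
    · rintro ⟨h3, h4⟩ i
      by_cases h : i = i0
      · rwa [if_pos h]
      · rwa [if_neg h]
  rwa [h2] at h

/-- the accumulation points of an unbounded set form a club -/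
theorem club_limPt (hs : Setup K Λ) {G : Set K} (hG : ∀ b, ∃ c ∈ G, b < c) :
    Club {a | LimPt G a} := by
  constructor
  · intro b
    choose next hn1 hn2 using hG
    obtain ⟨f, a, hf0, hfs, hfm, hfa, hfc⟩ := hs.exists_iter next hn2 b
    refine ⟨a, ⟨⟨_, hfa 0⟩, fun c hc => ?_⟩, by rw [← hf0]; exact hfa 0⟩
    obtain ⟨n, hn⟩ := hfc c hc
    refine ⟨next (f n), hn1 _, hn.trans (hn2 _), ?_⟩
    rw [← hfs]
    exact hfa _
  · intro a ha
    refine ⟨ha.1, fun b hb => ?_⟩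
    obtain ⟨c, hc, h1, h2⟩ := ha.2 b hb
    obtain ⟨d, hd, h3, h4⟩ := hc.2 b h1
    exact ⟨d, hd, h3, h4.trans h2⟩

theorem stat_inter (hs : Setup K Λ) {S C : Set K} (hS : Stat S) (hC : Club C) :
    Stat (S ∩ C) := by
  intro D hD
  obtain ⟨a, ha, ha1, ha2⟩ := hS _ (hs.club_inter2 hC hD)
  exact ⟨a, ⟨ha, ha1⟩, ha2⟩

theorem stat_unbdd (hs : Setup K Λ) {S : Set K} (hS : Stat S) (b : K) : ∃ c ∈ S, b < c := by
  obtain ⟨a, ha, ha1⟩ := hS _ (hs.club_Ioi b)
  exact ⟨a, ha, ha1⟩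

theorem _root_.Pool.Agent.Run7.h653.Stat.mono {S T : Set K} (hS : Stat S) (h : S ⊆ T) :
    Stat T := by
  intro D hD
  obtain ⟨a, ha, ha1⟩ := hS D hD
  exact ⟨a, h ha, ha1⟩

/-- the pressing down lemma -/
theorem fodor (hs : Setup K Λ) {S : Set K} (hS : Stat S) (f : K → K)
    (hf : ∀ a ∈ S, f a < a) : ∃ c, Stat {a | a ∈ S ∧ f a = c} := by
  by_contra hcon
  push Not at hcon
  have h1 : ∀ c, ∃ D : Set K, Club D ∧ ∀ a ∈ D, a ∈ S → f a ≠ c := by
    intro c
    have h2 := hcon c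
    unfold Stat at h2
    push Not at h2
    obtain ⟨D, hD1, hD2⟩ := h2
    exact ⟨D, hD1, fun a ha haS hfa => hD2 a ⟨haS, hfa⟩ ha⟩
  choose D hD1 hD2 using h1
  obtain ⟨a, haS, ha⟩ := hS _ (hs.club_diag D hD1)
  exact hD2 (f a) a (ha (f a) (hf a haS)) haS rfl

/-- a stationary set is not the union of `λ` many non-stationary sets -/
theorem stat_union (hs : Setup K Λ) {S : Set K} (hS : Stat S) (T : Λ → Set K)
    (hT : ∀ a ∈ S, ∃ i, a ∈ T i) : ∃ i, Stat (S ∩ T i) := by
  by_contra hcon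
  push Not at hcon
  have h1 : ∀ i, ∃ D : Set K, Club D ∧ ∀ a ∈ D, a ∈ S → a ∉ T i := by
    intro i
    have h2 := hcon i
    unfold Stat at h2
    push Not at h2
    obtain ⟨D, hD1, hD2⟩ := h2
    exact ⟨D, hD1, fun a ha haS hfa => hD2 a ⟨haS, hfa⟩ ha⟩
  choose D hD1 hD2 using h1
  obtain ⟨a, haS, ha⟩ := hS _ (hs.club_inter D hD1)
  rw [mem_iInter] at ha
  obtain ⟨i, hi⟩ := hT a haS
  exact hD2 i a (ha i) haS hi

end Setup

end Pool.Agent.Run7.h653
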