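import Pool.Agent.Run7.h653.Basic

/-!
# Diamond on points whose cofinality is different from that of `λ`

Shelah's theorem: if `2 ^ λ = λ⁺` then diamond holds on all stationary subsets of
`{δ < λ⁺ : cf δ ≠ cf λ}`. The assumption on the cofinality is used in the form `GoodCof`.
-/

set_option autoImplicit false
set_option linter.unusedSectionVars false

namespace Pool.Agent.Run7.h653

open Set Cardinal

universe u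

/-- every function from a cofinal subset of `δ` to `Λ` is bounded on a cofinal subset of `δ` -/
def GoodCof {K : Type u} [LinearOrder K] (Λ : Type u) [LinearOrder Λ] (δ : K) : Prop :=
  ∀ (N : Set K) (z : K → Λ), (∀ b < δ, ∃ n ∈ N, b < n ∧ n < δ) →
    ∃ ζ, ∀ b < δ, ∃ n ∈ N, b < n ∧ n < δ ∧ z n ≤ ζ

/-- diamond on `S` for subsets of `K × Λ` -/
def Diam {K : Type u} [LinearOrder K] (Λ : Type u) (S : Set K) : Prop :=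
  ∃ Z : K → Set (K × Λ), ∀ A : Set (K × Λ), ∀ D : Set K, Club D →
    ∃ δ ∈ S, δ ∈ D ∧ ∀ γ < δ, ∀ i, ((γ, i) ∈ Z δ ↔ (γ, i) ∈ A)

variable {K Λ : Type u} [LinearOrder K] [WellFoundedLT K] [LinearOrder Λ] [WellFoundedLT Λ]

theorem shelah_claim (hs : Setup K Λ) (X : K → Set (K × Λ × Λ × Λ))
    (hX : ∀ a, ∀ Y : Set (K × Λ × Λ × Λ), (∀ p ∈ Y, p.1 < a) → ∃ b, X b = Y)
    (S : Set K) (hS : Stat S) (hgood : ∀ δ ∈ S, GoodCof Λ δ)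
    (hlim : ∀ δ ∈ S, LimPt univ δ) (g : K → Λ → K) (hg : ∀ a, ∀ b ≤ a, ∃ i, g a i = b) :
    ∃ ζ : Λ, ∀ (Z : Set (K × Λ × Λ)) (D : Set K), Club D → ∃ δ ∈ S, δ ∈ D ∧
      ∀ b < δ, ∃ α, b < α ∧ α < δ ∧ α ∈ g δ '' Iio ζ ∧ ∃ β ∈ g δ '' Iio ζ,
        ∀ γ τ i, ((γ, ζ, τ, i) ∈ X β ↔ (γ, τ, i) ∈ Z ∧ γ < α) := by
  by_contra hcon
  push Not at hcon
  choose Z D hD1 hD2 using hcon
  have hf : ∀ α : K, ∃ β, X β = {p | (p.1, p.2.2) ∈ Z p.2.1 ∧ p.1 < α} :=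
    fun α => hX α _ (fun p hp => hp.2)
  choose f hf using hf
  obtain ⟨δ, hδS, hδ1, hδ2⟩ := hS _ (hs.club_inter2 (hs.club_inter D hD1) (hs.club_closure f))
  rw [mem_iInter] at hδ1
  have hz : ∀ α, ∃ ζ : Λ, α < δ → (∃ i < ζ, g δ i = α) ∧ (∃ i < ζ, g δ i = f α) := by
    intro α
    by_cases h : α < δ
    · obtain ⟨i, hi⟩ := hg δ α h.le
      obtain ⟨j, hj⟩ := hg δ (f α) (hδ2 α h).le
      obtain ⟨k, hk1, hk2⟩ := hs.exists_gtΛ i j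
      exact ⟨k, fun _ => ⟨⟨i, hk1, hi⟩, ⟨j, hk2, hj⟩⟩⟩
    · obtain ⟨i0⟩ := hs.nonemptyΛ
      exact ⟨i0, fun h' => absurd h' h⟩
  choose z hz using hz
  obtain ⟨ζ, hζ⟩ := hgood δ hδS univ z (hlim δ hδS).2
  obtain ⟨b, hb1, hb2⟩ := hD2 ζ δ hδS (hδ1 ζ)
  obtain ⟨α, -, h1, h2, h3⟩ := hζ b hb1
  obtain ⟨⟨i, hi, hi'⟩, ⟨j, hj, hj'⟩⟩ := hz α h2
  obtain ⟨γ, τ, k, h4⟩ := hb2 α h1 h2 ⟨i, lt_of_lt_of_le hi h3, hi'⟩ (f α)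
    ⟨j, lt_of_lt_of_le hj h3, hj'⟩
  rw [hf] at h4
  rcases h4 with ⟨⟨h5, h6⟩, h7⟩ | ⟨h5, h6⟩
  · exact absurd (h7 h5) (not_le.2 h6)
  · exact h5 h6

/-- Shelah's theorem -/
theorem shelah (hs : Setup K Λ) (X : K → Set (K × Λ × Λ × Λ))
    (hX : ∀ a, ∀ Y : Set (K × Λ × Λ × Λ), (∀ p ∈ Y, p.1 < a) → ∃ b, X b = Y)
    (S : Set K) (hS : Stat S) (hgood : ∀ δ ∈ S, GoodCof Λ δ)
    (hlim : ∀ δ ∈ S, LimPt univ δ) : Diam Λ S := by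
  classical
  choose g hg using hs.small
  obtain ⟨ζ, hζ⟩ := shelah_claim hs X hX S hS hgood hlim g hg
  by_contra hcon
  unfold Diam at hcon
  push Not at hcon
  choose bad badD hbad1 hbad2 using hcon
  let F : (τ : Λ) → ((ρ : Λ) → ρ < τ → Set (K × Λ)) → Set (K × Λ) := fun τ rec =>
    bad (fun δ => {p | ∃ α ∈ g δ '' Iio ζ, ∃ β ∈ g δ '' Iio ζ, α < δ ∧
      (∀ ρ, ∀ h : ρ < τ, ∀ γ i, ((γ, ζ, ρ, i) ∈ X β ↔ (γ, i) ∈ rec ρ h ∧ γ < α)) ∧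
      (p.1, ζ, τ, p.2) ∈ X β})
  let Zf : Λ → Set (K × Λ) := (wellFounded_lt (α := Λ)).fix F
  let guess : Λ → K → Set (K × Λ) := fun τ δ =>
    {p | ∃ α ∈ g δ '' Iio ζ, ∃ β ∈ g δ '' Iio ζ, α < δ ∧
      (∀ ρ, ∀ _ : ρ < τ, ∀ γ i, ((γ, ζ, ρ, i) ∈ X β ↔ (γ, i) ∈ Zf ρ ∧ γ < α)) ∧
      (p.1, ζ, τ, p.2) ∈ X β}
  have hZf : ∀ τ, Zf τ = bad (guess τ) := fun τ => (wellFounded_lt (α := Λ)).fix_eq F τ
  obtain ⟨δ, hδS, hδD, hδ⟩ := hζ {p | (p.1, p.2.2) ∈ Zf p.2.1} (⋂ τ, badD (guess τ))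
    (hs.club_inter _ (fun τ => hbad1 _))
  rw [mem_iInter] at hδD
  have key : ∀ τ : Λ, ∃ w : (g δ '' Iio ζ) × (g δ '' Iio ζ), 
      (∀ ρ < τ, ∀ γ i, ((γ, ζ, ρ, i) ∈ X w.2.1 ↔ (γ, i) ∈ Zf ρ ∧ γ < w.1.1)) ∧
      ¬ (∀ γ i, ((γ, ζ, τ, i) ∈ X w.2.1 ↔ (γ, i) ∈ Zf τ ∧ γ < w.1.1)) := by
    intro τ
    by_contra hno
    push Not at hno
    obtain ⟨γ, hγ, i, hi⟩ := hbad2 (guess τ) δ hδS (hδD τ)
    rw [← hZf] at hi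
    have h1 : (γ, i) ∈ guess τ δ ↔ (γ, i) ∈ Zf τ := by
      constructor
      · rintro ⟨α, hα, β, hβ, hαδ, h2, h3⟩
        exact ((hno (⟨α, hα⟩, ⟨β, hβ⟩) (fun ρ hρ γ i => h2 ρ hρ γ i) γ i).1 h3).1
      · intro h2
        obtain ⟨α, h3, h4, h5, β, h6, h7⟩ := hδ γ hγ
        refine ⟨α, h5, β, h6, h4, fun ρ _ γ' i' => h7 γ' ρ i', ?_⟩
        exact (h7 γ τ i).2 ⟨h2, h3⟩
    tauto
  choose w hw1 hw2 using key
  have hinj : Function.Injective w := by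
    have h1 : ∀ τ τ', τ < τ' → w τ ≠ w τ' := by
      intro τ τ' h heq
      apply hw2 τ
      rw [heq]
      exact hw1 τ' τ h
    intro τ τ' heq
    by_contra hne
    rcases lt_or_gt_of_ne hne with h | h
    · exact h1 _ _ h heq
    · exact h1 _ _ h heq.symm
  have h1 := mk_le_of_injective hinj
  rw [mk_prod] at h1
  simp only [lift_id] at h1
  have h2 : #(g δ '' Iio ζ) < #Λ := lt_of_le_of_lt mk_image_le (hs.seg ζ)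
  exact absurd h1 (not_le.2 (mul_lt_of_lt hs.unc.le h2 h2))

end Pool.Agent.Run7.h653
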