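import Pool.Agent.Run7.h653.Diamond

/-!
# A variant of Shelah's theorem

`Diam Λ S` follows from `2 ^ λ = λ⁺` if, for points `δ` of `S`, there are small sets `a δ η`
(`η < λ`) such that every function `f` has the property that at some `δ` in `S`, unboundedly many
`α < δ` satisfy `α ∈ a δ η` and `f α ∈ a δ η`, for a fixed `η`.
-/

set_option autoImplicit false
set_option linter.unusedSectionVars false

namespace Pool.Agent.Run7.h653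

open Set Cardinal

universe u

variable {K Λ : Type u} [LinearOrder K] [WellFoundedLT K] [LinearOrder Λ] [WellFoundedLT Λ]

theorem shelah_claim2 (hs : Setup K Λ) (X : K → Set (K × Λ × Λ × Λ))
    (hX : ∀ a, ∀ Y : Set (K × Λ × Λ × Λ), (∀ p ∈ Y, p.1 < a) → ∃ b, X b = Y)
    (S : Set K) (A : K → Λ → Set K)
    (H : ∀ (f : K → K) (D : Set K), Club D → ∃ δ ∈ S, δ ∈ D ∧ ∃ η : Λ,
      ∀ b < δ, ∃ α ∈ A δ η, b < α ∧ α < δ ∧ f α ∈ A δ η) :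
    ∃ ζ : Λ, ∀ (Z : Set (K × Λ × Λ)) (D : Set K), Club D → ∃ δ ∈ S, δ ∈ D ∧
      ∀ b < δ, ∃ α, b < α ∧ α < δ ∧ α ∈ A δ ζ ∧ ∃ β ∈ A δ ζ,
        ∀ γ τ i, ((γ, ζ, τ, i) ∈ X β ↔ (γ, τ, i) ∈ Z ∧ γ < α) := by
  by_contra hcon
  push Not at hcon
  choose Z D hD1 hD2 using hcon
  have hf : ∀ α : K, ∃ β, X β = {p | (p.1, p.2.2) ∈ Z p.2.1 ∧ p.1 < α} :=
    fun α => hX α _ (fun p hp => hp.2)
  choose f hf using hf
  obtain ⟨δ, hδS, hδ1, ζ, hζ⟩ := H f _ (hs.club_inter D hD1)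
  rw [mem_iInter] at hδ1
  obtain ⟨b, hb1, hb2⟩ := hD2 ζ δ hδS (hδ1 ζ)
  obtain ⟨α, h0, h1, h2, h3⟩ := hζ b hb1
  obtain ⟨γ, τ, k, h4⟩ := hb2 α h1 h2 h0 (f α) h3
  rw [hf] at h4
  rcases h4 with ⟨⟨h5, h6⟩, h7⟩ | ⟨h5, h6⟩
  · exact absurd (h7 h5) (not_le.2 h6)
  · exact h5 h6

/-- the variant of Shelah's theorem -/
theorem shelah2 (hs : Setup K Λ) (X : K → Set (K × Λ × Λ × Λ))
    (hX : ∀ a, ∀ Y : Set (K × Λ × Λ × Λ), (∀ p ∈ Y, p.1 < a) → ∃ b, X b = Y)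
    (S : Set K) (A : K → Λ → Set K) (hA : ∀ δ η, #(A δ η) < #Λ)
    (H : ∀ (f : K → K) (D : Set K), Club D → ∃ δ ∈ S, δ ∈ D ∧ ∃ η : Λ,
      ∀ b < δ, ∃ α ∈ A δ η, b < α ∧ α < δ ∧ f α ∈ A δ η) : Diam Λ S := by
  classical
  obtain ⟨ζ, hζ⟩ := shelah_claim2 hs X hX S A H
  by_contra hcon
  unfold Diam at hcon
  push Not at hcon
  choose bad badD hbad1 hbad2 using hcon
  let F : (τ : Λ) → ((ρ : Λ) → ρ < τ → Set (K × Λ)) → Set (K × Λ) := fun τ rec =>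
    bad (fun δ => {p | ∃ α ∈ A δ ζ, ∃ β ∈ A δ ζ, α < δ ∧
      (∀ ρ, ∀ h : ρ < τ, ∀ γ i, ((γ, ζ, ρ, i) ∈ X β ↔ (γ, i) ∈ rec ρ h ∧ γ < α)) ∧
      (p.1, ζ, τ, p.2) ∈ X β})
  let Zf : Λ → Set (K × Λ) := (wellFounded_lt (α := Λ)).fix F
  let guess : Λ → K → Set (K × Λ) := fun τ δ =>
    {p | ∃ α ∈ A δ ζ, ∃ β ∈ A δ ζ, α < δ ∧
      (∀ ρ, ∀ _ : ρ < τ, ∀ γ i, ((γ, ζ, ρ, i) ∈ X β ↔ (γ, i) ∈ Zf ρ ∧ γ < α)) ∧
      (p.1, ζ, τ, p.2) ∈ X β}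
  have hZf : ∀ τ, Zf τ = bad (guess τ) := fun τ => (wellFounded_lt (α := Λ)).fix_eq F τ
  obtain ⟨δ, hδS, hδD, hδ⟩ := hζ {p | (p.1, p.2.2) ∈ Zf p.2.1} (⋂ τ, badD (guess τ))
    (hs.club_inter _ (fun τ => hbad1 _))
  rw [mem_iInter] at hδD
  have key : ∀ τ : Λ, ∃ w : (A δ ζ) × (A δ ζ), 
      (∀ ρ < τ, ∀ γ i, ((γ, ζ, ρ, i) ∈ X w.2.1 ↔ (γ, i) ∈ Zf ρ ∧ γ < w.1.1)) ∧
      ¬ (∀ γ i, ((γ, ζ, τ, i) ∈ X w.2.1 ↔ (γ, i) ∈ Zf τ ∧ γ < w.1.1)) := by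
    intro τ
    by_contra hno
    push Not at hno
    obtain ⟨γ, hγ, i, hi⟩ := hbad2 (guess τ) δ hδS (hδD τ)
    rw [← hZf] at hi
    have h1 : (γ, i) ∈ guess τ δ ↔ (γ, i) ∈ Zf τ := by
      constructor
      · rintro ⟨α, hα, β, hβ, hαδ, h2, h3⟩
        exact ((hno (⟨α, hα⟩, ⟨β, hβ⟩) (fun ρ hρ γ i => h2 ρ hρ γ i) γ i).1 h3).1
      · intro h2
        obtain ⟨α, h3, h4, h5, β, h6, h7⟩ := hδ γ hγ
        refine ⟨α, h5, β, h6, h4, fun ρ _ γ' i' => h7 γ' ρ i', ?_⟩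
        exact (h7 γ τ i).2 ⟨h2, h3⟩
    tauto
  choose w hw1 hw2 using key
  have hinj : Function.Injective w := by
    have h1 : ∀ τ τ', τ < τ' → w τ ≠ w τ' := by
      intro τ τ' h heq
      apply hw2 τ
      rw [heq]
      exact hw1 τ' τ h
    intro τ τ' heq
    by_contra hne
    rcases lt_or_gt_of_ne hne with h | h
    · exact h1 _ _ h heq
    · exact h1 _ _ h heq.symm
  have h1 := mk_le_of_injective hinj
  rw [mk_prod] at h1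
  simp only [lift_id] at h1
  exact absurd h1 (not_le.2 (mul_lt_of_lt hs.unc.le (hA δ ζ) (hA δ ζ)))

/-- If diamond holds on a union of `λ` many sets then it holds on one of them. -/
theorem diam_union (hs : Setup K Λ) {S : Set K} (hS : Diam Λ S) (T : Λ → Set K)
    (hT : ∀ a ∈ S, ∃ i, a ∈ T i) : ∃ i, Diam Λ (S ∩ T i) := by
  classical
  have h1 : #(Λ × Λ) = #Λ := by
    rw [mk_prod, lift_id]
    exact mul_eq_self hs.unc.le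
  obtain ⟨e⟩ := Cardinal.eq.1 h1
  obtain ⟨Z, hZ⟩ := hS
  by_contra hcon
  push Not at hcon
  unfold Diam at hcon
  push Not at hcon
  choose A D hD hA using fun t => hcon t (fun δ => {p | (p.1, e (t, p.2)) ∈ Z δ})
  obtain ⟨δ, hδS, hδD, hδ⟩ := hZ {p | (p.1, (e.symm p.2).2) ∈ A (e.symm p.2).1}
    _ (hs.club_inter D hD)
  rw [mem_iInter] at hδD
  obtain ⟨t, ht⟩ := hT δ hδS
  obtain ⟨γ, hγ, i, hi⟩ := hA t δ ⟨hδS, ht⟩ (hδD t)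
  have h2 := hδ γ hγ (e (t, i))
  simp only [mem_setOf_eq, Equiv.symm_apply_apply] at h2
  rcases hi with ⟨h3, h4⟩ | ⟨h3, h4⟩
  · exact h4 (h2.1 h3)
  · exact h3 (h2.2 h4)

end Pool.Agent.Run7.h653
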