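import Pool.Agent.Run7.h653.Dichotomy
import Pool.Agent.Run7.h653.Shelah2

/-!
# The dichotomy, second version

In the second alternative the avoided set consists of points of cofinality `ω` and carries diamond.
-/

set_option autoImplicit false
set_option linter.unusedSectionVars false

namespace Pool.Agent.Run7.h653

open Set Cardinal

universe u

variable {K Λ : Type u} [LinearOrder K] [WellFoundedLT K] [LinearOrder Λ] [WellFoundedLT Λ]

/-- a set of points none of which is an accumulation point of the club of another one can be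
avoided -/
theorem avoid_of_antichain {C : K → Set K} (hC : Coh C) {S : Set K}
    (hanti : ∀ α ∈ S, ∀ β ∈ S, β < α → ¬ LimPt (C α) β) :
    ∃ C' : K → Set K, Coh C' ∧ Avoids C' S := by
  refine ⟨fun α => {c | c ∈ C α ∧ ∀ γ ∈ S, γ < α → LimPt (C α) γ → γ < c}, ?_, ?_⟩
  · have hup : ∀ {α β}, LimPt {c | c ∈ C α ∧ ∀ γ ∈ S, γ < α → LimPt (C α) γ → γ < c} β →
        LimPt (C α) β := fun h => h.mono (fun c hc => hc.1)
    have hgt : ∀ {α β}, LimPt {c | c ∈ C α ∧ ∀ γ ∈ S, γ < α → LimPt (C α) γ → γ < c} β →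
        ∀ γ ∈ S, γ < α → LimPt (C α) γ → γ < β := by
      intro α β h γ hγ1 hγ2 hγ3
      obtain ⟨b, hb⟩ := h.1
      obtain ⟨c, hc, h1, h2⟩ := h.2 b hb
      exact (hc.2 γ hγ1 hγ2 hγ3).trans h2
    refine ⟨?_, ?_, ?_, ?_⟩
    · intro α c hc
      exact hC.sub α c hc.1
    · intro α β hβ h
      exact ⟨hC.closed α β hβ (hup h), hgt h⟩
    · intro α hα b hb
      by_cases hex : ∃ γ ∈ S, γ < α ∧ LimPt (C α) γ
      · obtain ⟨γ, hγ1, hγ2, hγ3⟩ := hex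
        obtain ⟨c, hc, hbc⟩ := hC.unb α hα (max b γ) (max_lt hb hγ2)
        refine ⟨c, ⟨hc, fun γ' h1 h2 h3 => ?_⟩, (le_max_left _ _).trans_lt hbc⟩
        have h4 : γ' = γ := by
          rcases lt_trichotomy γ' γ with h | h | h
          · exact absurd (hC.limPt_of hγ2 hγ3 h h3) (hanti γ hγ1 γ' h1 h)
          · exact h
          · exact absurd (hC.limPt_of h2 h3 h hγ3) (hanti γ' h1 γ hγ1 h)
        rw [h4]
        exact (le_max_right _ _).trans_lt hbc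
      · push Not at hex
        obtain ⟨c, hc, hbc⟩ := hC.unb α hα b hb
        exact ⟨c, ⟨hc, fun γ' h1 h2 h3 => absurd h3 (hex γ' h1 h2)⟩, hbc⟩
    · intro α β hβ h c
      have hl := hup h
      have hco := hC.coh α β hβ hl
      constructor
      · rintro ⟨h1, h2⟩
        refine ⟨⟨((hco c).1 h1).1, fun γ h3 h4 h5 => ?_⟩, ((hco c).1 h1).2⟩
        have h6 := hgt h γ h3 h4 h5
        exact h2 γ h3 h6 (hC.limPt_of hβ hl h6 h5)
      · rintro ⟨⟨h1, h2⟩, h3⟩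
        refine ⟨(hco c).2 ⟨h1, h3⟩, fun γ h4 h5 h6 => ?_⟩
        exact h2 γ h4 (h5.trans hβ) (hC.limPt_up hβ hl h6)
  · intro α β hβ h hβS
    have hl : LimPt (C α) β := h.mono (fun c hc => hc.1)
    obtain ⟨b, hb⟩ := h.1
    obtain ⟨c, hc, h1, h2⟩ := h.2 b hb
    exact absurd (hc.2 β hβS hβ hl) (not_lt.2 h2.le)

/-- `δ` has cofinality `ω` -/
def CofOmega (δ : K) : Prop := ∃ s : ℕ → K, StrictMono s ∧ (∀ n, s n < δ) ∧ ∀ b < δ, ∃ n, b < s n

theorem dichotomy2 (hs : Setup K Λ) (X : K → Set (K × Λ × Λ × Λ))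
    (hX : ∀ a, ∀ Y : Set (K × Λ × Λ × Λ), (∀ p ∈ Y, p.1 < a) → ∃ b, X b = Y)
    {C : K → Set K} (hC : Coh C) (hnt : NoThread C)
    (E : Set K) (hgood : ∀ δ ∈ E, GoodCof Λ δ) (hlim : ∀ δ ∈ E, LimPt univ δ)
    (hE : Stat E) (hZ : Diam Λ E) :
    (∃ C' : K → Set K, Coh C' ∧ Hits C') ∨
    (∃ (C' : K → Set K) (S : Set K), Coh C' ∧ Avoids C' S ∧ Diam Λ S ∧ ∀ δ ∈ S, CofOmega δ) := by
  classical
  obtain ⟨Z, hZ⟩ := hZ
  choose g hg using hs.small
  by_cases hA : ∃ i, Hits (Ci C Z g i)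
  · obtain ⟨i, hi⟩ := hA
    exact Or.inl ⟨_, coh_Ci hC Z g i, hi⟩
  right
  push Not at hA
  unfold Hits at hA
  push Not at hA
  choose A hA1 hA2 using hA
  -- the points at which all the counterexamples are guessed
  let G : Set K := {γ | (∀ δ < γ, ∀ i, ((δ, i) ∈ Z γ ↔ δ ∈ A i)) ∧ ∀ i, LimPt (A i) γ}
  have hG : ∀ b, ∃ c ∈ G, b < c := by
    intro b
    obtain ⟨δ, hδE, ⟨hδ1, hδ2⟩, hδ3⟩ := hZ {p | p.1 ∈ A p.2} _
      (hs.club_inter2 (hs.club_inter _ (fun i => hs.club_limPt (hA1 i))) (hs.club_Ioi b))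
    rw [mem_iInter] at hδ1
    exact ⟨δ, ⟨fun γ hγ i => hδ3 γ hγ i, hδ1⟩, hδ2⟩
  have hbdd : ∀ i α, LimPt univ α → ∃ b < α, ∀ β ∈ PP C G g i α, β ≤ b := by
    intro i α hα
    by_contra hcon
    push Not at hcon
    obtain ⟨b, hb, hb2⟩ := hA2 i α hα
    obtain ⟨c, hc, hbc⟩ := hC.unb α hα b hb
    obtain ⟨β, ⟨hβ1, hβ2, hβ3, b', hb', hb''⟩, hβ⟩ := hcon c (hC.sub α c hc)
    obtain ⟨δ, hδ, h1, h2⟩ := (hβ3.2 i).2 b' hb'
    have hne : {δ' | (δ', i) ∈ Z (g β i) ∧ ∃ b < δ', ∀ c ∈ C α, c < β → c ≤ b}.Nonempty :=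
      ⟨δ, (hβ3.1 δ h2 i).2 hδ, b', h1, hb''⟩
    set δ0 := wellFounded_lt.min _ hne with hδ0
    have hmem : δ0 ∈ {δ' | (δ', i) ∈ Z (g β i) ∧ ∃ b < δ', ∀ c ∈ C α, c < β → c ≤ b} :=
      wellFounded_lt.min_mem _ hne
    obtain ⟨h3, b0, h4, h5⟩ := hmem
    have hmin : ∀ δ' ∈ {δ' | (δ', i) ∈ Z (g β i) ∧ ∃ b < δ', ∀ c ∈ C α, c < β → c ≤ b},
        δ0 ≤ δ' := fun δ' h => not_lt.1 (wellFounded_lt.not_lt_min _ h)
    have h6 : δ0 < g β i := lt_of_le_of_lt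
      (hmin δ ⟨(hβ3.1 δ h2 i).2 hδ, b', h1, hb''⟩) h2
    have h7 : δ0 ∈ Ci C Z g i α :=
      Or.inr ⟨β, hβ1, h3, hβ2, h6, ⟨b0, h4, h5⟩, fun δ' h8 h9 => hmin δ' ⟨h8, h9⟩⟩
    have h8 : δ0 ∈ A i := (hβ3.1 δ0 h6 i).1 h3
    have h9 : b < δ0 := hbc.trans_le ((h5 c hc hβ).trans h4.le)
    have h10 := limPt_Ci (hb2 δ0 h7 h8 h9)
    obtain ⟨c', hc', h11, h12⟩ := h10.2 b0 h4
    exact absurd (h5 c' hc' (h12.trans (lt_of_lt_of_le h6 hβ2))) (not_le.2 h11)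
  have hPP : ∀ i α β, β < α → LimPt (C α) β → PP C G g i β = PP C G g i α ∩ Iio β := by
    intro i α β hβ hl
    have hco := hC.coh α β hβ hl
    ext x
    constructor
    · rintro ⟨h1, h2, h3, b, h4, h5⟩
      refine ⟨⟨((hco x).1 h1).1, h2, h3, b, h4, fun c hc hcx => ?_⟩, ((hco x).1 h1).2⟩
      exact h5 c ((hco c).2 ⟨hc, hcx.trans ((hco x).1 h1).2⟩) hcx
    · rintro ⟨⟨h1, h2, h3, b, h4, h5⟩, h6⟩
      refine ⟨(hco x).2 ⟨h1, h6⟩, h2, h3, b, h4, fun c hc hcx => ?_⟩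
      exact h5 c ((hco c).1 hc).1 hcx
  have hfin : ∀ i α, (PP C G g i α).Finite := by
    intro i α
    by_contra hinf
    have hne : {a | (PP C G g i α ∩ Iio a).Infinite}.Nonempty := by
      refine ⟨α, ?_⟩
      have h1 : PP C G g i α ∩ Iio α = PP C G g i α :=
        inter_eq_left.2 (fun β hβ => hC.sub α β hβ.1)
      show (PP C G g i α ∩ Iio α).Infinite
      rw [h1]
      exact hinf
    set a := wellFounded_lt.min _ hne with ha
    have hainf : (PP C G g i α ∩ Iio a).Infinite := wellFounded_lt.min_mem _ hne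
    have hmin : ∀ b < a, (PP C G g i α ∩ Iio b).Finite := by
      intro b hb
      by_contra h
      exact wellFounded_lt.not_lt_min _ (show b ∈ {a | (PP C G g i α ∩ Iio a).Infinite} from h) hb
    have hlp : LimPt (PP C G g i α) a := by
      obtain ⟨x, hx⟩ := hainf.nonempty
      refine ⟨⟨x, hx.2⟩, fun b hb => ?_⟩
      by_contra hno
      push Not at hno
      apply hainf
      refine ((hmin b hb).union (finite_singleton b)).subset ?_
      rintro y ⟨hy1, hy2⟩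
      rcases lt_trichotomy y b with h | h | h
      · exact Or.inl ⟨hy1, h⟩
      · exact Or.inr h
      · exact absurd hy2 (not_lt.2 (hno y hy1 h))
    have haα : a ≤ α := by
      by_contra h
      obtain ⟨c, hc, h1, h2⟩ := hlp.2 α (not_le.1 h)
      exact absurd (hC.sub α c hc.1) (not_lt.2 h1.le)
    have hlC : LimPt (C α) a := hlp.mono (fun x hx => hx.1)
    rcases haα.lt_or_eq with h | h
    · obtain ⟨b, hb, hb2⟩ := hbdd i a (hlp.mono (subset_univ _))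
      obtain ⟨c, hc, h1, h2⟩ := hlp.2 b hb
      have h3 := hb2 c (by rw [hPP i α a h hlC]; exact ⟨hc, h2⟩)
      exact absurd h1 (not_lt.2 h3)
    · obtain ⟨b, hb, hb2⟩ := hbdd i a (hlp.mono (subset_univ _))
      obtain ⟨c, hc, h1, h2⟩ := hlp.2 b hb
      have h3 := hb2 c (by rw [h]; exact hc)
      exact absurd h1 (not_lt.2 h3)
  -- almost all points of `E` are good
  have hS0 : Stat {α | α ∈ E ∧ ∀ b < α, ∃ i, ∃ β ∈ PP C G g i α, b < β} := by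
    have h1 := step0 hs hC hnt hG g hg
    unfold Stat at h1
    push Not at h1
    obtain ⟨D, hD, hD2⟩ := h1
    refine (hs.stat_inter hE hD).mono ?_
    rintro α ⟨hαE, hαD⟩
    refine ⟨hαE, fun b hb => ?_⟩
    by_contra hno
    push Not at hno
    exact hD2 α ⟨hlim α hαE, b, hb, hno⟩ hαD
  let B : Λ → K → Set K := fun ζ α => {β | ∃ i ≤ ζ, β ∈ PP C G g i α}
  obtain ⟨ζ, hζ⟩ := hs.stat_union hS0 (fun ζ => {α | ∀ b < α, ∃ β ∈ B ζ α, b < β}) (by
    rintro α ⟨hαE, hα⟩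
    have hz : ∀ β, ∃ i, (∃ i, β ∈ PP C G g i α) → β ∈ PP C G g i α := by
      intro β
      by_cases h : ∃ i, β ∈ PP C G g i α
      · obtain ⟨i, hi⟩ := h
        exact ⟨i, fun _ => hi⟩
      · obtain ⟨i0⟩ := hs.nonemptyΛ
        exact ⟨i0, fun h' => absurd h' h⟩
    choose z hz using hz
    obtain ⟨ζ, hζ⟩ := hgood α hαE {β | ∃ i, β ∈ PP C G g i α} z (by
      intro b hb
      obtain ⟨i, β, hβ, hbβ⟩ := hα b hb
      exact ⟨β, ⟨i, hβ⟩, hbβ, hC.sub α β hβ.1⟩)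
    refine ⟨ζ, fun b hb => ?_⟩
    obtain ⟨β, hβ, h1, h2, h3⟩ := hζ b hb
    exact ⟨β, ⟨z β, h3, hz β hβ⟩, h1⟩)
  have hBcard : ∀ α, #(B ζ α) < #Λ := by
    intro α
    have h1 : B ζ α = ⋃ i ∈ Iic ζ, PP C G g i α := by
      ext x
      simp [B]
    rw [h1]
    refine lt_of_le_of_lt (mk_biUnion_le _ _) ?_
    refine mul_lt_of_lt hs.unc.le ?_ ?_
    · rw [← Iio_insert]
      refine lt_of_le_of_lt mk_insert_le ?_
      exact add_lt_of_lt hs.unc.le (hs.seg _) (one_lt_aleph0.trans hs.unc)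
    · refine lt_of_le_of_lt (ciSup_le' fun i => ?_) hs.unc
      have := (hfin i.1 α).lt_aleph0
      exact this.le
  have hBsub : ∀ α, ∀ β ∈ B ζ α, β ∈ C α := by
    rintro α β ⟨i, -, hβ⟩
    exact hβ.1
  have hBcoh : ∀ α δ, δ ≤ α → LimPt (B ζ α) δ → ∀ β, (β ∈ B ζ δ ↔ β ∈ B ζ α ∧ β < δ) := by
    intro α δ hδ hl β
    rcases hδ.lt_or_eq with h | h
    · have hl' : LimPt (C α) δ := hl.mono (hBsub α)
      constructor
      · rintro ⟨i, hi, hx⟩
        rw [hPP i α δ h hl'] at hx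
        exact ⟨⟨i, hi, hx.1⟩, hx.2⟩
      · rintro ⟨⟨i, hi, hx⟩, h2⟩
        refine ⟨i, hi, ?_⟩
        rw [hPP i α δ h hl']
        exact ⟨hx, h2⟩
    · rw [h]
      exact ⟨fun h1 => ⟨h1, hC.sub _ _ (hBsub _ _ h1)⟩, fun h1 => h1.1⟩
  -- diamond on the points of cofinality `ω`
  have hdia : Diam Λ {δ | CofOmega δ ∧ ∀ b < δ, ∃ β ∈ B ζ δ, b < β} := by
    refine shelah2 hs X hX _ (fun δ η => {x | ∃ β ∈ B ζ δ, ∃ i ≤ η, g β i = x}) ?_ ?_
    · intro δ η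
      have h1 : {x | ∃ β ∈ B ζ δ, ∃ i ≤ η, g β i = x} = ⋃ β ∈ B ζ δ, g β '' Iic η := by
        ext x
        simp
      rw [h1]
      refine lt_of_le_of_lt (mk_biUnion_le _ _) ?_
      have h2 : #(Iic η) < #Λ := by
        rw [← Iio_insert]
        refine lt_of_le_of_lt mk_insert_le ?_
        exact add_lt_of_lt hs.unc.le (hs.seg _) (one_lt_aleph0.trans hs.unc)
      refine lt_of_le_of_lt (mul_le_mul' le_rfl (ciSup_le' fun i => mk_image_le)) ?_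
      exact mul_lt_of_lt hs.unc.le (hBcard δ) h2
    · intro f D hD
      obtain ⟨α, ⟨⟨hαE, -⟩, hα1⟩, ⟨hα2, hα3⟩⟩ := hζ _
        (hs.club_inter2 (hs.club_limPt hD.1) (hs.club_closure f))
      have hn : ∀ β, ∃ β' k, β < α → β' ∈ B ζ α ∧ β < β' ∧ (∃ i ≤ k, g β' i = β) ∧
          ∃ i ≤ k, g β' i = f β := by
        intro β
        by_cases h : β < α
        · obtain ⟨β', h1, h2⟩ := hα1 (max β (f β)) (max_lt h (hα3 β h))
          obtain ⟨i, hi⟩ := hg β' β ((le_max_left _ _).trans h2.le)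
          obtain ⟨j, hj⟩ := hg β' (f β) ((le_max_right _ _).trans h2.le)
          obtain ⟨k, hk1, hk2⟩ := hs.exists_gtΛ i j
          exact ⟨β', k, fun _ => ⟨h1, (le_max_left _ _).trans_lt h2, ⟨i, hk1.le, hi⟩,
            ⟨j, hk2.le, hj⟩⟩⟩
        · obtain ⟨i0⟩ := hs.nonemptyΛ
          exact ⟨β, i0, fun h' => absurd h' h⟩
      choose nx z hnz using hn
      obtain ⟨η, hη⟩ := hgood α hαE univ z (hlim α hαE).2
      have hstep : ∀ b, ∃ d, b < d ∧ (b < α → d < α ∧ d ∈ D ∧ ∃ β, b < β ∧ z β ≤ η ∧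
          nx β < d ∧ β < α) := by
        intro b
        by_cases h : b < α
        · obtain ⟨β, -, h1, h2, h3⟩ := hη b h
          have h4 := hnz β h2
          have h5 : nx β < α := hC.sub α _ (hBsub α _ h4.1)
          obtain ⟨d, hd, h6, h7⟩ := hα2.2 _ h5
          exact ⟨d, h1.trans (h4.2.1.trans h6), fun _ => ⟨h7, hd, β, h1, h3, h6, h2⟩⟩
        · obtain ⟨d, hd⟩ := hs.exists_gt b
          exact ⟨d, hd, fun h' => absurd h' h⟩
      choose next hnext1 hnext2 using hstep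
      obtain ⟨b0, hb0⟩ := (hlim α hαE).1
      obtain ⟨u, δ, hu0, hus, hum, hud, huc⟩ := hs.exists_iter next hnext1 b0
      have huα : ∀ n, u n < α := by
        intro n
        induction n with
        | zero => rw [hu0]; exact hb0
        | succ n ih => rw [hus]; exact (hnext2 _ ih).1
      have hδα : δ ≤ α := by
        by_contra h
        obtain ⟨n, hn⟩ := huc α (not_le.1 h)
        exact absurd (huα n) (not_lt.2 hn.le)
      have hδD : δ ∈ D := by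
        refine hD.2 δ ⟨⟨_, hud 0⟩, fun b hb => ?_⟩
        obtain ⟨n, hn⟩ := huc b hb
        refine ⟨u (n + 1), ?_, hn.trans (hum (Nat.lt_succ_self n)), hud _⟩
        rw [hus]
        exact (hnext2 _ (huα n)).2.1
      have hlB : LimPt (B ζ α) δ := by
        refine ⟨⟨_, hud 0⟩, fun b hb => ?_⟩
        obtain ⟨n, hn⟩ := huc b hb
        obtain ⟨-, -, β, h1, h2, h3, h4⟩ := hnext2 _ (huα n)
        rw [← hus] at h3
        exact ⟨nx β, (hnz β h4).1, hn.trans (h1.trans (hnz β h4).2.1), h3.trans (hud _)⟩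
      have hBδ := hBcoh α δ hδα hlB
      refine ⟨δ, ⟨⟨u, hum, hud, huc⟩, fun b hb => ?_⟩, hδD, η, fun b hb => ?_⟩
      · obtain ⟨β, h1, h2, h3⟩ := hlB.2 b hb
        exact ⟨β, (hBδ β).2 ⟨h1, h3⟩, h2⟩
      · obtain ⟨n, hn⟩ := huc b hb
        obtain ⟨-, -, β, h1, h2, h3, h4⟩ := hnext2 _ (huα n)
        rw [← hus] at h3
        obtain ⟨h5, h6, ⟨i, hi, hi'⟩, ⟨j, hj, hj'⟩⟩ := hnz β h4
        have h7 : nx β ∈ B ζ δ := (hBδ _).2 ⟨h5, h3.trans (hud _)⟩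
        exact ⟨β, ⟨nx β, h7, i, hi.trans h2, hi'⟩, hn.trans h1, h6.trans (h3.trans (hud _)),
          ⟨nx β, h7, j, hj.trans h2, hj'⟩⟩
  obtain ⟨t, ht⟩ := diam_union hs hdia
    (fun t => {α | ∃ f : B ζ α → Λ, StrictMono f ∧ ∀ i, i < t ↔ i ∈ range f}) (by
    intro α _
    exact exists_label _ (hBcard α))
  obtain ⟨C', hC', hav⟩ := avoid_of_antichain hC (S := {δ | CofOmega δ ∧ ∀ b < δ, ∃ β ∈ B ζ δ,
    b < β} ∩ {α | ∃ f : B ζ α → Λ, StrictMono f ∧ ∀ i, i < t ↔ i ∈ range f}) (by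
    rintro α ⟨⟨-, hα1⟩, f, hf1, hf2⟩ β ⟨⟨-, -⟩, f', hf1', hf2'⟩ hβ hl
    obtain ⟨b, hb, hβb⟩ := hα1 β hβ
    refine label_contra hf1 hf1' hf2 hf2' ?_ ⟨b, hb⟩ ?_
    · rintro x ⟨i, hi, hx⟩
      rw [hPP i α β hβ hl] at hx
      exact ⟨i, hi, hx.1⟩
    · rintro x ⟨i, hi, hx⟩
      rw [hPP i α β hβ hl] at hx
      exact lt_trans hx.2 hβb)
  exact ⟨C', _, hC', hav, ht, fun δ hδ => hδ.1.1⟩

end Pool.Agent.Run7.h653
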