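import Pool.Agent.Run7.h653.Diamond

/-!
# The dichotomy for square sequences

Let `C` be a coherent sequence without a thread, and let `E` be a stationary set of points of good
cofinality on which diamond holds. Then there is a coherent sequence which hits all unbounded
sets, or there is a coherent sequence which avoids a stationary subset of `E`.
-/

set_option autoImplicit false
set_option linter.unusedSectionVars false

namespace Pool.Agent.Run7.h653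

open Set Cardinal

universe u

/-- a coherent sequence of clubs -/
structure Coh {K : Type u} [LinearOrder K] (C : K → Set K) : Prop where
  sub : ∀ α, ∀ c ∈ C α, c < α
  closed : ∀ α β, β < α → LimPt (C α) β → β ∈ C α
  unb : ∀ α, LimPt univ α → ∀ b < α, ∃ c ∈ C α, b < c
  coh : ∀ α β, β < α → LimPt (C α) β → ∀ c, (c ∈ C β ↔ c ∈ C α ∧ c < β)

/-- there is no thread through `C` -/
def NoThread {K : Type u} [LinearOrder K] (C : K → Set K) : Prop :=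
  ¬ ∃ D : Set K, Club D ∧ ∀ α, LimPt D α → ∀ c, (c ∈ C α ↔ c ∈ D ∧ c < α)

/-- the coherent sequence `C` hits all unbounded sets -/
def Hits {K : Type u} [LinearOrder K] (C : K → Set K) : Prop :=
  ∀ A : Set K, (∀ b, ∃ a ∈ A, b < a) →
    ∃ α, LimPt univ α ∧ ∀ b < α, ∃ β ∈ C α, β ∈ A ∧ b < β ∧ ¬ LimPt (C α) β

/-- the coherent sequence `C` avoids `S` -/
def Avoids {K : Type u} [LinearOrder K] (C : K → Set K) (S : Set K) : Prop :=
  ∀ α β, β < α → LimPt (C α) β → β ∉ S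

variable {K Λ : Type u} [LinearOrder K] [WellFoundedLT K] [LinearOrder Λ] [WellFoundedLT Λ]

/-- `β` is an element of `C α` such that the `i`-th element of `β + 1` is in `G` and above the
supremum of `C α ∩ β`. -/
def PP (C : K → Set K) (G : Set K) (g : K → Λ → K) (i : Λ) (α : K) : Set K :=
  {β | β ∈ C α ∧ g β i ≤ β ∧ g β i ∈ G ∧ ∃ b < g β i, ∀ c ∈ C α, c < β → c ≤ b}

theorem Coh.limPt_of {C : K → Set K} (hC : Coh C) {α β γ : K} (hβ : β < α)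
    (h : LimPt (C α) β) (hγ : γ < β) (h' : LimPt (C α) γ) : LimPt (C β) γ := by
  refine ⟨h'.1, fun b hb => ?_⟩
  obtain ⟨c, hc, h1, h2⟩ := h'.2 b hb
  exact ⟨c, (hC.coh α β hβ h c).2 ⟨hc, h2.trans hγ⟩, h1, h2⟩

theorem Coh.limPt_up {C : K → Set K} (hC : Coh C) {α β γ : K} (hβ : β < α)
    (h : LimPt (C α) β) (h' : LimPt (C β) γ) : LimPt (C α) γ := by
  refine ⟨h'.1, fun b hb => ?_⟩
  obtain ⟨c, hc, h1, h2⟩ := h'.2 b hb
  exact ⟨c, ((hC.coh α β hβ h c).1 hc).1, h1, h2⟩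

/-- Since `C` has no thread, for almost all limit `α` unboundedly many of the gaps of `C α` contain
an element of the given unbounded set `G`. -/
theorem step0 (hs : Setup K Λ) {C : K → Set K} (hC : Coh C) (hnt : NoThread C) {G : Set K}
    (hG : ∀ b, ∃ c ∈ G, b < c) (g : K → Λ → K) (hg : ∀ a, ∀ b ≤ a, ∃ i, g a i = b) :
    ¬ Stat {α | LimPt univ α ∧ ∃ ε < α, ∀ i, ∀ β ∈ PP C G g i α, β ≤ ε} := by
  intro hst
  have h1 : ∀ α, ∃ ε, (LimPt univ α ∧ ∃ ε < α, ∀ i, ∀ β ∈ PP C G g i α, β ≤ ε) →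
      ε < α ∧ ∀ i, ∀ β ∈ PP C G g i α, β ≤ ε := by
    intro α
    by_cases h : (LimPt univ α ∧ ∃ ε < α, ∀ i, ∀ β ∈ PP C G g i α, β ≤ ε)
    · obtain ⟨ε, h2, h3⟩ := h.2
      exact ⟨ε, fun _ => ⟨h2, h3⟩⟩
    · exact ⟨α, fun h' => absurd h' h⟩
  choose ε hε using h1
  obtain ⟨e, he⟩ := hs.fodor hst ε (fun a ha => (hε a ha).1)
  -- all elements of `G` above `e` are limit points of the `C α` in question
  have key : ∀ x ∈ G, e < x → ∀ α, α ∈ {a | a ∈ {α | LimPt univ α ∧ ∃ ε < α, ∀ i,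
      ∀ β ∈ PP C G g i α, β ≤ ε} ∧ ε a = e} → x < α → LimPt (C α) x := by
    intro x hxG hex α hα hxα
    by_contra hno
    have h2 : ∃ b < x, ∀ c ∈ C α, b < c → x ≤ c := by
      unfold LimPt at hno
      push Not at hno
      exact hno ⟨e, hex⟩
    obtain ⟨b, hb, hb2⟩ := h2
    have hne : {c | c ∈ C α ∧ x ≤ c}.Nonempty := by
      obtain ⟨c, hc, hc2⟩ := hC.unb α hα.1.1 x hxα
      exact ⟨c, hc, hc2.le⟩
    set β := wellFounded_lt.min _ hne with hβ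
    have hβm : β ∈ C α ∧ x ≤ β := wellFounded_lt.min_mem _ hne
    obtain ⟨i, hi⟩ := hg β x hβm.2
    have h3 : β ∈ PP C G g i α := by
      refine ⟨hβm.1, by rw [hi]; exact hβm.2, by rw [hi]; exact hxG, b, by rw [hi]; exact hb, ?_⟩
      intro c hc hcβ
      by_contra hbc
      have h4 := hb2 c hc (not_le.1 hbc)
      exact wellFounded_lt.not_lt_min _ (show c ∈ {c | c ∈ C α ∧ x ≤ c} from ⟨hc, h4⟩) hcβ
    have h5 := (hε α hα.1).2 i β h3
    rw [hα.2] at h5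
    exact absurd (lt_of_lt_of_le hex hβm.2) (not_lt.2 h5)
  apply hnt
  refine ⟨{c | ∃ x ∈ G, e < x ∧ c ∈ C x}, ?_⟩
  have h6 : ∀ x ∈ G, e < x → ∀ c, (c ∈ C x ↔ (c ∈ {c | ∃ x ∈ G, e < x ∧ c ∈ C x}) ∧ c < x) := by
    intro x hx hex c
    constructor
    · intro hc
      exact ⟨⟨x, hx, hex, hc⟩, hC.sub x c hc⟩
    · rintro ⟨⟨y, hy, hey, hc⟩, hcx⟩
      obtain ⟨α, hα, hxyα⟩ := hs.stat_unbdd he (max x y)
      have h7 := key x hx hex α hα ((le_max_left _ _).trans_lt hxyα)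
      have h8 := key y hy hey α hα ((le_max_right _ _).trans_lt hxyα)
      rw [hC.coh α y ((le_max_right _ _).trans_lt hxyα) h8] at hc
      rw [hC.coh α x ((le_max_left _ _).trans_lt hxyα) h7]
      exact ⟨hc.1, hcx⟩
  have h9 : ∀ x ∈ G, e < x → LimPt univ x := by
    intro x hx hex
    obtain ⟨α, hα, hxα⟩ := hs.stat_unbdd he x
    exact (key x hx hex α hα hxα).mono (subset_univ _)
  have h10 : ∀ a, LimPt {c | ∃ x ∈ G, e < x ∧ c ∈ C x} a → ∃ x ∈ G, e < x ∧ a < x ∧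
      LimPt (C x) a := by
    intro a ha
    obtain ⟨x, hx, hxa⟩ := hG (max a e)
    refine ⟨x, hx, (le_max_right _ _).trans_lt hxa, (le_max_left _ _).trans_lt hxa,
      ha.1, fun b hb => ?_⟩
    obtain ⟨c, hc, h11, h12⟩ := ha.2 b hb
    exact ⟨c, (h6 x hx ((le_max_right _ _).trans_lt hxa) c).2
      ⟨hc, h12.trans ((le_max_left _ _).trans_lt hxa)⟩, h11, h12⟩
  refine ⟨⟨?_, ?_⟩, ?_⟩
  · intro b
    obtain ⟨x, hx, hxb⟩ := hG (max b e)
    obtain ⟨c, hc, hbc⟩ := hC.unb x (h9 x hx ((le_max_right _ _).trans_lt hxb)) b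
      ((le_max_left _ _).trans_lt hxb)
    exact ⟨c, ⟨x, hx, (le_max_right _ _).trans_lt hxb, hc⟩, hbc⟩
  · intro a ha
    obtain ⟨x, hx, hex, hax, hlim⟩ := h10 a ha
    exact ⟨x, hx, hex, hC.closed x a hax hlim⟩
  · intro a ha c
    obtain ⟨x, hx, hex, hax, hlim⟩ := h10 a ha
    rw [hC.coh x a hax hlim, h6 x hx hex]
    constructor
    · rintro ⟨⟨h1, h2⟩, h3⟩
      exact ⟨h1, h3⟩
    · rintro ⟨h1, h2⟩
      exact ⟨⟨h1, h2.trans hax⟩, h2⟩

/-- the new point in the gap of `C α` below `β` -/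
def NewPt (C : K → Set K) (Z : K → Set (K × Λ)) (g : K → Λ → K) (i : Λ) (α β δ : K) : Prop :=
  (δ, i) ∈ Z (g β i) ∧ g β i ≤ β ∧ δ < g β i ∧ (∃ b < δ, ∀ c ∈ C α, c < β → c ≤ b) ∧
    ∀ δ', (δ', i) ∈ Z (g β i) → (∃ b < δ', ∀ c ∈ C α, c < β → c ≤ b) → δ ≤ δ'

/-- the sequence with the new points -/
def Ci (C : K → Set K) (Z : K → Set (K × Λ)) (g : K → Λ → K) (i : Λ) (α : K) : Set K :=
  {δ | δ ∈ C α ∨ ∃ β ∈ C α, NewPt C Z g i α β δ}

theorem limPt_Ci {C : K → Set K} {Z : K → Set (K × Λ)} {g : K → Λ → K} {i : Λ} {α β : K}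
    (h : LimPt (Ci C Z g i α) β) : LimPt (C α) β := by
  refine ⟨h.1, fun b hb => ?_⟩
  obtain ⟨d1, hd1, h1, h2⟩ := h.2 b hb
  rcases hd1 with hd1 | ⟨β1, hβ1, h3⟩
  · exact ⟨d1, hd1, h1, h2⟩
  obtain ⟨d2, hd2, h4, h5⟩ := h.2 d1 h2
  rcases hd2 with hd2 | ⟨β2, hβ2, h6⟩
  · exact ⟨d2, hd2, h1.trans h4, h5⟩
  obtain ⟨h31, h32, h33, ⟨b1, h34, h35⟩, h36⟩ := h3
  obtain ⟨h61, h62, h63, ⟨b2, h64, h65⟩, h66⟩ := h6
  rcases lt_trichotomy β1 β2 with hlt | heq | hgt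
  · refine ⟨β1, hβ1, h1.trans (lt_of_lt_of_le h33 h32), ?_⟩
    exact lt_of_le_of_lt (h65 β1 hβ1 hlt) (h64.trans h5)
  · subst heq
    exact absurd (h66 d1 h31 ⟨b1, h34, h35⟩) (not_le.2 h4)
  · exfalso
    have h7 := h35 β2 hβ2 hgt
    have h8 : d2 < d1 := lt_of_lt_of_le h63 (h62.trans (h7.trans h34.le))
    exact absurd h4 (not_lt.2 h8.le)

theorem newPt_congr {C : K → Set K} {Z : K → Set (K × Λ)} {g : K → Λ → K} {i : Λ}
    {α α' β δ : K} (h : ∀ c < β, (c ∈ C α ↔ c ∈ C α')) (hn : NewPt C Z g i α β δ) :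
    NewPt C Z g i α' β δ := by
  obtain ⟨h1, h2, h3, ⟨b, h4, h5⟩, h6⟩ := hn
  refine ⟨h1, h2, h3, ⟨b, h4, fun c hc hcβ => h5 c ((h c hcβ).2 hc) hcβ⟩, ?_⟩
  rintro δ' h7 ⟨b', h8, h9⟩
  exact h6 δ' h7 ⟨b', h8, fun c hc hcβ => h9 c ((h c hcβ).1 hc) hcβ⟩

theorem coh_Ci {C : K → Set K} (hC : Coh C) (Z : K → Set (K × Λ)) (g : K → Λ → K) (i : Λ) :
    Coh (Ci C Z g i) where
  sub := by
    rintro α δ (h | ⟨β, hβ, h1, h2, h3, -⟩)
    · exact hC.sub α δ h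
    · exact (lt_of_lt_of_le h3 h2).trans (hC.sub α β hβ)
  closed := by
    intro α β hβ h
    exact Or.inl (hC.closed α β hβ (limPt_Ci h))
  unb := by
    intro α hα b hb
    obtain ⟨c, hc, hbc⟩ := hC.unb α hα b hb
    exact ⟨c, Or.inl hc, hbc⟩
  coh := by
    intro α β hβ h δ
    have hl := limPt_Ci h
    have hco := hC.coh α β hβ hl
    constructor
    · rintro (h1 | ⟨β1, hβ1, h1⟩)
      · rw [hco] at h1
        exact ⟨Or.inl h1.1, h1.2⟩
      · have h2 := (hco β1).1 hβ1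
        refine ⟨Or.inr ⟨β1, h2.1, newPt_congr (fun c hc => ?_) h1⟩, ?_⟩
        · rw [hco]
          exact ⟨fun h => h.1, fun h => ⟨h, hc.trans h2.2⟩⟩
        · exact (lt_of_lt_of_le h1.2.2.1 h1.2.1).trans h2.2
    · rintro ⟨h1 | ⟨β1, hβ1, h1⟩, h2⟩
      · exact Or.inl ((hco δ).2 ⟨h1, h2⟩)
      · by_cases h3 : β1 < β
        · refine Or.inr ⟨β1, (hco β1).2 ⟨hβ1, h3⟩, newPt_congr (fun c hc => ?_) h1⟩
          rw [hco]
          exact ⟨fun h => ⟨h, hc.trans h3⟩, fun h => h.1⟩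
        · exfalso
          obtain ⟨b, h4, h5⟩ := h1.2.2.2.1
          obtain ⟨c, hc, h6, h7⟩ := hl.2 b (h4.trans h2)
          exact absurd (h5 c hc (lt_of_lt_of_le h7 (not_lt.1 h3))) (not_le.2 h6)

/-- a well-ordered set of size `< λ` is isomorphic to an initial segment of `Λ` -/
theorem exists_label (B : Set K) (hB : #B < #Λ) :
    ∃ (t : Λ) (f : B → Λ), StrictMono f ∧ ∀ i, i < t ↔ i ∈ range f := by
  have h1 : Ordinal.type (· < · : B → B → Prop) < Ordinal.type (· < · : Λ → Λ → Prop) := by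
    by_contra hcon
    have h2 := Ordinal.card_le_card (not_lt.1 hcon)
    rw [Ordinal.card_type, Ordinal.card_type] at h2
    exact absurd hB (not_lt.2 h2)
  obtain ⟨f⟩ := Ordinal.type_lt_iff.1 h1
  refine ⟨f.top, f, fun a b hab => f.map_rel_iff.2 hab, fun i => ?_⟩
  exact f.mem_range_iff_rel.symm

theorem label_contra {B B' : Set K} {t : Λ} {f : B → Λ} {f' : B' → Λ} (hf : StrictMono f)
    (hf' : StrictMono f') (ht : ∀ i, i < t ↔ i ∈ range f) (ht' : ∀ i, i < t ↔ i ∈ range f')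
    (hBB : B' ⊆ B) (b : B) (hb : ∀ x ∈ B', x < b.1) : False := by
  have h1 : ∀ x : B, ∃ y : B', f' y = f x := fun x => by
    have h2 := (ht (f x)).2 ⟨x, rfl⟩
    exact (ht' _).1 h2
  choose h hh using h1
  let k : B → B := fun x => ⟨(h x).1, hBB (h x).2⟩
  have hk : StrictMono k := by
    intro x y hxy
    have h3 : f' (h x) < f' (h y) := by
      rw [hh, hh]
      exact hf hxy
    exact hf'.lt_iff_lt.1 h3
  have h4 : b ≤ k b := hk.le_apply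
  exact absurd (hb _ (h b).2) (not_lt.2 h4)

theorem dichotomy (hs : Setup K Λ) {C : K → Set K} (hC : Coh C) (hnt : NoThread C)
    (E : Set K) (hgood : ∀ δ ∈ E, GoodCof Λ δ) (hlim : ∀ δ ∈ E, LimPt univ δ)
    (hE : Stat E) (hZ : Diam Λ E) :
    (∃ C' : K → Set K, Coh C' ∧ Hits C') ∨
    (∃ (C' : K → Set K) (S : Set K), Coh C' ∧ Stat S ∧ S ⊆ E ∧ Avoids C' S) := by
  classical
  obtain ⟨Z, hZ⟩ := hZ
  choose g hg using hs.small
  by_cases hA : ∃ i, Hits (Ci C Z g i)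
  · obtain ⟨i, hi⟩ := hA
    exact Or.inl ⟨_, coh_Ci hC Z g i, hi⟩
  right
  push Not at hA
  unfold Hits at hA
  push Not at hA
  choose A hA1 hA2 using hA
  -- the points at which all the counterexamples are guessed
  let G : Set K := {γ | (∀ δ < γ, ∀ i, ((δ, i) ∈ Z γ ↔ δ ∈ A i)) ∧ ∀ i, LimPt (A i) γ}
  have hG : ∀ b, ∃ c ∈ G, b < c := by
    intro b
    obtain ⟨δ, hδE, ⟨hδ1, hδ2⟩, hδ3⟩ := hZ {p | p.1 ∈ A p.2} _
      (hs.club_inter2 (hs.club_inter _ (fun i => hs.club_limPt (hA1 i))) (hs.club_Ioi b))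
    rw [mem_iInter] at hδ1
    exact ⟨δ, ⟨fun γ hγ i => hδ3 γ hγ i, hδ1⟩, hδ2⟩
  have hbdd : ∀ i α, LimPt univ α → ∃ b < α, ∀ β ∈ PP C G g i α, β ≤ b := by
    intro i α hα
    by_contra hcon
    push Not at hcon
    obtain ⟨b, hb, hb2⟩ := hA2 i α hα
    obtain ⟨c, hc, hbc⟩ := hC.unb α hα b hb
    obtain ⟨β, ⟨hβ1, hβ2, hβ3, b', hb', hb''⟩, hβ⟩ := hcon c (hC.sub α c hc)
    obtain ⟨δ, hδ, h1, h2⟩ := (hβ3.2 i).2 b' hb'
    have hne : {δ' | (δ', i) ∈ Z (g β i) ∧ ∃ b < δ', ∀ c ∈ C α, c < β → c ≤ b}.Nonempty :=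
      ⟨δ, (hβ3.1 δ h2 i).2 hδ, b', h1, hb''⟩
    set δ0 := wellFounded_lt.min _ hne with hδ0
    have hmem : δ0 ∈ {δ' | (δ', i) ∈ Z (g β i) ∧ ∃ b < δ', ∀ c ∈ C α, c < β → c ≤ b} :=
      wellFounded_lt.min_mem _ hne
    obtain ⟨h3, b0, h4, h5⟩ := hmem
    have hmin : ∀ δ' ∈ {δ' | (δ', i) ∈ Z (g β i) ∧ ∃ b < δ', ∀ c ∈ C α, c < β → c ≤ b},
        δ0 ≤ δ' := fun δ' h => not_lt.1 (wellFounded_lt.not_lt_min _ h)
    have h6 : δ0 < g β i := lt_of_le_of_lt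
      (hmin δ ⟨(hβ3.1 δ h2 i).2 hδ, b', h1, hb''⟩) h2
    have h7 : δ0 ∈ Ci C Z g i α :=
      Or.inr ⟨β, hβ1, h3, hβ2, h6, ⟨b0, h4, h5⟩, fun δ' h8 h9 => hmin δ' ⟨h8, h9⟩⟩
    have h8 : δ0 ∈ A i := (hβ3.1 δ0 h6 i).1 h3
    have h9 : b < δ0 := hbc.trans_le ((h5 c hc hβ).trans h4.le)
    have h10 := limPt_Ci (hb2 δ0 h7 h8 h9)
    obtain ⟨c', hc', h11, h12⟩ := h10.2 b0 h4
    exact absurd (h5 c' hc' (h12.trans (lt_of_lt_of_le h6 hβ2))) (not_le.2 h11)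
  have hPP : ∀ i α β, β < α → LimPt (C α) β → PP C G g i β = PP C G g i α ∩ Iio β := by
    intro i α β hβ hl
    have hco := hC.coh α β hβ hl
    ext x
    constructor
    · rintro ⟨h1, h2, h3, b, h4, h5⟩
      refine ⟨⟨((hco x).1 h1).1, h2, h3, b, h4, fun c hc hcx => ?_⟩, ((hco x).1 h1).2⟩
      exact h5 c ((hco c).2 ⟨hc, hcx.trans ((hco x).1 h1).2⟩) hcx
    · rintro ⟨⟨h1, h2, h3, b, h4, h5⟩, h6⟩
      refine ⟨(hco x).2 ⟨h1, h6⟩, h2, h3, b, h4, fun c hc hcx => ?_⟩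
      exact h5 c ((hco c).1 hc).1 hcx
  have hfin : ∀ i α, (PP C G g i α).Finite := by
    intro i α
    by_contra hinf
    have hne : {a | (PP C G g i α ∩ Iio a).Infinite}.Nonempty := by
      refine ⟨α, ?_⟩
      have h1 : PP C G g i α ∩ Iio α = PP C G g i α :=
        inter_eq_left.2 (fun β hβ => hC.sub α β hβ.1)
      show (PP C G g i α ∩ Iio α).Infinite
      rw [h1]
      exact hinf
    set a := wellFounded_lt.min _ hne with ha
    have hainf : (PP C G g i α ∩ Iio a).Infinite := wellFounded_lt.min_mem _ hne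
    have hmin : ∀ b < a, (PP C G g i α ∩ Iio b).Finite := by
      intro b hb
      by_contra h
      exact wellFounded_lt.not_lt_min _ (show b ∈ {a | (PP C G g i α ∩ Iio a).Infinite} from h) hb
    have hlp : LimPt (PP C G g i α) a := by
      obtain ⟨x, hx⟩ := hainf.nonempty
      refine ⟨⟨x, hx.2⟩, fun b hb => ?_⟩
      by_contra hno
      push Not at hno
      apply hainf
      refine ((hmin b hb).union (finite_singleton b)).subset ?_
      rintro y ⟨hy1, hy2⟩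
      rcases lt_trichotomy y b with h | h | h
      · exact Or.inl ⟨hy1, h⟩
      · exact Or.inr h
      · exact absurd hy2 (not_lt.2 (hno y hy1 h))
    have haα : a ≤ α := by
      by_contra h
      obtain ⟨c, hc, h1, h2⟩ := hlp.2 α (not_le.1 h)
      exact absurd (hC.sub α c hc.1) (not_lt.2 h1.le)
    have hlC : LimPt (C α) a := hlp.mono (fun x hx => hx.1)
    rcases haα.lt_or_eq with h | h
    · obtain ⟨b, hb, hb2⟩ := hbdd i a (hlp.mono (subset_univ _))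
      obtain ⟨c, hc, h1, h2⟩ := hlp.2 b hb
      have h3 := hb2 c (by rw [hPP i α a h hlC]; exact ⟨hc, h2⟩)
      exact absurd h1 (not_lt.2 h3)
    · obtain ⟨b, hb, hb2⟩ := hbdd i a (hlp.mono (subset_univ _))
      obtain ⟨c, hc, h1, h2⟩ := hlp.2 b hb
      have h3 := hb2 c (by rw [h]; exact hc)
      exact absurd h1 (not_lt.2 h3)
  -- almost all points of `E` are good
  have hS0 : Stat {α | α ∈ E ∧ ∀ b < α, ∃ i, ∃ β ∈ PP C G g i α, b < β} := by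
    have h1 := step0 hs hC hnt hG g hg
    unfold Stat at h1
    push Not at h1
    obtain ⟨D, hD, hD2⟩ := h1
    refine (hs.stat_inter hE hD).mono ?_
    rintro α ⟨hαE, hαD⟩
    refine ⟨hαE, fun b hb => ?_⟩
    by_contra hno
    push Not at hno
    exact hD2 α ⟨hlim α hαE, b, hb, hno⟩ hαD
  let B : Λ → K → Set K := fun ζ α => {β | ∃ i ≤ ζ, β ∈ PP C G g i α}
  obtain ⟨ζ, hζ⟩ := hs.stat_union hS0 (fun ζ => {α | ∀ b < α, ∃ β ∈ B ζ α, b < β}) (by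
    rintro α ⟨hαE, hα⟩
    have hz : ∀ β, ∃ i, (∃ i, β ∈ PP C G g i α) → β ∈ PP C G g i α := by
      intro β
      by_cases h : ∃ i, β ∈ PP C G g i α
      · obtain ⟨i, hi⟩ := h
        exact ⟨i, fun _ => hi⟩
      · obtain ⟨i0⟩ := hs.nonemptyΛ
        exact ⟨i0, fun h' => absurd h' h⟩
    choose z hz using hz
    obtain ⟨ζ, hζ⟩ := hgood α hαE {β | ∃ i, β ∈ PP C G g i α} z (by
      intro b hb
      obtain ⟨i, β, hβ, hbβ⟩ := hα b hb
      exact ⟨β, ⟨i, hβ⟩, hbβ, hC.sub α β hβ.1⟩)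
    refine ⟨ζ, fun b hb => ?_⟩
    obtain ⟨β, hβ, h1, h2, h3⟩ := hζ b hb
    exact ⟨β, ⟨z β, h3, hz β hβ⟩, h1⟩)
  have hBcard : ∀ α, #(B ζ α) < #Λ := by
    intro α
    have h1 : B ζ α = ⋃ i ∈ Iic ζ, PP C G g i α := by
      ext x
      simp [B]
    rw [h1]
    refine lt_of_le_of_lt (mk_biUnion_le _ _) ?_
    refine mul_lt_of_lt hs.unc.le ?_ ?_
    · rw [← Iio_insert]
      refine lt_of_le_of_lt mk_insert_le ?_
      exact add_lt_of_lt hs.unc.le (hs.seg _) (one_lt_aleph0.trans hs.unc)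
    · refine lt_of_le_of_lt (ciSup_le' fun i => ?_) hs.unc
      have := (hfin i.1 α).lt_aleph0
      exact this.le
  obtain ⟨t, ht⟩ := hs.stat_union hζ
    (fun t => {α | ∃ f : B ζ α → Λ, StrictMono f ∧ ∀ i, i < t ↔ i ∈ range f}) (by
    intro α _
    exact exists_label _ (hBcard α))
  set S : Set K := {α | α ∈ E ∧ ∀ b < α, ∃ i, ∃ β ∈ PP C G g i α, b < β} ∩
    {α | ∀ b < α, ∃ β ∈ B ζ α, b < β} ∩
    {α | ∃ f : B ζ α → Λ, StrictMono f ∧ ∀ i, i < t ↔ i ∈ range f} with hS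
  have hanti : ∀ α ∈ S, ∀ β ∈ S, β < α → ¬ LimPt (C α) β := by
    rintro α ⟨⟨-, hα1⟩, f, hf1, hf2⟩ β ⟨⟨-, -⟩, f', hf1', hf2'⟩ hβ hl
    obtain ⟨b, hb, hβb⟩ := hα1 β hβ
    refine label_contra hf1 hf1' hf2 hf2' ?_ ⟨b, hb⟩ ?_
    · rintro x ⟨i, hi, hx⟩
      rw [hPP i α β hβ hl] at hx
      exact ⟨i, hi, hx.1⟩
    · rintro x ⟨i, hi, hx⟩
      rw [hPP i α β hβ hl] at hx
      exact lt_trans hx.2 hβb
  refine ⟨fun α => {c | c ∈ C α ∧ ∀ γ ∈ S, γ < α → LimPt (C α) γ → γ < c}, S, ?_, ht,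
    fun α hα => hα.1.1.1, ?_⟩
  · have hup : ∀ {α β}, LimPt {c | c ∈ C α ∧ ∀ γ ∈ S, γ < α → LimPt (C α) γ → γ < c} β →
        LimPt (C α) β := fun h => h.mono (fun c hc => hc.1)
    have hgt : ∀ {α β}, LimPt {c | c ∈ C α ∧ ∀ γ ∈ S, γ < α → LimPt (C α) γ → γ < c} β →
        ∀ γ ∈ S, γ < α → LimPt (C α) γ → γ < β := by
      intro α β h γ hγ1 hγ2 hγ3
      obtain ⟨b, hb⟩ := h.1
      obtain ⟨c, hc, h1, h2⟩ := h.2 b hb
      exact (hc.2 γ hγ1 hγ2 hγ3).trans h2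
    refine ⟨?_, ?_, ?_, ?_⟩
    · intro α c hc
      exact hC.sub α c hc.1
    · intro α β hβ h
      exact ⟨hC.closed α β hβ (hup h), hgt h⟩
    · intro α hα b hb
      by_cases hex : ∃ γ ∈ S, γ < α ∧ LimPt (C α) γ
      · obtain ⟨γ, hγ1, hγ2, hγ3⟩ := hex
        obtain ⟨c, hc, hbc⟩ := hC.unb α hα (max b γ) (max_lt hb hγ2)
        refine ⟨c, ⟨hc, fun γ' h1 h2 h3 => ?_⟩, (le_max_left _ _).trans_lt hbc⟩
        have h4 : γ' = γ := by
          rcases lt_trichotomy γ' γ with h | h | h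
          · exact absurd (hC.limPt_of hγ2 hγ3 h h3) (hanti γ hγ1 γ' h1 h)
          · exact h
          · exact absurd (hC.limPt_of h2 h3 h hγ3) (hanti γ' h1 γ hγ1 h)
        rw [h4]
        exact (le_max_right _ _).trans_lt hbc
      · push Not at hex
        obtain ⟨c, hc, hbc⟩ := hC.unb α hα b hb
        exact ⟨c, ⟨hc, fun γ' h1 h2 h3 => absurd h3 (hex γ' h1 h2)⟩, hbc⟩
    · intro α β hβ h c
      have hl := hup h
      have hco := hC.coh α β hβ hl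
      constructor
      · rintro ⟨h1, h2⟩
        refine ⟨⟨((hco c).1 h1).1, fun γ h3 h4 h5 => ?_⟩, ((hco c).1 h1).2⟩
        have h6 := hgt h γ h3 h4 h5
        exact h2 γ h3 h6 (hC.limPt_of hβ hl h6 h5)
      · rintro ⟨⟨h1, h2⟩, h3⟩
        refine ⟨(hco c).2 ⟨h1, h3⟩, fun γ h4 h5 h6 => ?_⟩
        exact h2 γ h4 (h5.trans hβ) (hC.limPt_up hβ hl h6)
  · intro α β hβ h hβS
    have hl : LimPt (C α) β := h.mono (fun c hc => hc.1)
    obtain ⟨b, hb⟩ := h.1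
    obtain ⟨c, hc, h1, h2⟩ := h.2 b hb
    exact absurd (hc.2 β hβS hβ hl) (not_lt.2 h2.le)

end Pool.Agent.Run7.h653
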