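import Mathlib

set_option autoImplicit false

open Set Cardinal

namespace Pool.Agent.Run7.h653.Rigid

/-- Monotone self maps of the reals. -/
abbrev Mono : Type := {h : ℝ → ℝ // Monotone h}

/-- A monotone map is coded by its values at the rationals and its graph over the countable set
of discontinuities. -/
noncomputable def code (h : Mono) : (ℚ → ℝ) × {t : Set (ℝ × ℝ) // #t ≤ ℵ₀} :=
  (fun q => h.1 (q : ℝ),
    ⟨(fun x => (x, h.1 x)) '' {x | ¬ ContinuousAt h.1 x}, by
      refine Cardinal.mk_image_le.trans ?_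
      exact (Cardinal.le_aleph0_iff_set_countable).2 h.2.countable_not_continuousAt⟩)

theorem code_injective : Function.Injective code := by
  intro h k e
  have e1 : ∀ q : ℚ, h.1 (q : ℝ) = k.1 (q : ℝ) := fun q => congrFun (congrArg Prod.fst e) q
  have e2 : (fun x => (x, h.1 x)) '' {x | ¬ ContinuousAt h.1 x}
      = (fun x => (x, k.1 x)) '' {x | ¬ ContinuousAt k.1 x} :=
    congrArg Subtype.val (congrArg Prod.snd e)
  apply Subtype.ext
  funext x
  by_cases hx : ContinuousAt h.1 x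
  · by_cases kx : ContinuousAt k.1 x
    · -- both continuous
      have hd : DenseRange ((↑) : ℚ → ℝ) := Rat.denseRange_cast
      have hcl : x ∈ closure (range ((↑) : ℚ → ℝ)) := hd x
      obtain ⟨u, hu, hux⟩ := mem_closure_iff_seq_limit.1 hcl
      have t1 := (hx.tendsto).comp hux
      have t2 := (kx.tendsto).comp hux
      have : (h.1 ∘ u) = (k.1 ∘ u) := by
        funext n
        obtain ⟨q, hq⟩ := hu n
        simp only [Function.comp]
        rw [← hq]
        exact e1 q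
      rw [this] at t1
      exact tendsto_nhds_unique t1 t2
    · have : (x, k.1 x) ∈ (fun x => (x, h.1 x)) '' {x | ¬ ContinuousAt h.1 x} := by
        rw [e2]; exact ⟨x, kx, rfl⟩
      obtain ⟨y, hy, hyx⟩ := this
      have h1 : y = x := congrArg Prod.fst hyx
      have h2 : h.1 y = k.1 x := congrArg Prod.snd hyx
      rw [h1] at h2
      exact h2
  · have : (x, h.1 x) ∈ (fun x => (x, k.1 x)) '' {x | ¬ ContinuousAt k.1 x} := by
      rw [← e2]; exact ⟨x, hx, rfl⟩
    obtain ⟨y, hy, hyx⟩ := this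
    have h1 : y = x := congrArg Prod.fst hyx
    have h2 : k.1 y = h.1 x := congrArg Prod.snd hyx
    rw [h1] at h2
    exact h2.symm

theorem mk_mono_le : #Mono ≤ 𝔠 := by
  refine (Cardinal.mk_le_of_injective code_injective).trans ?_
  rw [Cardinal.mk_prod]
  simp only [Cardinal.lift_id]
  have h1 : #(ℚ → ℝ) ≤ 𝔠 := by
    rw [Cardinal.mk_pi]
    simp [Cardinal.mk_real]
  have h2 : #{t : Set (ℝ × ℝ) // #t ≤ ℵ₀} ≤ 𝔠 := by
    refine (Cardinal.mk_bounded_set_le (ℝ × ℝ) ℵ₀).trans ?_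
    rw [Cardinal.mk_prod]
    simp only [Cardinal.lift_id, Cardinal.mk_real, Cardinal.continuum_mul_self]
    rw [max_eq_left Cardinal.aleph0_le_continuum]
    simp
  calc _ ≤ 𝔠 * 𝔠 := mul_le_mul' h1 h2
    _ = 𝔠 := Cardinal.continuum_mul_self

/-- Tasks. -/
abbrev Task : Type := (ℕ × ℕ) × (ℤ → Mono × Mono) × ℝ

theorem mk_task : #Task = 𝔠 := by
  apply le_antisymm
  · have h1 : #(ℤ → Mono × Mono) ≤ 𝔠 := by
      have : #(Mono × Mono) ≤ 𝔠 := by
        rw [Cardinal.mk_prod]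
        simp only [Cardinal.lift_id]
        calc _ ≤ 𝔠 * 𝔠 := mul_le_mul' mk_mono_le mk_mono_le
          _ = 𝔠 := Cardinal.continuum_mul_self
      rw [← Cardinal.power_def]
      calc #(Mono × Mono) ^ #ℤ ≤ 𝔠 ^ #ℤ := Cardinal.power_le_power_right this
        _ = 𝔠 := by simp
    rw [Cardinal.mk_prod, Cardinal.mk_prod, Cardinal.mk_prod]
    simp only [Cardinal.lift_id]
    calc _ ≤ (ℵ₀ * ℵ₀) * (𝔠 * 𝔠) := by
          refine mul_le_mul' (by simp) (mul_le_mul' h1 (by simp [Cardinal.mk_real]))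
      _ = 𝔠 := by simp
  · rw [← Cardinal.mk_real]
    exact Cardinal.mk_le_of_injective
      (f := fun r : ℝ => (((0, 0), (fun _ => (⟨id, monotone_id⟩, ⟨id, monotone_id⟩)), r) : Task))
      (fun a b h => by simpa using h)

/-- The well ordered index set, of order type the least ordinal of size the continuum. -/
abbrev W : Type := (𝔠 : Cardinal.{0}).ord.ToType

theorem mk_W : #W = 𝔠 := Cardinal.mk_ord_toType _

theorem mk_Iio_W (i : W) : #(Iio i) < 𝔠 := by
  have := Cardinal.mk_Iio_lt i (by simp)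
  rwa [mk_W] at this

theorem mk_Iic_W (i : W) : #(Iic i) < 𝔠 := by
  have h : (Iic i) ⊆ insert i (Iio i) := fun x hx => by
    rcases (le_iff_lt_or_eq.1 (show x ≤ i from hx)) with h | h
    · exact Or.inr h
    · exact Or.inl h
  refine (Cardinal.mk_le_mk_of_subset h).trans_lt ?_
  refine (Cardinal.mk_insert_le).trans_lt ?_
  exact Cardinal.add_lt_of_lt Cardinal.aleph0_le_continuum (mk_Iio_W i)
    (Cardinal.nat_lt_continuum 1 |>.trans_le' (by simp))

theorem exists_enum : Nonempty (W ≃ Task) := by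
  rw [← Cardinal.eq, mk_W, mk_task]

/-- The bad set at stage `α`, given the earlier points. -/
def Bad (e : W ≃ Task) (α : W) (d : (γ : W) → γ < α → ℝ) : Set ℝ :=
  range (fun p : (Iio α) × (Iio α) × ℤ => ((e p.1.1).2.1 p.2.2).1.1 (d p.2.1.1 p.2.1.2)) ∪
  range (fun p : (Iio α) × (Iio α) × ℤ => ((e p.1.1).2.1 p.2.2).2.1 (d p.2.1.1 p.2.1.2)) ∪
  range (fun p : Iio α => d p.1 p.2)

theorem mk_Bad (e : W ≃ Task) (α : W) (d : (γ : W) → γ < α → ℝ) : #(Bad e α d) < 𝔠 := by
  have h0 := mk_Iio_W α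
  have h1 : #((Iio α) × (Iio α) × ℤ) < 𝔠 := by
    rw [Cardinal.mk_prod, Cardinal.mk_prod]
    simp only [Cardinal.lift_id]
    refine Cardinal.mul_lt_of_lt Cardinal.aleph0_le_continuum h0 ?_
    refine Cardinal.mul_lt_of_lt Cardinal.aleph0_le_continuum h0 ?_
    simpa using Cardinal.aleph0_lt_continuum
  unfold Bad
  refine (Cardinal.mk_union_le _ _).trans_lt ?_
  refine Cardinal.add_lt_of_lt Cardinal.aleph0_le_continuum ?_
    (Cardinal.mk_range_le.trans_lt h0)
  refine (Cardinal.mk_union_le _ _).trans_lt ?_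
  exact Cardinal.add_lt_of_lt Cardinal.aleph0_le_continuum
    (Cardinal.mk_range_le.trans_lt h1) (Cardinal.mk_range_le.trans_lt h1)

theorem exists_good (e : W ≃ Task) (α : W) (d : (γ : W) → γ < α → ℝ) :
    ∃ x : ℝ, x ∈ Ioo (0 : ℝ) 1 ∧ x ∉ Bad e α d := by
  by_contra hcon
  push Not at hcon
  have h : Ioo (0 : ℝ) 1 ⊆ Bad e α d := hcon
  have := Cardinal.mk_le_mk_of_subset h
  rw [Cardinal.mk_Ioo_real one_pos] at this
  exact absurd (mk_Bad e α d) (not_lt.2 this)

/-- The transfinite sequence of points. -/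
noncomputable def pt (e : W ≃ Task) : W → ℝ :=
  WellFounded.fix (wellFounded_lt (α := W)) (fun α d => (exists_good e α d).choose)

theorem pt_eq (e : W ≃ Task) (α : W) :
    pt e α = (exists_good e α (fun γ _ => pt e γ)).choose := by
  unfold pt
  rw [WellFounded.fix_eq]

theorem pt_mem (e : W ≃ Task) (α : W) : pt e α ∈ Ioo (0 : ℝ) 1 := by
  rw [pt_eq]
  exact (exists_good e α (fun γ _ => pt e γ)).choose_spec.1

theorem pt_not_bad (e : W ≃ Task) (α : W) : pt e α ∉ Bad e α (fun γ _ => pt e γ) := by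
  rw [pt_eq e α]
  exact (exists_good e α (fun γ _ => pt e γ)).choose_spec.2

theorem pt_ne_of_lt (e : W ≃ Task) {γ α : W} (h : γ < α) : pt e α ≠ pt e γ := by
  intro h'
  apply pt_not_bad e α
  right
  exact ⟨⟨γ, h⟩, h'.symm⟩

theorem pt_injective (e : W ≃ Task) : Function.Injective (pt e) := by
  intro a b h
  rcases lt_trichotomy a b with h' | h' | h'
  · exact absurd h.symm (pt_ne_of_lt e h')
  · exact h'
  · exact absurd h (pt_ne_of_lt e h')

theorem pt_ne_left (e : W ≃ Task) {β γ α : W} (hβ : β < α) (hγ : γ < α) (i : ℤ) :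
    pt e α ≠ ((e β).2.1 i).1.1 (pt e γ) := by
  intro h'
  apply pt_not_bad e α
  left; left
  exact ⟨(⟨β, hβ⟩, ⟨γ, hγ⟩, i), h'.symm⟩

theorem pt_ne_right (e : W ≃ Task) {β γ α : W} (hβ : β < α) (hγ : γ < α) (i : ℤ) :
    pt e α ≠ ((e β).2.1 i).2.1 (pt e γ) := by
  intro h'
  apply pt_not_bad e α
  left; right
  exact ⟨(⟨β, hβ⟩, ⟨γ, hγ⟩, i), h'.symm⟩

theorem exists_above (e : W ≃ Task) (n j : ℕ) (β : W) : ∃ α, β < α ∧ (e α).1 = (n, j) := by
  by_contra hcon
  push Not at hcon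
  have hle : ∀ r : ℝ, e.symm ((n, j), (fun _ => (⟨id, monotone_id⟩, ⟨id, monotone_id⟩)), r) ∈ Iic β := by
    intro r
    by_contra hr
    have : β < e.symm ((n, j), (fun _ => (⟨id, monotone_id⟩, ⟨id, monotone_id⟩)), r) := not_le.1 hr
    exact hcon _ this (by simp)
  have h1 : #ℝ ≤ #(Iic β) := Cardinal.mk_le_of_injective
    (f := fun r : ℝ => (⟨_, hle r⟩ : Iic β)) (fun a b h => by simpa using h)
  rw [Cardinal.mk_real] at h1
  exact absurd (mk_Iic_W β) (not_lt.2 h1)

/-- Countably many doubly indexed pairwise disjoint sets of reals such that no countable family of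
strictly increasing partial maps between their points moves all points of any one of them. -/
theorem exists_rigid : ∃ D : ℕ → ℕ → Set ℝ,
    (∀ n j n' j' x, x ∈ D n j → x ∈ D n' j' → n = n' ∧ j = j') ∧
    ∀ n j, ∀ (X : ℤ → Set ℝ) (f : ℤ → ℝ → ℝ), (∀ v, StrictMonoOn (f v) (X v)) →
      (∀ v, ∀ x ∈ X v, ∃ a b, x ∈ D a b) → (∀ v, ∀ x ∈ X v, ∃ a b, f v x ∈ D a b) →
      ∃ d ∈ D n j, ∀ v, d ∈ X v → f v d = d := by
  obtain ⟨e⟩ := exists_enum
  refine ⟨fun n j => pt e '' {α | (e α).1 = (n, j)}, ?_, ?_⟩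
  · rintro n j n' j' x ⟨α, hα, rfl⟩ ⟨β, hβ, h⟩
    have h' : β = α := pt_injective e h
    have hα' : (e α).1 = (n, j) := hα
    have hβ : (e β).1 = (n', j') := hβ
    rw [h', hα'] at hβ
    exact ⟨congrArg Prod.fst hβ, congrArg Prod.snd hβ⟩
  · intro n j X f hf hX hfX
    have hX01 : ∀ v, X v ⊆ Ioo (0 : ℝ) 1 := by
      intro v x hx
      obtain ⟨a, b, α, _, rfl⟩ := hX v x hx
      exact pt_mem e α
    have hfX01 : ∀ v, f v '' X v ⊆ Ioo (0 : ℝ) 1 := by
      rintro v _ ⟨x, hx, rfl⟩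
      obtain ⟨a, b, α, _, h⟩ := hfX v x hx
      rw [← h]
      exact pt_mem e α
    have hF : ∀ v, ∃ g : Mono, EqOn (f v) g.1 (X v) := by
      intro v
      obtain ⟨g, hg, hg'⟩ := (hf v).monotoneOn.exists_monotone_extension
        (bddBelow_Ioo.mono (hfX01 v)) (bddAbove_Ioo.mono (hfX01 v))
      exact ⟨⟨g, hg⟩, hg'⟩
    have hG : ∀ v, ∃ g : Mono, ∀ x ∈ X v, g.1 (f v x) = x := by
      intro v
      have hinj := (hf v).injOn
      have hl : ∀ x ∈ X v, Function.invFunOn (f v) (X v) (f v x) = x := fun x hx =>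
        hinj.leftInvOn_invFunOn hx
      have hmono : MonotoneOn (Function.invFunOn (f v) (X v)) (f v '' X v) := by
        rintro _ ⟨x, hx, rfl⟩ _ ⟨y, hy, rfl⟩ hxy
        rw [hl x hx, hl y hy]
        exact ((hf v).le_iff_le hx hy).1 hxy
      have him : Function.invFunOn (f v) (X v) '' (f v '' X v) ⊆ Ioo (0 : ℝ) 1 := by
        rintro _ ⟨_, ⟨x, hx, rfl⟩, rfl⟩
        rw [hl x hx]
        exact hX01 v hx
      obtain ⟨g, hg, hg'⟩ := hmono.exists_monotone_extension
        (bddBelow_Ioo.mono him) (bddAbove_Ioo.mono him)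
      refine ⟨⟨g, hg⟩, fun x hx => ?_⟩
      have := hg' (⟨x, hx, rfl⟩ : f v x ∈ f v '' X v)
      rw [hl x hx] at this
      exact this.symm
    choose F hF using hF
    choose G hG using hG
    obtain ⟨α, hβα, hα⟩ := exists_above e n j (e.symm ((0, 0), (fun v => (F v, G v)), 0))
    refine ⟨pt e α, ⟨α, hα, rfl⟩, fun v hv => ?_⟩
    obtain ⟨a, b, γ, _, hγ⟩ := hfX v _ hv
    rcases lt_trichotomy γ α with h | h | h
    · exfalso
      apply pt_ne_right e hβα h v
      rw [Equiv.apply_symm_apply]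
      change pt e α = (G v).1 (pt e γ)
      rw [hγ, hG v _ hv]
    · rw [← hγ, h]
    · exfalso
      apply pt_ne_left e (hβα.trans h) h v
      rw [Equiv.apply_symm_apply]
      change pt e γ = (F v).1 (pt e α)
      rw [hγ]
      exact hF v hv

end Pool.Agent.Run7.h653.Rigid
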