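import Mathlib
import Pool.Agent.Run7.h653.Rigid

set_option autoImplicit false

open Set Cardinal

namespace Pool.Agent.Run7.h653.RigidTree

/-- Membership in the block with index `v` of the branch coded by `s`. -/
def InBlk (D : ℕ → ℕ → Set ℝ) (v : ℤ) (s : ℕ → ℕ) (d : ℝ) : Prop :=
  (v < 0 ∧ ∃ a b : ℕ, (a : ℤ) < -v ∧ (b : ℤ) < -v ∧ d ∈ D a b) ∨
  (∃ n : ℕ, v = n ∧ ∃ j, j ≤ s n ∧ d ∈ D n j)

/-- The nodes of the tree. -/
@[ext] structure Node (D : ℕ → ℕ → Set ℝ) where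
  v : ℤ
  s : ℕ →₀ ℕ
  d : ℝ
  supp : ∀ m : ℕ, v < m → s m = 0
  mem : InBlk D v s d

variable {D : ℕ → ℕ → Set ℝ}

instance : PartialOrder (Node D) where
  le t t' := (t.v < t'.v ∨ (t.v = t'.v ∧ t.d ≤ t'.d)) ∧ ∀ m : ℕ, (m : ℤ) ≤ t.v → t.s m = t'.s m
  le_refl t := ⟨Or.inr ⟨rfl, le_rfl⟩, fun _ _ => rfl⟩
  le_trans a b c h1 h2 := by
    obtain ⟨h1, h1'⟩ := h1
    obtain ⟨h2, h2'⟩ := h2
    have hab : a.v ≤ b.v := by rcases h1 with h | h <;> [exact h.le; exact h.1.le]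
    refine ⟨?_, fun m hm => (h1' m hm).trans (h2' m (hm.trans hab))⟩
    rcases h1 with h | h <;> rcases h2 with k | k
    · exact Or.inl (h.trans k)
    · exact Or.inl (h.trans_eq k.1)
    · exact Or.inl (h.1.trans_lt k)
    · exact Or.inr ⟨h.1.trans k.1, h.2.trans k.2⟩
  le_antisymm a b h1 h2 := by
    obtain ⟨h1, h1'⟩ := h1
    obtain ⟨h2, h2'⟩ := h2
    have hv : a.v = b.v := by
      rcases h1 with h | h
      · rcases h2 with k | k
        · exact absurd h (not_lt.2 k.le)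
        · exact k.1.symm
      · exact h.1
    have hd : a.d = b.d := by
      rcases h1 with h | h
      · exact absurd hv h.ne
      · rcases h2 with k | k
        · exact absurd hv.symm k.ne
        · exact le_antisymm h.2 k.2
    have hs : a.s = b.s := by
      ext m
      by_cases hm : (m : ℤ) ≤ a.v
      · exact h1' m hm
      · rw [a.supp m (not_le.1 hm), b.supp m (hv ▸ not_le.1 hm)]
    exact Node.ext hv hs hd

theorem le_def (t t' : Node D) : t ≤ t' ↔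
    (t.v < t'.v ∨ (t.v = t'.v ∧ t.d ≤ t'.d)) ∧ ∀ m : ℕ, (m : ℤ) ≤ t.v → t.s m = t'.s m := Iff.rfl

theorem v_le_of_le {t t' : Node D} (h : t ≤ t') : t.v ≤ t'.v := by
  rcases h.1 with h | h
  · exact h.le
  · exact h.1.le

/-- The branch coded by `x`. -/
def br (D : ℕ → ℕ → Set ℝ) (x : ℕ → ℕ) : Set (Node D) :=
  {t | ∀ m : ℕ, (m : ℤ) ≤ t.v → t.s m = x m}

theorem br_le_iff {x : ℕ → ℕ} {t t' : Node D} (ht : t ∈ br D x) (ht' : t' ∈ br D x) :
    t ≤ t' ↔ (t.v < t'.v ∨ (t.v = t'.v ∧ t.d ≤ t'.d)) := by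
  refine ⟨fun h => h.1, fun h => ⟨h, fun m hm => ?_⟩⟩
  rw [ht m hm, ht' m]
  rcases h with h | h
  · exact hm.trans h.le
  · exact hm.trans h.1.le

theorem br_total {x : ℕ → ℕ} {t t' : Node D} (ht : t ∈ br D x) (ht' : t' ∈ br D x) :
    t ≤ t' ∨ t' ≤ t := by
  rw [br_le_iff ht ht', br_le_iff ht' ht]
  rcases lt_trichotomy t.v t'.v with h | h | h
  · exact Or.inl (Or.inl h)
  · rcases le_total t.d t'.d with k | k
    · exact Or.inl (Or.inr ⟨h, k⟩)
    · exact Or.inr (Or.inr ⟨h.symm, k⟩)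
  · exact Or.inr (Or.inl h)

theorem isChain_br (x : ℕ → ℕ) : IsChain (· ≤ ·) (br D x) := by
  intro t ht t' ht' _
  exact br_total ht ht'

/-- Truncation of a sequence. -/
noncomputable def trunc (x : ℕ → ℕ) (v : ℤ) : ℕ →₀ ℕ :=
  Finsupp.onFinset (Finset.range (v.toNat + 1)) (fun m => if (m : ℤ) ≤ v then x m else 0) (by
    intro m hm
    rw [Finset.mem_range]
    by_contra h
    apply hm
    rw [if_neg]
    intro h'
    omega)

theorem trunc_apply (x : ℕ → ℕ) (v : ℤ) (m : ℕ) :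
    trunc x v m = if (m : ℤ) ≤ v then x m else 0 := rfl

theorem inBlk_congr {v : ℤ} {s s' : ℕ → ℕ} {d : ℝ} (h : ∀ m : ℕ, (m : ℤ) ≤ v → s m = s' m)
    (hs : InBlk D v s d) : InBlk D v s' d := by
  rcases hs with hs | ⟨n, hn, j, hj, hd⟩
  · exact Or.inl hs
  · refine Or.inr ⟨n, hn, j, ?_, hd⟩
    rw [← h n hn.ge]
    exact hj

/-- The node of the branch `x` in block `v` with real part `d`. -/
noncomputable def mk (x : ℕ → ℕ) (v : ℤ) (d : ℝ) (h : InBlk D v x d) : Node D where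
  v := v
  s := trunc x v
  d := d
  supp := by
    intro m hm
    rw [trunc_apply, if_neg (not_le.2 hm)]
  mem := inBlk_congr (fun m hm => by rw [trunc_apply, if_pos hm]) h

theorem mk_mem (x : ℕ → ℕ) (v : ℤ) (d : ℝ) (h : InBlk D v x d) : mk x v d h ∈ br D x := by
  intro m hm
  have hm' : (m : ℤ) ≤ v := hm
  change trunc x v m = x m
  rw [trunc_apply, if_pos hm']

theorem inBlk_of_mem {x : ℕ → ℕ} {t : Node D} (ht : t ∈ br D x) : InBlk D t.v x t.d :=
  inBlk_congr ht t.mem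

/-- The blocks are nonempty. -/
theorem isMaxChain_br (hD : ∀ n j, (D n j).Nonempty) (x : ℕ → ℕ) :
    IsMaxChain (· ≤ ·) (br D x) := by
  refine ⟨isChain_br x, fun c hc hsub => ?_⟩
  apply Subset.antisymm hsub
  intro t ht
  obtain ⟨d, hd⟩ := hD (t.v.toNat + 1) 0
  have hb : InBlk D ((t.v.toNat + 1 : ℕ) : ℤ) x d := Or.inr ⟨_, rfl, 0, Nat.zero_le _, hd⟩
  have hmem := mk_mem x _ d hb
  have hlt : t.v < (mk x _ d hb).v := by
    change t.v < ((t.v.toNat + 1 : ℕ) : ℤ)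
    omega
  have hle : t ≤ mk x _ d hb := by
    rcases hc.total ht (hsub hmem) with h | h
    · exact h
    · exact absurd (v_le_of_le h) (not_le.2 hlt)
  intro m hm
  rw [hle.2 m hm]
  exact hmem m (hm.trans hlt.le)

theorem exists_br_of_isMaxChain {c : Set (Node D)} (hc : IsMaxChain (· ≤ ·) c) :
    ∃ x, c = br D x := by
  classical
  let x : ℕ → ℕ := fun m => if h : ∃ t ∈ c, (m : ℤ) ≤ t.v then h.choose.s m else 0
  refine ⟨x, hc.2 (isChain_br x) ?_⟩
  intro t ht m hm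
  have h : ∃ t ∈ c, (m : ℤ) ≤ t.v := ⟨t, ht, hm⟩
  have hx : x m = h.choose.s m := dif_pos h
  rw [hx]
  rcases hc.1.total ht h.choose_spec.1 with k | k
  · exact k.2 m hm
  · exact (k.2 m h.choose_spec.2).symm

theorem tree (t : Node D) : IsChain (· ≤ ·) {y : Node D | y < t} := by
  intro a ha b hb _
  have ha1 : a ≤ t := le_of_lt (show a < t from ha)
  have hb1 : b ≤ t := le_of_lt (show b < t from hb)
  have ha' : a ∈ br D t.s := ha1.2
  have hb' : b ∈ br D t.s := hb1.2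
  exact br_total ha' hb'

theorem countable_union : ∃ f : ℕ → Set (Node D), (∀ n, IsChain (· ≤ ·) (f n)) ∧
    (⋃ n, f n) = Set.univ := by
  obtain ⟨g, hg⟩ := exists_surjective_nat (ℕ →₀ ℕ)
  refine ⟨fun n => br D (g n), fun n => isChain_br _, ?_⟩
  rw [eq_univ_iff_forall]
  intro t
  obtain ⟨n, hn⟩ := hg t.s
  rw [mem_iUnion]
  refine ⟨n, fun m _ => ?_⟩
  rw [hn]

/-- Eventual domination gives an embedding. -/
theorem embed_of_le {x y : ℕ → ℕ} {N : ℕ} (h : ∀ n, N ≤ n → x n ≤ y n) :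
    Nonempty (br D x ↪o br D y) := by
  classical
  -- the shift
  obtain ⟨K, hK1, hK2⟩ : ∃ K : ℤ, 1 + 2 * (N : ℤ) ≤ K ∧ ∀ n, n < N → 1 + N + (x n : ℤ) ≤ K := by
    refine ⟨1 + 2 * N + ∑ n ∈ Finset.range N, (x n : ℤ), ?_, ?_⟩
    · have : (0 : ℤ) ≤ ∑ n ∈ Finset.range N, (x n : ℤ) := Finset.sum_nonneg (fun _ _ => by positivity)
      omega
    · intro n hn
      have : (x n : ℤ) ≤ ∑ n ∈ Finset.range N, (x n : ℤ) :=
        Finset.single_le_sum (f := fun n => (x n : ℤ)) (fun _ _ => by positivity) (Finset.mem_range.2 hn)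
      have : (0 : ℤ) ≤ N := by positivity
      omega
  have key : ∀ t : Node D, t ∈ br D x →
      InBlk D (if (N : ℤ) ≤ t.v then t.v else t.v - K) y t.d := by
    intro t ht
    rcases inBlk_of_mem ht with ⟨hv, a, b, ha, hb, hd⟩ | ⟨n, hn, j, hj, hd⟩
    · rw [if_neg (by omega)]
      exact Or.inl ⟨by omega, a, b, by omega, by omega, hd⟩
    · by_cases hN : N ≤ n
      · rw [if_pos (by omega)]
        exact Or.inr ⟨n, hn, j, hj.trans (h n hN), hd⟩
      · rw [if_neg (by omega)]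
        have := hK2 n (by omega)
        exact Or.inl ⟨by omega, n, j, by omega, by omega, hd⟩
  refine ⟨OrderEmbedding.ofMapLEIff
    (fun t => ⟨mk y _ t.1.d (key t.1 t.2), mk_mem _ _ _ _⟩) ?_⟩
  intro t t'
  rw [Subtype.mk_le_mk, br_le_iff (mk_mem _ _ _ _) (mk_mem _ _ _ _), ← Subtype.coe_le_coe,
    br_le_iff t.2 t'.2]
  change ((if (N : ℤ) ≤ t.1.v then t.1.v else t.1.v - K)
      < (if (N : ℤ) ≤ t'.1.v then t'.1.v else t'.1.v - K) ∨
    ((if (N : ℤ) ≤ t.1.v then t.1.v else t.1.v - K)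
      = (if (N : ℤ) ≤ t'.1.v then t'.1.v else t'.1.v - K) ∧ t.1.d ≤ t'.1.d)) ↔ _
  have h1 : ((if (N : ℤ) ≤ t.1.v then t.1.v else t.1.v - K)
      < (if (N : ℤ) ≤ t'.1.v then t'.1.v else t'.1.v - K)) ↔ t.1.v < t'.1.v := by
    split_ifs <;> omega
  have h2 : ((if (N : ℤ) ≤ t.1.v then t.1.v else t.1.v - K)
      = (if (N : ℤ) ≤ t'.1.v then t'.1.v else t'.1.v - K)) ↔ t.1.v = t'.1.v := by
    split_ifs <;> omega
  rw [h1, h2]

/-- The rigidity hypothesis. -/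
def Rig (D : ℕ → ℕ → Set ℝ) : Prop :=
  (∀ n j n' j' x, x ∈ D n j → x ∈ D n' j' → n = n' ∧ j = j') ∧
    ∀ n j, ∀ (X : ℤ → Set ℝ) (f : ℤ → ℝ → ℝ), (∀ v, StrictMonoOn (f v) (X v)) →
      (∀ v, ∀ x ∈ X v, ∃ a b, x ∈ D a b) → (∀ v, ∀ x ∈ X v, ∃ a b, f v x ∈ D a b) →
      ∃ d ∈ D n j, ∀ v, d ∈ X v → f v d = d

theorem Rig.nonempty (hD : Rig D) (n j : ℕ) : (D n j).Nonempty := by
  obtain ⟨d, hd, _⟩ := hD.2 n j (fun _ => ∅) (fun _ => id) (fun _ a ha => absurd ha (by simp))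
    (fun _ a ha => absurd ha (by simp)) (fun _ a ha => absurd ha (by simp))
  exact ⟨d, hd⟩

theorem exists_mem_of_inBlk {v : ℤ} {s : ℕ → ℕ} {d : ℝ} (h : InBlk D v s d) :
    ∃ a b, d ∈ D a b := by
  rcases h with ⟨_, a, b, _, _, h⟩ | ⟨n, _, j, _, h⟩
  · exact ⟨a, b, h⟩
  · exact ⟨n, j, h⟩

/-- An embedding gives eventual domination. -/
theorem le_of_embed (hD : Rig D) {x y : ℕ → ℕ} (g : br D x ↪o br D y) :
    ∃ N, ∀ n, N ≤ n → x n ≤ y n := by
  classical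
  -- for each block a point whose real part is not moved
  have key : ∀ n : ℕ, ∃ t : br D x, t.1.v = n ∧ t.1.d ∈ D n (x n) ∧ (g t).1.d = t.1.d := by
    intro n
    -- real part of the image
    let P : ℝ → Prop := fun d => InBlk D (n : ℤ) x d
    let f : ℝ → ℝ := fun d => if h : P d then (g ⟨mk x n d h, mk_mem _ _ _ _⟩).1.d else d
    have hfP : ∀ d (h : P d), f d = (g ⟨mk x n d h, mk_mem _ _ _ _⟩).1.d := fun d h => dif_pos h
    let X : ℤ → Set ℝ := fun v =>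
      {d | ∃ h : P d, (g ⟨mk x n d h, mk_mem _ _ _ _⟩).1.v = v}
    obtain ⟨d, hd, hfix⟩ := hD.2 n (x n) X (fun _ => f) (by
      rintro v a ⟨ha, hav⟩ b ⟨hb, hbv⟩ hab
      change f a < f b
      rw [hfP a ha, hfP b hb]
      have hlt : (⟨mk x n a ha, mk_mem _ _ _ _⟩ : br D x) < ⟨mk x n b hb, mk_mem _ _ _ _⟩ := by
        rw [lt_iff_le_not_ge]
        constructor
        · rw [Subtype.mk_le_mk, br_le_iff (mk_mem _ _ _ _) (mk_mem _ _ _ _)]
          exact Or.inr ⟨rfl, hab.le⟩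
        · rw [Subtype.mk_le_mk, br_le_iff (mk_mem _ _ _ _) (mk_mem _ _ _ _)]
          rintro (h | h)
          · exact lt_irrefl _ h
          · exact absurd h.2 (not_le.2 hab)
      have hlt' := g.strictMono hlt
      rw [lt_iff_le_not_ge, ← Subtype.coe_le_coe, ← Subtype.coe_le_coe,
        br_le_iff (Subtype.prop _) (Subtype.prop _), br_le_iff (Subtype.prop _) (Subtype.prop _)]
        at hlt'
      by_contra hcon
      apply hlt'.2
      right
      exact ⟨hbv.trans hav.symm, not_lt.1 hcon⟩)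
      (by
        rintro v a ⟨ha, _⟩
        exact exists_mem_of_inBlk ha)
      (by
        rintro v a ⟨ha, _⟩
        change ∃ p q, f a ∈ D p q
        rw [hfP a ha]
        exact exists_mem_of_inBlk (Node.mem _))
    have hP : P d := Or.inr ⟨n, rfl, x n, le_rfl, hd⟩
    refine ⟨⟨mk x n d hP, mk_mem _ _ _ _⟩, rfl, hd, ?_⟩
    have : f d = d := hfix _ ⟨hP, rfl⟩
    rw [hfP d hP] at this
    exact this
  choose t htv htd htg using key
  have hmono : ∀ m n : ℕ, m ≤ n → (g (t m)).1.v ≤ (g (t n)).1.v := by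
    intro m n hmn
    rcases hmn.lt_or_eq with h | h
    · have hle : t m ≤ t n := by
        rw [← Subtype.coe_le_coe, br_le_iff (t m).2 (t n).2]
        left
        rw [htv, htv]
        exact_mod_cast h
      exact v_le_of_le (g.monotone hle)
    · rw [h]
  refine ⟨((g (t 0)).1.v.natAbs + 1), fun n hn => ?_⟩
  have h0 := hmono 0 n (Nat.zero_le _)
  rcases inBlk_of_mem (g (t n)).2 with ⟨hv, a, b, ha, hb, hd⟩ | ⟨k, hk, j, hj, hd⟩
  · exfalso
    rw [htg n] at hd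
    obtain ⟨h1, h2⟩ := hD.1 _ _ _ _ _ (htd n) hd
    omega
  · rw [htg n] at hd
    obtain ⟨h1, h2⟩ := hD.1 _ _ _ _ _ (htd n) hd
    rw [← h1, ← h2] at hj
    exact hj

end Pool.Agent.Run7.h653.RigidTree
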