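import Pool.Agent.Run7.h653.Dichotomy

/-!
# The construction of the tree
-/

set_option autoImplicit false
set_option linter.unusedSectionVars false

namespace Pool.Agent.Run7.h653

open Set Cardinal

universe u v

/-- recursion along a well-ordered set -/
theorem exists_rec {I : Type u} [LinearOrder I] [WellFoundedLT I] {R : Type v} [Nonempty R]
    (Q : I → (I → R) → R → Prop)
    (hloc : ∀ a f f' r, (∀ b < a, f b = f' b) → Q a f r → Q a f' r)
    (hex : ∀ a f, (∀ b < a, Q b f (f b)) → ∃ r, Q a f r) : ∃ f : I → R, ∀ a, Q a f (f a) := by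
  classical
  have : Inhabited R := Classical.inhabited_of_nonempty inferInstance
  let tr : (a : I) → ((b : I) → b < a → R) → I → R :=
    fun a p b => if h : b < a then p b h else default
  let F : (a : I) → ((b : I) → b < a → R) → R :=
    fun a p => if h : ∃ r, Q a (tr a p) r then h.choose else default
  let f : I → R := (wellFounded_lt (α := I)).fix F
  have hf : ∀ a, f a = F a (fun b _ => f b) := fun a => (wellFounded_lt (α := I)).fix_eq F a
  refine ⟨f, ?_⟩
  intro a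
  refine (wellFounded_lt (α := I)).induction (C := fun a => Q a f (f a)) a ?_
  intro a ih
  · have htr : ∀ b < a, f b = tr a (fun b _ => f b) b := by
      intro b hb
      simp [tr, hb]
    obtain ⟨r, hr⟩ := hex a f ih
    have h1 : ∃ r, Q a (tr a (fun b _ => f b)) r := ⟨r, hloc a f _ r htr hr⟩
    have h2 : Q a (tr a (fun b _ => f b)) (f a) := by
      rw [hf a]
      show Q a (tr a (fun b _ => f b)) (dite _ _ _)
      rw [dif_pos h1]
      exact h1.choose_spec
    exact hloc a _ f _ (fun b hb => (htr b hb).symm) h2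

/-- The data of the construction on one level: `row i β` is the index, on level `β`, of the
predecessor of the `i`-th node of the level, and `path X x` is the index of the node reached from
the node `x` by walking along the club `X` of the level. -/
structure Lev (K Λ : Type u) where
  row : Λ → K → Λ
  path : Set K → K × Λ → Λ

variable {K Λ : Type u} [LinearOrder K]

/-- the strict order of the tree -/
def TLt (f : K → Lev K Λ) (a x : K × Λ) : Prop := a.1 < x.1 ∧ (f x.1).row x.2 a.1 = a.2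

/-- the order of the tree -/
def TLe (f : K → Lev K Λ) (a x : K × Λ) : Prop := a = x ∨ TLt f a x

/-- the restriction of a club of the sequence `C` to `α` -/
structure CLike (C : K → Set K) (S X : Set K) (α : K) : Prop where
  sub : ∀ c ∈ X, c < α
  closed : ∀ m, m < α → LimPt X m → m ∈ X
  coh : ∀ m ∈ X, LimPt X m → m ∉ S ∧ ∀ c, (c ∈ C m ↔ c ∈ X ∧ c < m)
  top : LimPt X α → α ∉ S ∧ ∀ c, (c ∈ C α ↔ c ∈ X)

/-- `x` decides the set `Z` -/
def GS (f : K → Lev K Λ) (Z : Set (K × Λ)) (α : K) (x : K × Λ) : Prop :=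
  (∃ a ∈ Z, a.1 < α ∧ TLe f a x) ∨ ∀ a ∈ Z, a.1 < α → ¬ TLe f a x ∧ ¬ TLe f x a

/-- the properties of level `α` -/
structure QQ (C : K → Set K) (S : Set K) (Z : K → Set (K × Λ)) (α : K) (f : K → Lev K Λ)
    (r : Lev K Λ) : Prop where
  coh : ∀ i, ∀ β < α, ∀ γ < β, r.row i γ = (f β).row (r.row i β) γ
  full : ∀ γ < α, ∀ j, ∃ i, r.row i γ = j
  path0 : ∀ X, CLike C S X α → ∀ x : K × Λ, x.1 < α → r.row (r.path X x) x.1 = x.2
  path0' : ∀ X, CLike C S X α → ∀ x : K × Λ, x.1 = α → r.path X x = x.2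
  path1 : ∀ X, CLike C S X α → ∀ x : K × Λ, ∀ c ∈ X, x.1 ≤ c →
    r.row (r.path X x) c = (f c).path (X ∩ Iio c) x
  hit : ∀ X, CLike C S X α → ∀ x : K × Λ, ∀ m ∈ X, (∀ c ∈ X, c ≤ m) → x.1 ≤ m →
    (∃ z, r.row z m = (f m).path (X ∩ Iio m) x ∧ ∃ a ∈ Z α, a.1 < α ∧ r.row z a.1 = a.2) →
    ∃ a ∈ Z α, a.1 < α ∧ r.row (r.path X x) a.1 = a.2
  seed : LimPt univ α → ∀ i, ∃ x : K × Λ, x.1 < α ∧ r.row i x.1 = x.2 ∧
    (α ∈ S → GS f (Z α) α x) ∧
    ∀ c ∈ C α, x.1 ≤ c → r.row i c = (f c).path (C α ∩ Iio c) x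
  seedfull : LimPt univ α → α ∉ S → ∀ x : K × Λ, x.1 < α → ∃ i,
    ∀ c ∈ C α, x.1 ≤ c → r.row i c = (f c).path (C α ∩ Iio c) x
  split : ∀ α' < α, (∀ b < α, b ≤ α') → ∀ j, ∃ i i', i ≠ i' ∧ r.row i α' = j ∧ r.row i' α' = j

theorem TLe_congr {f f' : K → Lev K Λ} {a x : K × Λ} (h : f x.1 = f' x.1) :
    TLe f a x ↔ TLe f' a x := by
  unfold TLe TLt
  rw [h]

theorem GS_congr {f f' : K → Lev K Λ} {Z : Set (K × Λ)} {α : K} {x : K × Λ} (hx : x.1 < α)
    (h : ∀ b < α, f b = f' b) (hg : GS f Z α x) : GS f' Z α x := by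
  rcases hg with ⟨a, ha, h1, h2⟩ | h1
  · exact Or.inl ⟨a, ha, h1, (TLe_congr (h _ hx)).1 h2⟩
  · refine Or.inr fun a ha h2 => ?_
    rw [← TLe_congr (h _ hx), ← TLe_congr (h _ h2)]
    exact h1 a ha h2

theorem QQ_loc {C : K → Set K} (hC : Coh C) {S : Set K} {Z : K → Set (K × Λ)} (α : K)
    (f f' : K → Lev K Λ) (r : Lev K Λ) (h : ∀ b < α, f b = f' b) (hq : QQ C S Z α f r) :
    QQ C S Z α f' r where
  coh := fun i β hβ γ hγ => by rw [← h β hβ]; exact hq.coh i β hβ γ hγ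
  full := hq.full
  path0 := hq.path0
  path0' := hq.path0'
  path1 := fun X hX x c hc hxc => by
    rw [← h c (hX.sub c hc)]; exact hq.path1 X hX x c hc hxc
  hit := fun X hX x m hm h1 h2 h3 => by
    rw [← h m (hX.sub m hm)] at h3
    exact hq.hit X hX x m hm h1 h2 h3
  seed := fun hl i => by
    obtain ⟨x, h1, h2, h3, h4⟩ := hq.seed hl i
    refine ⟨x, h1, h2, fun hS => GS_congr h1 h (h3 hS), fun c hc hxc => ?_⟩
    rw [← h c (hC.sub α c hc)]
    exact h4 c hc hxc
  seedfull := fun hl hS x hx => by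
    obtain ⟨i, hi⟩ := hq.seedfull hl hS x hx
    refine ⟨i, fun c hc hxc => ?_⟩
    rw [← h c (hC.sub α c hc)]
    exact hi c hc hxc
  split := hq.split

theorem CLike.restrict {C : K → Set K} {S X : Set K} {α m : K} (hX : CLike C S X α)
    (hm : m ∈ X) : CLike C S (X ∩ Iio m) m where
  sub := fun c hc => hc.2
  closed := fun m' hm' h => ⟨hX.closed m' (hm'.trans (hX.sub m hm))
    (h.mono inter_subset_left), hm'⟩
  coh := fun m' hm' h => by
    obtain ⟨h1, h2⟩ := hX.coh m' hm'.1 (h.mono inter_subset_left)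
    refine ⟨h1, fun c => ?_⟩
    rw [h2]
    constructor
    · rintro ⟨h3, h4⟩
      exact ⟨⟨h3, lt_trans h4 hm'.2⟩, h4⟩
    · rintro ⟨h3, h4⟩
      exact ⟨h3.1, h4⟩
  top := fun h => by
    obtain ⟨h1, h2⟩ := hX.coh m hm (h.mono inter_subset_left)
    exact ⟨h1, fun c => by rw [h2]; rfl⟩

theorem CLike.of_mem {C : K → Set K} (hC : Coh C) {S : Set K} (hS : Avoids C S) {α c : K}
    (hc : c ∈ C α) : CLike C S (C α ∩ Iio c) c where
  sub := fun c hc => hc.2
  closed := fun m' hm' h => ⟨hC.closed α m' (hm'.trans (hC.sub α c hc))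
    (h.mono inter_subset_left), hm'⟩
  coh := fun m' hm' h => by
    have hl := h.mono inter_subset_left
    have hm := lt_trans hm'.2 (hC.sub α c hc)
    refine ⟨hS α m' hm hl, fun c' => ?_⟩
    rw [hC.coh α m' hm hl]
    constructor
    · rintro ⟨h3, h4⟩
      exact ⟨⟨h3, lt_trans h4 hm'.2⟩, h4⟩
    · rintro ⟨h3, h4⟩
      exact ⟨h3.1, h4⟩
  top := fun h => by
    have hl := h.mono inter_subset_left
    refine ⟨hS α c (hC.sub α c hc) hl, fun c' => ?_⟩
    rw [hC.coh α c (hC.sub α c hc) hl]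
    rfl

theorem inter_Iio_Iio {X : Set K} {m c : K} (h : c < m) : X ∩ Iio m ∩ Iio c = X ∩ Iio c := by
  ext x
  simp only [mem_inter_iff, mem_Iio]
  constructor
  · rintro ⟨⟨h1, h2⟩, h3⟩
    exact ⟨h1, h3⟩
  · rintro ⟨h1, h2⟩
    exact ⟨⟨h1, h2.trans h⟩, h2⟩

variable [WellFoundedLT K]

/-- a closed bounded nonempty set has a largest element -/
theorem CLike.exists_max {C : K → Set K} {S X : Set K} {α : K} (hX : CLike C S X α)
    (hne : X.Nonempty) (hl : ¬ LimPt X α) : ∃ m ∈ X, ∀ c ∈ X, c ≤ m := by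
  obtain ⟨x, hx⟩ := hne
  have h1 : ∃ b < α, ∀ c ∈ X, c ≤ b := by
    by_contra hcon
    push Not at hcon
    refine hl ⟨⟨x, hX.sub x hx⟩, fun b hb => ?_⟩
    obtain ⟨c, hc, hbc⟩ := hcon b hb
    exact ⟨c, hc, hbc, hX.sub c hc⟩
  obtain ⟨b, hb, hb2⟩ := h1
  have hne : {b | ∀ c ∈ X, c ≤ b}.Nonempty := ⟨b, hb2⟩
  set m := wellFounded_lt.min _ hne with hm
  have hm1 : ∀ c ∈ X, c ≤ m := wellFounded_lt.min_mem _ hne
  have hm2 : ∀ b', (∀ c ∈ X, c ≤ b') → m ≤ b' := fun b' h =>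
    not_lt.1 (wellFounded_lt.not_lt_min {b | ∀ c ∈ X, c ≤ b} h)
  by_cases hmX : m ∈ X
  · exact ⟨m, hmX, hm1⟩
  exfalso
  apply hmX
  refine hX.closed m (lt_of_le_of_lt (hm2 b hb2) hb) ⟨⟨x, ?_⟩, fun b' hb' => ?_⟩
  · exact lt_of_le_of_ne (hm1 x hx) (fun h => hmX (h ▸ hx))
  · by_contra hno
    push Not at hno
    refine absurd (hm2 b' fun c hc => ?_) (not_le.2 hb')
    by_contra h
    have h2 := hno c hc (not_le.1 h)
    have h3 : c = m := le_antisymm (hm1 c hc) h2
    exact hmX (h3 ▸ hc)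

/-- existence of the walk function, once the rows are known -/
theorem exists_path {C : K → Set K} {S : Set K} {Z : K → Set (K × Λ)} {α : K}
    {f : K → Lev K Λ} (hf : ∀ b < α, QQ C S Z b f (f b)) (row : Λ → K → Λ)
    (hcoh : ∀ i, ∀ β < α, ∀ γ < β, row i γ = (f β).row (row i β) γ)
    (hfull : ∀ γ < α, ∀ j, ∃ i, row i γ = j)
    (hseed : LimPt univ α → α ∉ S → ∀ x : K × Λ, x.1 < α → ∃ i,
      ∀ c ∈ C α, x.1 ≤ c → row i c = (f c).path (C α ∩ Iio c) x)
    (X : Set K) (x : K × Λ) : ∃ z : Λ, CLike C S X α → 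
      (x.1 < α → row z x.1 = x.2) ∧ (x.1 = α → z = x.2) ∧
      (∀ c ∈ X, x.1 ≤ c → row z c = (f c).path (X ∩ Iio c) x) ∧
      (∀ m ∈ X, (∀ c ∈ X, c ≤ m) → x.1 ≤ m →
        (∃ z, row z m = (f m).path (X ∩ Iio m) x ∧ ∃ a ∈ Z α, a.1 < α ∧ row z a.1 = a.2) →
        ∃ a ∈ Z α, a.1 < α ∧ row z a.1 = a.2) := by
  by_cases hX : CLike C S X α
  swap
  · exact ⟨x.2, fun h => absurd h hX⟩
  rcases lt_trichotomy x.1 α with hx | hx | hx
  · by_cases hc0 : ∃ c ∈ X, x.1 ≤ c
    · obtain ⟨c0, hc0, hxc0⟩ := hc0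
      by_cases hl : LimPt X α
      · -- limit case
        obtain ⟨hαS, hCX⟩ := hX.top hl
        have hCX' : C α = X := Set.ext hCX
        obtain ⟨z, hz⟩ := hseed (hl.mono (subset_univ _)) hαS x hx
        rw [hCX'] at hz
        refine ⟨z, fun _ => ⟨fun _ => ?_, fun h => absurd h hx.ne, hz, ?_⟩⟩
        · have h1 := hz c0 hc0 hxc0
          have h2 := hX.restrict hc0
          rcases hxc0.lt_or_eq with h | h
          · rw [hcoh z c0 (hX.sub c0 hc0) x.1 h, h1]
            exact (hf c0 (hX.sub c0 hc0)).path0 _ h2 x h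
          · rw [h, h1]
            exact (hf c0 (hX.sub c0 hc0)).path0' _ h2 x h
        · intro m hm h1 _ _
          obtain ⟨c, hc, h2, h3⟩ := hl.2 m (hX.sub m hm)
          exact absurd (h1 c hc) (not_le.2 h2)
      · -- successor case
        obtain ⟨m, hm, hmax⟩ := hX.exists_max ⟨c0, hc0⟩ hl
        have hmα := hX.sub m hm
        have hxm : x.1 ≤ m := hxc0.trans (hmax c0 hc0)
        have hr := hX.restrict hm
        have key : ∀ z, row z m = (f m).path (X ∩ Iio m) x → (row z x.1 = x.2) ∧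
            (∀ c ∈ X, x.1 ≤ c → row z c = (f c).path (X ∩ Iio c) x) := by
          intro z hz
          constructor
          · rcases hxm.lt_or_eq with h | h
            · rw [hcoh z m hmα x.1 h, hz]
              exact (hf m hmα).path0 _ hr x h
            · rw [h, hz]
              exact (hf m hmα).path0' _ hr x h
          · intro c hc hxc
            rcases (hmax c hc).lt_or_eq with h | h
            · rw [hcoh z m hmα c h, hz, (hf m hmα).path1 _ hr x c ⟨hc, h⟩ hxc, inter_Iio_Iio h]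
            · rw [h]; exact hz
        by_cases hh : ∃ z, row z m = (f m).path (X ∩ Iio m) x ∧
            ∃ a ∈ Z α, a.1 < α ∧ row z a.1 = a.2
        · obtain ⟨z, hz1, hz2⟩ := hh
          refine ⟨z, fun _ => ⟨fun _ => (key z hz1).1, fun h => absurd h hx.ne, (key z hz1).2,
            fun _ _ _ _ _ => hz2⟩⟩
        · obtain ⟨z, hz⟩ := hfull m hmα ((f m).path (X ∩ Iio m) x)
          refine ⟨z, fun _ => ⟨fun _ => (key z hz).1, fun h => absurd h hx.ne, (key z hz).2,
            fun m' hm' h1 _ h3 => ?_⟩⟩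
          have h4 : m' = m := le_antisymm (hmax m' hm') (h1 m hm)
          rw [h4] at h3
          exact absurd h3 hh
    · -- initial case
      push Not at hc0
      obtain ⟨z, hz⟩ := hfull x.1 hx x.2
      exact ⟨z, fun _ => ⟨fun _ => hz, fun h => absurd h hx.ne,
        fun c hc h => absurd h (not_le.2 (hc0 c hc)),
        fun m hm _ h => absurd h (not_le.2 (hc0 m hm))⟩⟩
  · refine ⟨x.2, fun _ => ⟨fun h => absurd h hx.not_lt, fun _ => rfl, ?_, ?_⟩⟩
    · intro c hc h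
      exact absurd (hX.sub c hc) (not_lt.2 (hx ▸ h))
    · intro c hc _ h
      exact absurd (hX.sub c hc) (not_lt.2 (hx ▸ h))
  · refine ⟨x.2, fun _ => ⟨fun h => absurd h hx.not_gt, fun h => absurd h hx.ne', ?_, ?_⟩⟩
    · intro c hc h
      exact absurd (hX.sub c hc) (not_lt.2 (hx.le.trans h))
    · intro c hc _ h
      exact absurd (hX.sub c hc) (not_lt.2 (hx.le.trans h))

end Pool.Agent.Run7.h653
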