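import Pool.Agent.Run7.h653.Tree

/-!
# The construction of the tree: existence of the levels
-/

set_option autoImplicit false
set_option linter.unusedSectionVars false

namespace Pool.Agent.Run7.h653

open Set Cardinal

universe u v

variable {K Λ : Type u} [LinearOrder K] [WellFoundedLT K]

theorem exists_QQ {C : K → Set K} {S : Set K} {Z : K → Set (K × Λ)} {α : K}
    {f : K → Lev K Λ} (hf : ∀ b < α, QQ C S Z b f (f b)) (row : Λ → K → Λ)
    (hcoh : ∀ i, ∀ β < α, ∀ γ < β, row i γ = (f β).row (row i β) γ)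
    (hfull : ∀ γ < α, ∀ j, ∃ i, row i γ = j)
    (hseed : LimPt univ α → α ∉ S → ∀ x : K × Λ, x.1 < α → ∃ i,
      ∀ c ∈ C α, x.1 ≤ c → row i c = (f c).path (C α ∩ Iio c) x)
    (hseed' : LimPt univ α → ∀ i, ∃ x : K × Λ, x.1 < α ∧ row i x.1 = x.2 ∧
      (α ∈ S → GS f (Z α) α x) ∧
      ∀ c ∈ C α, x.1 ≤ c → row i c = (f c).path (C α ∩ Iio c) x)
    (hsplit : ∀ α' < α, (∀ b < α, b ≤ α') → ∀ j, ∃ i i', i ≠ i' ∧ row i α' = j ∧ row i' α' = j) :
    ∃ r, QQ C S Z α f r := by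
  choose path hpath using exists_path hf row hcoh hfull hseed
  exact ⟨⟨row, path⟩, {
    coh := hcoh
    full := hfull
    path0 := fun X hX x hx => (hpath X x hX).1 hx
    path0' := fun X hX x hx => (hpath X x hX).2.1 hx
    path1 := fun X hX x => (hpath X x hX).2.2.1
    hit := fun X hX x => (hpath X x hX).2.2.2
    seed := hseed'
    seedfull := hseed
    split := hsplit }⟩

/-- the values of the new branch do not depend on the element of the club used -/
theorem row_indep {C : K → Set K} (hC : Coh C) {S : Set K} (hS : Avoids C S)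
    {Z : K → Set (K × Λ)} {α : K} {f : K → Lev K Λ} (hf : ∀ b < α, QQ C S Z b f (f b))
    (x : K × Λ) (c c' β : K) (hc : c ∈ C α) (hc' : c' ∈ C α) (hxc : x.1 ≤ c) (hcc : c < c')
    (hβ : β < c) :
    (f c').row ((f c').path (C α ∩ Iio c') x) β = (f c).row ((f c).path (C α ∩ Iio c) x) β := by
  have h1 := (hf c' (hC.sub α c' hc')).path1 _ (CLike.of_mem hC hS hc') x c ⟨hc, hcc⟩ hxc
  rw [inter_Iio_Iio hcc] at h1
  rw [← h1]
  exact (hf c' (hC.sub α c' hc')).coh _ c hcc β hβ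

theorem exists_level_lim [LinearOrder Λ] (hs : Setup K Λ) {C : K → Set K} (hC : Coh C)
    {S : Set K} (hS : Avoids C S) {Z : K → Set (K × Λ)} {α : K}
    {f : K → Lev K Λ} (hf : ∀ b < α, QQ C S Z b f (f b)) (hα : LimPt univ α) :
    ∃ r, QQ C S Z α f r := by
  classical
  -- good seeds
  let Sd : Set (K × Λ) := {x | x.1 < α ∧ (α ∈ S → GS f (Z α) α x)}
  have hext : ∀ x : K × Λ, x.1 < α → ∃ x' ∈ Sd, TLe f x x' := by
    intro x hx
    by_cases h1 : ∃ a ∈ Z α, a.1 < α ∧ TLe f a x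
    · exact ⟨x, ⟨hx, fun _ => Or.inl h1⟩, Or.inl rfl⟩
    by_cases h2 : ∃ a ∈ Z α, a.1 < α ∧ TLe f x a
    · obtain ⟨a, ha, h3, h4⟩ := h2
      exact ⟨a, ⟨h3, fun _ => Or.inl ⟨a, ha, h3, Or.inl rfl⟩⟩, h4⟩
    · push Not at h1 h2
      exact ⟨x, ⟨hx, fun _ => Or.inr fun a ha h3 => ⟨h1 a ha h3, h2 a ha h3⟩⟩, Or.inl rfl⟩
  have hne : Sd.Nonempty := by
    obtain ⟨b, hb⟩ := hα.1
    obtain ⟨i0⟩ := hs.nonemptyΛ
    obtain ⟨x', hx', -⟩ := hext (b, i0) hb
    exact ⟨x', hx'⟩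
  obtain ⟨x0, hx0⟩ := hne
  have hsurj : ∃ s : Λ → K × Λ, (∀ i, s i ∈ Sd) ∧ ∀ x ∈ Sd, ∃ i, s i = x := by
    obtain ⟨g, hg⟩ := hs.small α
    have h1 : #(Λ × Λ) ≤ #Λ := by
      rw [mk_prod]
      simp only [lift_id]
      exact (mul_eq_self hs.unc.le).le
    obtain ⟨e⟩ := (Cardinal.le_def _ _).1 h1
    have : Nonempty (Λ × Λ) := ⟨(x0.2, x0.2)⟩
    refine ⟨fun i => if (g (Function.invFun e i).1, (Function.invFun e i).2) ∈ Sd then
      (g (Function.invFun e i).1, (Function.invFun e i).2) else x0, fun i => ?_, fun x hx => ?_⟩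
    · dsimp only
      split_ifs with h
      · exact h
      · exact hx0
    · obtain ⟨i, hi⟩ := hg x.1 hx.1.le
      refine ⟨e (i, x.2), ?_⟩
      dsimp only
      rw [Function.leftInverse_invFun e.injective (i, x.2)]
      dsimp only
      rw [hi]
      have : (x.1, x.2) = x := rfl
      rw [this, if_pos hx]
  obtain ⟨s, hs1, hs2⟩ := hsurj
  -- the club element used for level `β`
  have hcl : ∀ (x : K × Λ) (β : K), ∃ c, x.1 < α → β < α → c ∈ C α ∧ β < c ∧ x.1 < c := by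
    intro x β
    by_cases h : x.1 < α ∧ β < α
    · obtain ⟨c, hc, h1⟩ := hC.unb α hα (max β x.1) (max_lt h.2 h.1)
      exact ⟨c, fun _ _ => ⟨hc, (le_max_left _ _).trans_lt h1, (le_max_right _ _).trans_lt h1⟩⟩
    · exact ⟨α, fun h1 h2 => absurd ⟨h1, h2⟩ h⟩
  choose cl hcl using hcl
  let br : K × Λ → K → Λ := fun x β =>
    (f (cl x β)).row ((f (cl x β)).path (C α ∩ Iio (cl x β)) x) β
  have hbr : ∀ x : K × Λ, x.1 < α → ∀ β < α, ∀ c ∈ C α, β < c → x.1 ≤ c →
      br x β = (f c).row ((f c).path (C α ∩ Iio c) x) β := by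
    intro x hx β hβ c hc hβc hxc
    obtain ⟨h1, h2, h3⟩ := hcl x β hx hβ
    rcases lt_trichotomy (cl x β) c with h | h | h
    · exact (row_indep hC hS hf x _ c β h1 hc h3.le h h2).symm
    · show (f (cl x β)).row ((f (cl x β)).path (C α ∩ Iio (cl x β)) x) β = _
      rw [h]
    · exact row_indep hC hS hf x c _ β hc h1 hxc h hβc
  have hbrc : ∀ x : K × Λ, x.1 < α → ∀ c ∈ C α, x.1 ≤ c →
      br x c = (f c).path (C α ∩ Iio c) x := by
    intro x hx c hc hxc
    obtain ⟨h1, h2, h3⟩ := hcl x c hx (hC.sub α c hc)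
    have h4 := (hf _ (hC.sub α _ h1)).path1 _ (CLike.of_mem hC hS h1) x c ⟨hc, h2⟩ hxc
    rw [inter_Iio_Iio h2] at h4
    exact h4
  have hbrx : ∀ x : K × Λ, x.1 < α → br x x.1 = x.2 := by
    intro x hx
    obtain ⟨h1, h2, h3⟩ := hcl x x.1 hx hx
    exact (hf _ (hC.sub α _ h1)).path0 _ (CLike.of_mem hC hS h1) x h3
  have hbrcoh : ∀ x : K × Λ, x.1 < α → ∀ β < α, ∀ γ < β,
      br x γ = (f β).row (br x β) γ := by
    intro x hx β hβ γ hγ
    obtain ⟨h1, h2, h3⟩ := hcl x β hx hβ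
    rw [hbr x hx γ (hγ.trans hβ) _ h1 (hγ.trans h2) h3.le]
    exact (hf _ (hC.sub α _ h1)).coh _ β h2 γ hγ
  refine exists_QQ hf (fun i => br (s i)) ?_ ?_ ?_ ?_ ?_
  · intro i β hβ γ hγ
    exact hbrcoh (s i) (hs1 i).1 β hβ γ hγ
  · intro γ hγ j
    obtain ⟨x', hx', hle⟩ := hext (γ, j) hγ
    obtain ⟨i, hi⟩ := hs2 x' hx'
    refine ⟨i, ?_⟩
    show br (s i) γ = j
    rw [hi]
    rcases hle with heq | ⟨h1, h2⟩
    · rw [← heq]
      exact hbrx (γ, j) hγ
    · rw [hbrcoh x' hx'.1 x'.1 hx'.1 γ h1, hbrx x' hx'.1]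
      exact h2
  · intro _ hαS x hx
    obtain ⟨i, hi⟩ := hs2 x ⟨hx, fun h => absurd h hαS⟩
    refine ⟨i, fun c hc hxc => ?_⟩
    show br (s i) c = _
    rw [hi]
    exact hbrc x hx c hc hxc
  · intro _ i
    exact ⟨s i, (hs1 i).1, hbrx _ (hs1 i).1, (hs1 i).2, hbrc _ (hs1 i).1⟩
  · intro α' hα' h1
    obtain ⟨c, -, h2, h3⟩ := hα.2 α' hα'
    exact absurd (h1 c h3) (not_le.2 h2)

theorem exists_level [LinearOrder Λ] (hs : Setup K Λ) {C : K → Set K} (hC : Coh C)
    {S : Set K} (hS : Avoids C S) {Z : K → Set (K × Λ)} {α : K}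
    {f : K → Lev K Λ} (hf : ∀ b < α, QQ C S Z b f (f b)) : ∃ r, QQ C S Z α f r := by
  classical
  by_cases hα : LimPt univ α
  · exact exists_level_lim hs hC hS hf hα
  by_cases h0 : ∃ b, b < α
  · have h1 : ∃ α' < α, ∀ b < α, b ≤ α' := by
      unfold LimPt at hα
      push Not at hα
      obtain ⟨b, hb, hb2⟩ := hα h0
      refine ⟨b, hb, fun c hc => ?_⟩
      by_contra hcon
      exact absurd (hb2 c (mem_univ _) (not_le.1 hcon)) (not_le.2 hc)
    obtain ⟨α', hα', hmax⟩ := h1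
    obtain ⟨q, hq⟩ : ∃ q : Λ → Λ, ∀ j, ∃ i i', i ≠ i' ∧ q i = j ∧ q i' = j := by
      have h1 : #(Λ × Λ) ≤ #Λ := by
        rw [mk_prod]
        simp only [lift_id]
        exact (mul_eq_self hs.unc.le).le
      obtain ⟨e⟩ := (Cardinal.le_def _ _).1 h1
      obtain ⟨i0⟩ := hs.nonemptyΛ
      obtain ⟨i1, hi1, -⟩ := hs.exists_gtΛ i0 i0
      have : Nonempty (Λ × Λ) := ⟨(i0, i0)⟩
      refine ⟨fun i => (Function.invFun e i).1, fun j => ⟨e (j, i0), e (j, i1), ?_, ?_, ?_⟩⟩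
      · intro h
        have h2 := e.injective h
        rw [Prod.mk.injEq] at h2
        exact hi1.ne h2.2
      · dsimp only
        rw [Function.leftInverse_invFun e.injective (j, i0)]
      · dsimp only
        rw [Function.leftInverse_invFun e.injective (j, i1)]
    have hfα' := hf α' hα'
    refine exists_QQ hf (fun i β => if β = α' then q i else (f α').row (q i) β) ?_ ?_ ?_ ?_ ?_
    · intro i β hβ γ hγ
      have h2 : γ ≠ α' := (lt_of_lt_of_le hγ (hmax β hβ)).ne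
      rw [if_neg h2]
      rcases (hmax β hβ).lt_or_eq with h | h
      · rw [if_neg h.ne]
        exact hfα'.coh _ β h γ hγ
      · rw [if_pos h, h]
    · intro γ hγ j
      rcases (hmax γ hγ).lt_or_eq with h | h
      · obtain ⟨i', hi'⟩ := hfα'.full γ h j
        obtain ⟨i, -, -, hi, -⟩ := hq i'
        exact ⟨i, by rw [if_neg h.ne, hi, hi']⟩
      · obtain ⟨i, -, -, hi, -⟩ := hq j
        exact ⟨i, by rw [if_pos h, hi]⟩
    · intro h
      exact absurd h hα
    · intro h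
      exact absurd h hα
    · intro α'' hα'' h1 j
      have h2 : α'' = α' := le_antisymm (hmax _ hα'') (h1 _ hα')
      subst h2
      obtain ⟨i, i', h3, h4, h5⟩ := hq j
      exact ⟨i, i', h3, by simpa using h4, by simpa using h5⟩
  · push Not at h0
    refine exists_QQ hf (fun i _ => i) ?_ ?_ ?_ ?_ ?_
    · intro i β hβ
      exact absurd hβ (not_lt.2 (h0 β))
    · intro β hβ
      exact absurd hβ (not_lt.2 (h0 β))
    · intro h
      exact absurd h hα
    · intro h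
      exact absurd h hα
    · intro β hβ
      exact absurd hβ (not_lt.2 (h0 β))

theorem exists_levels [LinearOrder Λ] (hs : Setup K Λ) {C : K → Set K} (hC : Coh C)
    {S : Set K} (hS : Avoids C S) (Z : K → Set (K × Λ)) :
    ∃ f : K → Lev K Λ, ∀ α, QQ C S Z α f (f α) := by
  obtain ⟨i0⟩ := hs.nonemptyΛ
  have : Nonempty (Lev K Λ) := ⟨⟨fun _ _ => i0, fun _ _ => i0⟩⟩
  exact exists_rec (fun α f r => QQ C S Z α f r) (fun α f f' r h hq => QQ_loc hC α f f' r h hq)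
    (fun α f hf => exists_level hs hC hS hf)

end Pool.Agent.Run7.h653
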