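import Pool.Agent.Run7.h653.Tree2

/-!
# The tree has no large antichains and no large chains
-/

set_option autoImplicit false
set_option linter.unusedSectionVars false

namespace Pool.Agent.Run7.h653

open Set Cardinal

universe u v

variable {K Λ : Type u} [LinearOrder K] [WellFoundedLT K] {C : K → Set K} {S : Set K}
  {Z : K → Set (K × Λ)} {f : K → Lev K Λ}

theorem tlt_trans (hf : ∀ α, QQ C S Z α f (f α)) {a b c : K × Λ} (h1 : TLt f a b)
    (h2 : TLt f b c) : TLt f a c := by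
  refine ⟨h1.1.trans h2.1, ?_⟩
  rw [(hf c.1).coh c.2 b.1 h2.1 a.1 h1.1, h2.2]
  exact h1.2

theorem tle_trans (hf : ∀ α, QQ C S Z α f (f α)) {a b c : K × Λ} (h1 : TLe f a b)
    (h2 : TLe f b c) : TLe f a c := by
  rcases h1 with rfl | h1
  · exact h2
  rcases h2 with rfl | h2
  · exact Or.inr h1
  exact Or.inr (tlt_trans hf h1 h2)

theorem tle_fst {a b : K × Λ} (h1 : TLe f a b) : a.1 ≤ b.1 := by
  rcases h1 with rfl | h1
  · exact le_rfl
  · exact h1.1.le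

/-- the predecessor on a lower level -/
theorem tlt_row {x : K × Λ} {β : K} (hβ : β < x.1) : TLt f (β, (f x.1).row x.2 β) x :=
  ⟨hβ, rfl⟩

/-- nodes below a node are determined by their level -/
theorem tlt_unique {a b x : K × Λ} (ha : TLt f a x) (hb : TLt f b x) (h : a.1 = b.1) :
    a = b := by
  refine Prod.ext h ?_
  rw [← ha.2, ← hb.2, h]

theorem tlt_conn (hf : ∀ α, QQ C S Z α f (f α)) {a b x : K × Λ} (ha : TLt f a x)
    (hb : TLt f b x) : a = b ∨ TLt f a b ∨ TLt f b a := by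
  rcases lt_trichotomy a.1 b.1 with h | h | h
  · right; left
    refine ⟨h, ?_⟩
    have h1 := (hf x.1).coh x.2 b.1 hb.1 a.1 h
    rw [hb.2, ha.2] at h1
    exact h1.symm
  · exact Or.inl (tlt_unique ha hb h)
  · right; right
    refine ⟨h, ?_⟩
    have h1 := (hf x.1).coh x.2 a.1 ha.1 b.1 h
    rw [ha.2, hb.2] at h1
    exact h1.symm

theorem tle_conn (hf : ∀ α, QQ C S Z α f (f α)) {a b x : K × Λ} (ha : TLe f a x)
    (hb : TLe f b x) : TLe f a b ∨ TLe f b a := by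
  rcases ha with rfl | ha
  · exact Or.inr hb
  rcases hb with rfl | hb
  · exact Or.inl (Or.inr ha)
  rcases tlt_conn hf ha hb with h | h | h
  · exact Or.inl (Or.inl h)
  · exact Or.inl (Or.inr h)
  · exact Or.inr (Or.inr h)

theorem exists_above (hf : ∀ α, QQ C S Z α f (f α)) (x : K × Λ) {β : K} (hβ : x.1 < β) :
    ∃ z, TLt f x (β, z) := by
  obtain ⟨z, hz⟩ := (hf β).full x.1 hβ x.2
  exact ⟨z, hβ, hz⟩

/-- the guessing hypothesis -/
def Guess (C : K → Set K) (S : Set K) (Z : K → Set (K × Λ)) : Prop :=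
  ∀ (A : Set (K × Λ)) (D : Set K), Club D →
    (∃ α ∈ S, α ∈ D ∧ LimPt univ α ∧ ∀ γ < α, ∀ i, ((γ, i) ∈ Z α ↔ (γ, i) ∈ A)) ∨
    ∃ α, LimPt univ α ∧ ∀ b < α, ∃ β ∈ C α, b < β ∧ ¬ LimPt (C α) β ∧ β ∈ D ∧
      ∀ γ < β, ∀ i, ((γ, i) ∈ Z β ↔ (γ, i) ∈ A)

/-- antichains are bounded -/
theorem antichain_bdd [LinearOrder Λ] (hs : Setup K Λ) (hC : Coh C) (hS : Avoids C S)
    (hf : ∀ α, QQ C S Z α f (f α)) (hG : Guess C S Z) (A : Set (K × Λ))
    (hA : ∀ a ∈ A, ∀ b ∈ A, ¬ TLt f a b) : ∃ α, ∀ a ∈ A, a.1 < α := by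
  classical
  -- closing off
  have hw : ∀ y : K × Λ, ∃ w, (∃ a ∈ A, TLe f y a ∨ TLe f a y) →
      w ∈ A ∧ (TLe f y w ∨ TLe f w y) := by
    intro y
    by_cases h : ∃ a ∈ A, TLe f y a ∨ TLe f a y
    · obtain ⟨a, h1, h2⟩ := h
      exact ⟨a, fun _ => ⟨h1, h2⟩⟩
    · exact ⟨y, fun h' => absurd h' h⟩
  choose w hw using hw
  choose F hF using fun γ : K => hs.reg (fun j => (w (γ, j)).1)
  have hD := hs.club_closure F
  have hcl : ∀ β ∈ {a | ∀ c < a, F c < a}, ∀ y : K × Λ, y.1 < β →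
      (∃ a ∈ A, TLe f y a ∨ TLe f a y) → ∃ a ∈ A, a.1 < β ∧ (TLe f y a ∨ TLe f a y) := by
    intro β hβ y hy h
    exact ⟨w y, (hw y h).1, (hF y.1 y.2).trans (hβ y.1 hy), (hw y h).2⟩
  -- a level all of whose nodes are decided bounds the antichain
  have hdec : ∀ α, (∀ i, (∃ a ∈ A, a.1 < α ∧ TLe f a (α, i)) ∨
      ∃ y, TLe f y (α, i) ∧ ∀ a ∈ A, ¬ TLe f a y ∧ ¬ TLe f y a) → ∀ a ∈ A, a.1 < α := by
    intro α h a ha
    by_contra hcon
    have hle : α ≤ a.1 := not_lt.1 hcon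
    obtain ⟨i, hi⟩ : ∃ i, TLe f (α, i) a := by
      rcases hle.lt_or_eq with h1 | h1
      · exact ⟨_, Or.inr (tlt_row h1)⟩
      · exact ⟨a.2, Or.inl (Prod.ext h1 rfl)⟩
    rcases h i with ⟨a', ha', h1, h2⟩ | ⟨y, h1, h2⟩
    · rcases tle_trans hf h2 hi with h3 | h3
      · rw [h3] at h1
        exact absurd hle (not_le.2 h1)
      · exact hA a' ha' a ha h3
    · exact (h2 a ha).2 (tle_trans hf h1 hi)
  rcases hG A _ hD with ⟨α, hαS, hαD, hαl, hZ⟩ | ⟨α, hαl, hα⟩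
  · refine ⟨α, hdec α fun i => ?_⟩
    obtain ⟨x, hx, hrow, hgs, -⟩ := (hf α).seed hαl i
    have hxi : TLe f x (α, i) := Or.inr ⟨hx, hrow⟩
    rcases hgs hαS with ⟨a, ha, h1, h2⟩ | h1
    · exact Or.inl ⟨a, (hZ a.1 h1 a.2).1 ha, h1, tle_trans hf h2 hxi⟩
    · refine Or.inr ⟨x, hxi, fun a ha => ?_⟩
      by_contra hcon
      have h2 : TLe f x a ∨ TLe f a x := by
        by_contra h
        exact hcon ⟨fun h' => h (Or.inr h'), fun h' => h (Or.inl h')⟩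
      obtain ⟨a', ha', h3, h4⟩ := hcl α hαD x hx ⟨a, ha, h2⟩
      have h5 := h1 a' ((hZ a'.1 h3 a'.2).2 ha') h3
      exact h4.elim h5.2 h5.1
  · refine ⟨α, hdec α fun i => ?_⟩
    obtain ⟨x, hx, hrow, -, hpath⟩ := (hf α).seed hαl i
    obtain ⟨c0, hc0, hxc0⟩ := hC.unb α hαl x.1 hx
    obtain ⟨β, hβ, hcβ, hβl, hβD, hZ⟩ := hα c0 (hC.sub α c0 hc0)
    have hcl' := CLike.of_mem hC hS hβ
    have hβα := hC.sub α β hβ
    have hnl : ¬ LimPt (C α ∩ Iio β) β := fun h => hβl (h.mono inter_subset_left)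
    obtain ⟨m, hm, hmax⟩ := hcl'.exists_max ⟨c0, hc0, hcβ⟩ hnl
    have hxm : x.1 ≤ m := hxc0.le.trans (hmax c0 ⟨hc0, hcβ⟩)
    have hmβ : m < β := hm.2
    set z := (f β).path (C α ∩ Iio β) x with hz
    have hzi : TLe f (β, z) (α, i) := by
      refine Or.inr ⟨hβα, ?_⟩
      show (f α).row i β = z
      exact hpath β hβ (hxm.trans hmβ.le)
    set y : K × Λ := (m, (f m).path (C α ∩ Iio β ∩ Iio m) x) with hy
    have hyz : TLt f y (β, z) := ⟨hmβ, (hf β).path1 _ hcl' x m hm hxm⟩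
    by_cases hh : ∃ z, (f β).row z m = (f m).path (C α ∩ Iio β ∩ Iio m) x ∧
        ∃ a ∈ Z β, a.1 < β ∧ (f β).row z a.1 = a.2
    · obtain ⟨a, ha, h1, h2⟩ := (hf β).hit _ hcl' x m hm hmax hxm hh
      exact Or.inl ⟨a, (hZ a.1 h1 a.2).1 ha, h1.trans hβα,
        tle_trans hf (Or.inr ⟨h1, h2⟩) hzi⟩
    · refine Or.inr ⟨y, tle_trans hf (Or.inr hyz) hzi, fun a ha => ?_⟩
      by_contra hcon
      have h2 : TLe f y a ∨ TLe f a y := by
        by_contra h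
        exact hcon ⟨fun h' => h (Or.inr h'), fun h' => h (Or.inl h')⟩
      obtain ⟨a', ha', h3, h4⟩ := hcl β hβD y hmβ ⟨a, ha, h2⟩
      apply hh
      rcases h4 with h4 | h4
      · obtain ⟨z', hz'⟩ := exists_above hf a' h3
        have h5 : TLt f y (β, z') := by
          rcases h4 with h4 | h4
          · rw [h4]; exact hz'
          · exact tlt_trans hf h4 hz'
        exact ⟨z', h5.2, a', (hZ a'.1 h3 a'.2).2 ha', h3, hz'.2⟩
      · obtain ⟨z', hz'⟩ := exists_above hf y hmβ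
        have h5 : TLt f a' (β, z') := by
          rcases h4 with h4 | h4
          · rw [h4]; exact hz'
          · exact tlt_trans hf h4 hz'
        exact ⟨z', hz'.2, a', (hZ a'.1 h3 a'.2).2 ha', h3, h5.2⟩

/-- chains are bounded -/
theorem chain_bdd [LinearOrder Λ] (hs : Setup K Λ) (hC : Coh C) (hS : Avoids C S)
    (hf : ∀ α, QQ C S Z α f (f α)) (hG : Guess C S Z) (B : Set (K × Λ))
    (hB : ∀ a ∈ B, ∀ b ∈ B, a = b ∨ TLt f a b ∨ TLt f b a) : ∃ α, ∀ a ∈ B, a.1 < α := by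
  classical
  by_contra hcon
  push Not at hcon
  -- the branch
  have hbr : ∀ α, ∃ p : Λ, ∃ b ∈ B, TLt f (α, p) b := by
    intro α
    obtain ⟨α', hα'⟩ := hs.exists_gt α
    obtain ⟨b, hb, hb2⟩ := hcon α'
    exact ⟨_, b, hb, tlt_row (lt_of_lt_of_le hα' hb2)⟩
  choose p hp using hbr
  have hpp : ∀ α β, α < β → TLt f (α, p α) (β, p β) := by
    intro α β hαβ
    obtain ⟨b, hb, h1⟩ := hp α
    obtain ⟨b', hb', h2⟩ := hp β
    have h3 : ∃ x, TLt f (α, p α) x ∧ TLt f (β, p β) x := by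
      rcases hB b hb b' hb' with h | h | h
      · exact ⟨b, h1, by rw [h]; exact h2⟩
      · exact ⟨b', tlt_trans hf h1 h, h2⟩
      · exact ⟨b, h1, tlt_trans hf h2 h⟩
    obtain ⟨x, h4, h5⟩ := h3
    rcases tlt_conn hf h4 h5 with h | h | h
    · exact absurd (congrArg Prod.fst h) hαβ.ne
    · exact h
    · exact absurd h.1 hαβ.not_gt
  -- successors
  have hsucc : ∀ α : K, ∃ α', α < α' ∧ ∀ b < α', b ≤ α := by
    intro α
    have hne : (Ioi α).Nonempty := hs.exists_gt α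
    refine ⟨wellFounded_lt.min _ hne, wellFounded_lt.min_mem _ hne, fun b hb => ?_⟩
    by_contra h
    exact wellFounded_lt.not_lt_min _ (show b ∈ Ioi α from not_le.1 h) hb
  choose sc hsc1 hsc2 using hsucc
  have hi : ∀ α, ∃ i, (f (sc α)).row i α = p α ∧ i ≠ p (sc α) := by
    intro α
    obtain ⟨i, i', h1, h2, h3⟩ := (hf (sc α)).split α (hsc1 α) (hsc2 α) (p α)
    by_cases h : i = p (sc α)
    · exact ⟨i', h3, fun h' => h1 (h.trans h'.symm)⟩
    · exact ⟨i, h2, h⟩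
  choose i hi1 hi2 using hi
  obtain ⟨α, hα⟩ := antichain_bdd hs hC hS hf hG (range fun α => (sc α, i α)) (by
    rintro _ ⟨α, rfl⟩ _ ⟨β, rfl⟩ ⟨h1, h2⟩
    dsimp only at h1 h2
    apply hi2 α
    have h3 : sc α ≤ β := hsc2 β _ h1
    rw [← h2]
    rcases h3.lt_or_eq with h4 | h4
    · rw [(hf (sc β)).coh (i β) β (hsc1 β) (sc α) h4, hi1 β]
      exact (hpp _ _ h4).2
    · rw [h4]; exact hi1 β)
  exact absurd (hα _ ⟨α, rfl⟩) (not_lt.2 (hsc1 α).le)

end Pool.Agent.Run7.h653
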